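import Pool.Agent.ShghZ.Spec

/-!
# ShghZ, Shift: division by a power of `Y`
-/

namespace ShghZ

open MvPolynomial ShghJ ShghC ShghK

universe u v w

private theorem shift_eval {K : Type*} [Field K] (k : ℕ) (x y : K) (hy : y ≠ 0) :
    eval ![x, y] ((X 1 : MvPolynomial (Fin 2) K) ^ k) ≠ 0 := by
  rw [map_pow, eval_X]
  exact pow_ne_zero k hy

theorem tShift : S_Shift.{u} := by
  intro K _ τ L k T s μ P hP hT
  have hfin : Module.Finite K (LN (Sf 0 (T - 1) L) μ P) := tNClo.1 K _ s μ P
  set φ : MvPolynomial (Fin 2) K →ₗ[K] MvPolynomial (Fin 2) K :=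
    LinearMap.mulLeft K (X 1 ^ k) with hφ
  have hle : LN ((Sf 0 τ L).filter fun e => k ≤ e 1 ∧ e 1 < k + T) μ P ≤
      (LN (Sf 0 (T - 1) L) μ P).map φ := by
    intro f hf
    obtain ⟨h1, h2⟩ := mem_LN.1 hf
    have hX : (X 1 : MvPolynomial (Fin 2) K) ^ k = monomial (Finsupp.single 1 k) 1 :=
      X_pow_eq_monomial
    have hdiv : X 1 ^ k * (divMonomial f (Finsupp.single 1 k)) = f := by
      rw [hX]
      have h3 := divMonomial_add_modMonomial f (Finsupp.single (1 : Fin 2) k)
      have h4 : modMonomial f (Finsupp.single (1 : Fin 2) k) = 0 := by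
        ext e
        rw [coeff_zero]
        by_cases he : Finsupp.single (1 : Fin 2) k ≤ e
        · exact coeff_modMonomial_of_le _ he
        · rw [coeff_modMonomial_of_not_le _ he]
          by_contra h5
          have h6 := (Finset.mem_filter.1 (h1 e h5)).2.1
          apply he
          rw [Finsupp.single_le_iff]
          exact h6
      rw [h4, add_zero] at h3
      exact h3
    refine ⟨divMonomial f (Finsupp.single 1 k), mem_LN.2 ⟨fun e he => ?_, fun i => ?_⟩, hdiv⟩
    · rw [coeff_divMonomial] at he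
      obtain ⟨h5, h6, h7⟩ := Finset.mem_filter.1 (h1 _ he)
      rw [mem_Sf] at h5 ⊢
      simp only [Finsupp.add_apply, Finsupp.single_eq_same] at h5 h6 h7
      have h8 : (Finsupp.single (1 : Fin 2) k) 0 = 0 :=
        Finsupp.single_eq_of_ne (by decide)
      rw [h8] at h5
      omega
    · refine tUnit K (P i 0) (P i 1) (μ i) (X 1 ^ k) _ (shift_eval k _ _ (hP i)) ?_
      rw [hdiv]
      exact h2 i
  exact (Submodule.finrank_mono hle).trans (Submodule.finrank_map_le φ _)

end ShghZ
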