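import Pool.Agent.ShghZ.DS
import Pool.Agent.ShghZ.Shift
import Pool.Agent.ShghC.NInv
import Pool.Agent.ShghC.Elm1
import Pool.Agent.ShghK.Flip
import Pool.Agent.ShghJ.Geo

/-!
# ShghZ, CutBox: a box is cut into blocks of rows, in every characteristic

`hN F (box of thickness τ + 1) (∑ B j) ≤ ∑ hN F (box of R j rows) (B j)`, `τ + 1 ≤ ∑ R j`.
-/

namespace ShghZ

open MvPolynomial ShghJ ShghC ShghK

universe u v w

private theorem cb_sum {ι : Type*} [Fintype ι] (f : ι → ℕ) :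
    Finset.univ.val.map f = ∑ i, ({f i} : Multiset ℕ) := by
  have h := (Multiset.sum_map_singleton (Finset.univ.val.map f)).symm
  rw [Multiset.map_map] at h
  exact h

private theorem cb_sigma {J : ℕ} (c : Fin J → ℕ) (M : ∀ j, Fin (c j) → ℕ) :
    Finset.univ.val.map (fun i : Fin (∑ j, c j) =>
      M (finSigmaFinEquiv.symm i).1 (finSigmaFinEquiv.symm i).2) =
    ∑ j, Finset.univ.val.map (M j) := by
  rw [cb_sum]
  have h1 : ∑ i : Fin (∑ j, c j), ({M (finSigmaFinEquiv.symm i).1 (finSigmaFinEquiv.symm i).2} :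
      Multiset ℕ) = ∑ p : (Σ j, Fin (c j)), ({M p.1 p.2} : Multiset ℕ) :=
    Fintype.sum_equiv finSigmaFinEquiv.symm _ _ fun i => rfl
  rw [h1, Fintype.sum_sigma]
  exact Finset.sum_congr rfl fun j _ => (cb_sum (M j)).symm

/-- The space of one block. -/
private theorem cb_block (F : Type u) [Field F] {J : ℕ} (c : Fin J → ℕ) (M : ∀ j, Fin (c j) → ℕ)
    (N : Finset (Fin 2 →₀ ℕ)) (j : Fin J) :
    Module.finrank (UF F) (LN N
      (fun i : Fin (∑ j, c j) => if ((finSigmaFinEquiv.symm i).1 : ℕ) = j then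
        M (finSigmaFinEquiv.symm i).1 (finSigmaFinEquiv.symm i).2 else 0)
      (fun i => up F i)) = hN F N (Finset.univ.val.map (M j)) := by
  have hinj : Function.Injective (fun l : Fin (c j) =>
      ((finSigmaFinEquiv (⟨j, l⟩ : Σ j, Fin (c j)) : Fin (∑ j, c j)) : ℕ)) := by
    intro l l' h
    have h1 := finSigmaFinEquiv.injective (Fin.val_injective h)
    simpa using h1
  have h1 := tNInv tNSemi tNSemi F (UF F) N (c j) (M j)
    (fun l => up F ((finSigmaFinEquiv (⟨j, l⟩ : Σ j, Fin (c j)) : Fin (∑ j, c j)) : ℕ))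
    (geo_algInd F (fun l : Fin (c j) =>
      ((finSigmaFinEquiv (⟨j, l⟩ : Σ j, Fin (c j)) : Fin (∑ j, c j)) : ℕ)) hinj)
  have h2 : LN N
      (fun i : Fin (∑ j, c j) => if ((finSigmaFinEquiv.symm i).1 : ℕ) = j then
        M (finSigmaFinEquiv.symm i).1 (finSigmaFinEquiv.symm i).2 else 0)
      (fun i => up F i) =
      LN N (M j)
        (fun l => up F ((finSigmaFinEquiv (⟨j, l⟩ : Σ j, Fin (c j)) : Fin (∑ j, c j)) : ℕ)) := by
    ext f
    rw [mem_LN, mem_LN]
    refine and_congr_right fun _ => ⟨fun h l => ?_, fun h i => ?_⟩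
    · have h3 := h (finSigmaFinEquiv ⟨j, l⟩)
      rw [Equiv.symm_apply_apply, if_pos rfl] at h3
      exact h3
    · obtain ⟨⟨j', l⟩, rfl⟩ := finSigmaFinEquiv.surjective i
      rw [Equiv.symm_apply_apply]
      by_cases hj : (j' : ℕ) = j
      · have hj' : j' = j := Fin.ext hj
        subst hj'
        rw [if_pos rfl]
        exact h l
      · rw [if_neg hj, pow_zero, Ideal.one_eq_top]
        exact Submodule.mem_top
  rw [← h1, h2]

/-- A box is cut into blocks of rows (functions). -/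
theorem cutBoxM (F : Type u) [Field F] (τ L J : ℕ) (R c : Fin J → ℕ) (M : ∀ j, Fin (c j) → ℕ)
    (hR : ∀ j, 1 ≤ R j) (hJ : τ + 1 ≤ ∑ j, R j) :
    hN F (Sf 0 τ L) (∑ j, Finset.univ.val.map (M j)) ≤
      ∑ j, hN F (Sf 0 (R j - 1) L) (Finset.univ.val.map (M j)) := by
  set E := FractionRing (Polynomial (UF F)) with hE
  have k0 := tNInv tNSemi tNSemi F (UF F) (Sf 0 τ L) (∑ j, c j)
    (fun i => M (finSigmaFinEquiv.symm i).1 (finSigmaFinEquiv.symm i).2) (fun i => up F i)
    (geo_algInd F (fun i : Fin (∑ j, c j) => (i : ℕ)) Fin.val_injective)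
  rw [cb_sigma] at k0
  rw [← k0]
  have k1 := tNSemi F (UF F) E (Sf 0 τ L) (∑ j, c j)
    (fun i => M (finSigmaFinEquiv.symm i).1 (finSigmaFinEquiv.symm i).2) (fun i => up F i)
    (geo_algInd F (fun i : Fin (∑ j, c j) => (i : ℕ)) Fin.val_injective)
    (fun i => ![algebraMap (UF F) (FractionRing (Polynomial (UF F))) (up F i 0),
      algebraMap (Polynomial (UF F)) (FractionRing (Polynomial (UF F)))
        (Polynomial.X ^ (2 * (J - 1 - ((finSigmaFinEquiv.symm i).1 : ℕ))) *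
          Polynomial.C (up F i 1))])
  set Rn : ℕ → ℕ := fun i => if h : i < J then R ⟨i, h⟩ else 1 with hRn
  have hRn1 : ∀ i, 1 ≤ Rn i := by
    intro i
    simp only [hRn]
    split_ifs with h
    · exact hR _
    · exact le_rfl
  have hRnJ : ∀ j : Fin J, Rn j = R j := fun j => by
    simp only [hRn]
    rw [dif_pos j.2]
  set k : ℕ → ℕ := fun j => ∑ i ∈ Finset.range j, Rn i with hk
  have hks : ∀ j, k (j + 1) = k j + Rn j := fun j => Finset.sum_range_succ _ _
  have k2 := tDS (UF F) (Sf 0 τ L) J k (∑ j, c j)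
    (fun i => M (finSigmaFinEquiv.symm i).1 (finSigmaFinEquiv.symm i).2)
    (fun i => ((finSigmaFinEquiv.symm i).1 : ℕ))
    (fun i => up F i)
    (strictMono_nat_of_lt_succ fun j => by rw [hks]; exact Nat.lt_add_of_pos_right (hRn1 j))
    (by rw [hk]; exact Finset.sum_range_zero _)
    (by
      intro e he
      have e1 := (mem_Sf.1 he).1
      have e2 : k J = ∑ j, R j := by
        rw [hk]
        change ∑ i ∈ Finset.range J, Rn i = _
        rw [Finset.sum_range]
        exact Finset.sum_congr rfl fun j _ => hRnJ j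
      omega)
    (fun i => (finSigmaFinEquiv.symm i).1.2)
  have k3 : ∑ j ∈ Finset.range J, Module.finrank (UF F)
      (LN ((Sf 0 τ L).filter fun e => k j ≤ e 1 ∧ e 1 < k (j + 1))
      (fun i : Fin (∑ j, c j) => if ((finSigmaFinEquiv.symm i).1 : ℕ) = j then
        M (finSigmaFinEquiv.symm i).1 (finSigmaFinEquiv.symm i).2 else 0)
      (fun i => up F i)) ≤
      ∑ j, hN F (Sf 0 (R j - 1) L) (Finset.univ.val.map (M j)) := by
    rw [Finset.sum_range]
    refine Finset.sum_le_sum fun j _ => ?_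
    rw [hks, ← cb_block F c M _ j, ← hRnJ j]
    exact tShift (UF F) τ L (k j) (Rn j) (∑ j, c j) _ _ (fun i => elm_up_ne F _ 1) (hRn1 j)
  exact k1.trans (k2.trans k3)

/-- CUTBOX: a box of thickness `τ + 1` is cut into blocks of `R j` rows with the points `B j`. -/
theorem cutBox (F : Type u) [Field F] (τ L J : ℕ) (R : Fin J → ℕ) (B : Fin J → Multiset ℕ)
    (hR : ∀ j, 1 ≤ R j) (hJ : τ + 1 ≤ ∑ j, R j) :
    hN F (Sf 0 τ L) (∑ j, B j) ≤ ∑ j, hN F (Sf 0 (R j - 1) L) (B j) := by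
  have h1 : ∀ j, Finset.univ.val.map (fun i : Fin (B j).toList.length => (B j).toList.get i) =
      B j := by
    intro j
    rw [Fin.univ_val_map, List.ofFn_get, Multiset.coe_toList]
  have h2 := cutBoxM F τ L J R (fun j => (B j).toList.length)
    (fun j i => (B j).toList.get i) hR hJ
  simp only [h1] at h2
  exact h2

/-- CUTBOX2: two blocks. -/
theorem cutBox2 (F : Type u) [Field F] (τ L a b : ℕ) (A B : Multiset ℕ) (ha : 1 ≤ a) (hb : 1 ≤ b)
    (hJ : τ + 1 ≤ a + b) :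
    hN F (Sf 0 τ L) (A + B) ≤ hN F (Sf 0 (a - 1) L) A + hN F (Sf 0 (b - 1) L) B := by
  have h := cutBox F τ L 2 ![a, b] ![A, B] (by
    intro j
    fin_cases j
    · exact ha
    · exact hb) (by
      rw [Fin.sum_univ_two]
      exact hJ)
  rw [Fin.sum_univ_two, Fin.sum_univ_two] at h
  exact h

/-- CUTBOXL: a list of blocks. -/
theorem cutBoxL (F : Type u) [Field F] (L : ℕ) : ∀ (l : List (ℕ × Multiset ℕ)) (τ : ℕ),
    (∀ p ∈ l, 1 ≤ p.1) → τ + 1 ≤ (l.map Prod.fst).sum →
    hN F (Sf 0 τ L) (l.map Prod.snd).sum ≤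
      (l.map fun p => hN F (Sf 0 (p.1 - 1) L) p.2).sum := by
  intro l τ h1 h2
  have h := cutBox F τ L l.length (fun j => l[(j : ℕ)].1) (fun j => l[(j : ℕ)].2)
    (fun j => h1 _ (List.getElem_mem j.2))
    (by rw [Fin.sum_univ_fun_getElem l Prod.fst]; exact h2)
  rw [Fin.sum_univ_fun_getElem l Prod.snd,
    Fin.sum_univ_fun_getElem l (fun p => hN F (Sf 0 (p.1 - 1) L) p.2)] at h
  exact h

/-- CUTCOL: the same for the columns: `m + 1` columns are cut into blocks of `R j` columns. -/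
theorem cutCol (F : Type u) [Field F] (m τ J : ℕ) (R : Fin J → ℕ) (B : Fin J → Multiset ℕ)
    (hR : ∀ j, 1 ≤ R j) (hJ : m + 1 ≤ ∑ j, R j) :
    hN F (Sf 0 τ m) (∑ j, B j) ≤ ∑ j, hN F (Sf 0 τ (R j - 1)) (B j) := by
  rw [tFlip F τ m]
  refine (cutBox F m τ J R B hR hJ).trans (Finset.sum_le_sum fun j _ => ?_)
  rw [tFlip F (R j - 1) τ]

end ShghZ
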