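import Pool.Agent.ShghZ.ConeZ

/-!
# Standard classes and prime divisors with `K · D ≤ 4` or `D² ≥ (K · D)²`
-/

namespace ShghT

open MvPolynomial

variable {F K : Type*} [Field F] [Field K] [Algebra F K] {s : ℕ}

/-- `D² = 2 χ - 2 + K · D`. -/
theorem self_eq (δ : ℕ) (μ : Fin s → ℕ) : (δ : ℤ) ^ 2 - ∑ i, (μ i : ℤ) ^ 2 =
    2 * (((δ + 2).choose 2 : ℤ) - ∑ i, ((μ i + 1).choose 2 : ℤ)) - 2 +
      ((∑ i, (μ i : ℤ)) - 3 * δ) := by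
  have h1 := two_chooseZ (δ + 1)
  rw [show δ + 1 + 1 = δ + 2 by ring] at h1
  have h2 : (2 : ℤ) * (((δ + 2).choose 2 : ℕ) : ℤ) = (δ + 1) * (δ + 1) + (δ + 1) := by
    exact_mod_cast h1
  have h3 : 2 * ∑ i, (((μ i + 1).choose 2 : ℕ) : ℤ) = ∑ i, (μ i : ℤ) ^ 2 + ∑ i, (μ i : ℤ) := by
    rw [Finset.mul_sum, ← Finset.sum_add_distrib]
    refine Finset.sum_congr rfl fun i _ => ?_
    have h4 : (2 : ℤ) * (((μ i + 1).choose 2 : ℕ) : ℤ) = μ i * μ i + μ i := by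
      exact_mod_cast two_chooseZ (μ i)
    rw [h4]
    ring
  have h5 : 2 * (((δ + 2).choose 2 : ℤ) - ∑ i, ((μ i + 1).choose 2 : ℤ)) =
      (δ + 1) * (δ + 1) + (δ + 1) - (∑ i, (μ i : ℤ) ^ 2 + ∑ i, (μ i : ℤ)) := by
    rw [mul_sub, h2, h3]
  rw [h5]
  ring

/-- Standard classes. -/
theorem std_Z (hs : 9 ≤ s) (D : ℕ) (P : Fin s → Fin 2 → K)
    (hP : AlgebraicIndependent F (fun ij : Fin s × Fin 2 => P ij.1 ij.2)) (μ : Fin s → ℕ)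
    (hstd : ∀ i j l, i ≠ j → i ≠ l → j ≠ l → μ i + μ j + μ l ≤ D)
    (h : (∑ i, (μ i : ℤ)) - 3 * D ≤ 4 ∨
      ((∑ i, (μ i : ℤ)) - 3 * D) ^ 2 ≤ (D : ℤ) ^ 2 - ∑ i, (μ i : ℤ) ^ 2) :
    (Module.finrank K (LS D μ P) : ℤ) =
      max 0 (((D + 2).choose 2 : ℤ) - ∑ i, ((μ i + 1).choose 2 : ℤ)) := by
  obtain ⟨c, hc, hanti, hmax⟩ := exists_nine hs μ
  exact final_Z P hP D μ c hc hanti hmax (hstd _ _ _ (hc.ne (by decide)) (hc.ne (by decide))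
    (hc.ne (by decide))) h

/-- Prime divisors. -/
theorem prime_Z (hs : 9 ≤ s) (D : ℕ) (P : Fin s → Fin 2 → K)
    (hP : AlgebraicIndependent F (fun ij : Fin s × Fin 2 => P ij.1 ij.2)) (μ : Fin s → ℕ)
    (f : MvPolynomial (Fin 2) K) (hf : PrimeAt D P μ f)
    (h : (∑ i, (μ i : ℤ)) - 3 * D ≤ 4 ∨
      ((∑ i, (μ i : ℤ)) - 3 * D) ^ 2 ≤ (D : ℤ) ^ 2 - ∑ i, (μ i : ℤ) ^ 2) :
    (Module.finrank K (LS D μ P) : ℤ) =
        ((D + 2).choose 2 : ℤ) - ∑ i, ((μ i + 1).choose 2 : ℤ) := by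
  rw [self_eq] at h
  refine prime_all (F := F) hs (fun E χ h => E ≤ 4 ∨ E ^ 2 ≤ 2 * χ - 2 + E → (h : ℤ) = χ)
    (fun _ => by norm_num) ?_ D P hP μ f hf h
  intro D P hP μ c hc hanti hmax hstd f hf hE
  rw [← self_eq] at hE
  have hpos := hf.pos ⟨0, by omega⟩
  have h1 := final_Z P hP D μ c hc hanti hmax hstd hE
  have h3 : (1 : ℤ) ≤ max 0 (((D + 2).choose 2 : ℤ) - ∑ i, ((μ i + 1).choose 2 : ℤ)) := by
    rw [← h1]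
    exact_mod_cast hpos
  rw [h1]
  rcases le_total 0 (((D + 2).choose 2 : ℤ) - ∑ i, ((μ i + 1).choose 2 : ℤ)) with h4 | h4
  · exact max_eq_right h4
  · rw [max_eq_left h4] at h3
    omega

end ShghT
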