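import Pool.Agent.ShghZ.Spec
import Pool.Agent.ShghL.Split
import Pool.Agent.ShghC.NClo

/-!
# ShghZ/DS: direct sum of blocks of rows
-/

namespace ShghZ

open MvPolynomial ShghJ ShghC

universe u

/-- The exponent of the entry in the block `b` and the row `r`. -/
def dsA (J : ℕ) (k : ℕ → ℕ) (b r : ℕ) : ℕ :=
  ∑ i ∈ Finset.range b, (2 * k (i + 1) - (1 + 2 * r)) +
    ∑ i ∈ Finset.Ico b (J - 1), (2 * r + 1 - 2 * k (i + 1))

/-- The exponent of the column. -/
def dsT (J : ℕ) (k : ℕ → ℕ) (r : ℕ) : ℕ :=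
  ∑ i ∈ Finset.range (J - 1), (2 * r + 1 - 2 * k (i + 1))

/-- The exponent of the row. -/
def dsP (k : ℕ → ℕ) (b : ℕ) : ℕ :=
  ∑ i ∈ Finset.range b, (2 * k (i + 1) - 1)

theorem ds_id (J : ℕ) (k : ℕ → ℕ) (hk : StrictMono k) (b r : ℕ) (hb : b < J) :
    2 * (J - 1 - b) * r + dsP k b + dsT J k r = 2 * (J - 1) * r + dsA J k b r := by
  have hb' : b ≤ J - 1 := by omega
  have h1 : dsT J k r = ∑ i ∈ Finset.range b, (2 * r + 1 - 2 * k (i + 1)) +
      ∑ i ∈ Finset.Ico b (J - 1), (2 * r + 1 - 2 * k (i + 1)) := by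
    unfold dsT
    rw [Finset.range_eq_Ico, Finset.range_eq_Ico,
      Finset.sum_Ico_consecutive _ (Nat.zero_le _) hb']
  have h2 : dsP k b + ∑ i ∈ Finset.range b, (2 * r + 1 - 2 * k (i + 1)) =
      b * (2 * r) + ∑ i ∈ Finset.range b, (2 * k (i + 1) - (1 + 2 * r)) := by
    unfold dsP
    rw [← Finset.sum_add_distrib]
    have h3 : b * (2 * r) = ∑ _i ∈ Finset.range b, 2 * r := by
      rw [Finset.sum_const, Finset.card_range, smul_eq_mul]
    rw [h3, ← Finset.sum_add_distrib]
    refine Finset.sum_congr rfl fun i _ => ?_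
    have h4 : i + 1 ≤ k (i + 1) := hk.id_le (i + 1)
    omega
  have h5 : 2 * (J - 1 - b) * r + b * (2 * r) = 2 * (J - 1) * r := by
    obtain ⟨c, hc⟩ := Nat.exists_eq_add_of_le hb'
    rw [hc, Nat.add_sub_cancel_left]
    ring
  rw [h1]
  unfold dsA
  omega

theorem ds_zero (J : ℕ) (k : ℕ → ℕ) (hk : StrictMono k) (h0 : k 0 = 0) (b r : ℕ) (hb : b < J)
    (hr : r < k J) : dsA J k b r = 0 ↔ k b ≤ r ∧ r < k (b + 1) := by
  unfold dsA
  rw [Nat.add_eq_zero_iff, Finset.sum_eq_zero_iff, Finset.sum_eq_zero_iff]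
  constructor
  · rintro ⟨h1, h2⟩
    constructor
    · rcases Nat.eq_zero_or_pos b with h | h
      · rw [h, h0]
        exact Nat.zero_le _
      · have h3 := h1 (b - 1) (Finset.mem_range.2 (by omega))
        rw [show b - 1 + 1 = b by omega] at h3
        omega
    · rcases Nat.lt_or_ge b (J - 1) with h | h
      · have h3 := h2 b (Finset.mem_Ico.2 ⟨le_refl _, h⟩)
        omega
      · have h4 : b + 1 = J := by omega
        rw [h4]
        exact hr
  · rintro ⟨h1, h2⟩
    constructor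
    · intro i hi
      have h3 : k (i + 1) ≤ k b := hk.monotone (Finset.mem_range.1 hi)
      omega
    · intro i hi
      have h3 : k (b + 1) ≤ k (i + 1) := hk.monotone (Nat.succ_le_succ (Finset.mem_Ico.1 hi).1)
      omega

theorem ds_cancel {E : Type*} [Field E] {a b d : E} (h : d ≠ 0) : (a * d) * b * d⁻¹ = a * b := by
  field_simp

section main

variable {K : Type u} [Field K] {s : ℕ}

/-- The matrix over `K[X]`. -/
noncomputable def dsM (N : Finset (Fin 2 →₀ ℕ)) (J : ℕ) (k : ℕ → ℕ) (μ b : Fin s → ℕ)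
    (P : Fin s → Fin 2 → K) : Matrix (ShghE.tfRow μ) N (Polynomial K) :=
  fun r e => Polynomial.X ^ dsA J k (b r.1) ((e : Fin 2 →₀ ℕ) 1) *
    Polynomial.C (ShghE.tfM (P r.1 0) (P r.1 1) e r.2)

/-- The points over `K(t)`. -/
noncomputable def dsQ (J : ℕ) (b : Fin s → ℕ) (P : Fin s → Fin 2 → K) :
    Fin s → Fin 2 → FractionRing (Polynomial K) := fun i =>
    ![algebraMap K (FractionRing (Polynomial K)) (P i 0),
      algebraMap (Polynomial K) (FractionRing (Polynomial K))
        (Polynomial.X ^ (2 * (J - 1 - b i)) * Polynomial.C (P i 1))]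

theorem ds_claimA (N : Finset (Fin 2 →₀ ℕ)) (J : ℕ) (k : ℕ → ℕ) (hk : StrictMono k)
    (μ b : Fin s → ℕ) (hb : ∀ i, b i < J) (P : Fin s → Fin 2 → K) :
    Module.finrank (FractionRing (Polynomial K)) (LN N μ (dsQ J b P)) ≤
      Module.finrank (FractionRing (Polynomial K)) (LinearMap.ker ((dsM N J k μ b P).map
        (algebraMap (Polynomial K) (FractionRing (Polynomial K)))).mulVecLin) := by
  classical
  let E := FractionRing (Polynomial K)
  let t : E := algebraMap (Polynomial K) E Polynomial.X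
  have hX : t ≠ 0 := by
    intro h
    exact Polynomial.X_ne_zero ((injective_iff_map_eq_zero _).1
      (IsFractionRing.injective (Polynomial K) E) _ h)
  let ψ : LN N μ (dsQ J b P) →ₗ[E] (N → E) :=
    { toFun := fun f e => (f : MvPolynomial (Fin 2) E).coeff e *
        (t ^ (2 * (J - 1) * (e : Fin 2 →₀ ℕ) 1) * (t ^ dsT J k ((e : Fin 2 →₀ ℕ) 1))⁻¹)
      map_add' := fun f g => by
        ext e
        simp [add_mul]
      map_smul' := fun c f => by
        ext e
        simp [mul_assoc] }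
  have hinj : LinearMap.ker ψ = ⊥ := by
    rw [LinearMap.ker_eq_bot']
    intro f hf
    apply Subtype.ext
    rw [ln_expand (mem_LN.1 f.2).1]
    refine Finset.sum_eq_zero fun e _ => ?_
    have h1 : (f : MvPolynomial (Fin 2) E).coeff e *
        (t ^ (2 * (J - 1) * (e : Fin 2 →₀ ℕ) 1) * (t ^ dsT J k ((e : Fin 2 →₀ ℕ) 1))⁻¹) = 0 :=
      congrFun hf e
    have h2 : (f : MvPolynomial (Fin 2) E).coeff e = 0 := by
      rcases mul_eq_zero.1 h1 with h | h
      · exact h
      · exact absurd h (mul_ne_zero (pow_ne_zero _ hX) (inv_ne_zero (pow_ne_zero _ hX)))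
    rw [h2, monomial_zero]
  have hrange : LinearMap.range ψ ≤ LinearMap.ker ((dsM N J k μ b P).map
        (algebraMap (Polynomial K) E)).mulVecLin := by
    rintro _ ⟨f, rfl⟩
    have hrow : ∀ (i : Fin s) (x : Fin 2 →₀ ℕ), x.degree < μ i →
        ∑ e : N, ShghE.tfM (dsQ J b P i 0) (dsQ J b P i 1) e x *
          (f : MvPolynomial (Fin 2) E).coeff e = 0 := by
      intro i x hx
      have h1 := (ShghE.tf_mem_iff _ _ _ _).1 ((mem_LN.1 f.2).2 i) x hx
      rw [ln_expand (mem_LN.1 f.2).1, ShghE.tf_coeff] at h1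
      exact h1
    rw [LinearMap.mem_ker]
    ext r
    obtain ⟨i, x, hx⟩ := r
    have h1 := hrow i x (by simpa using hx)
    have e0 : dsQ J b P i 0 = algebraMap (Polynomial K) E (Polynomial.C (P i 0)) := by
      have : dsQ J b P i 0 = algebraMap K E (P i 0) := rfl
      rw [this, IsScalarTower.algebraMap_apply K (Polynomial K) E]
      rfl
    have e1 : dsQ J b P i 1 = t ^ (2 * (J - 1 - b i)) *
        algebraMap (Polynomial K) E (Polynomial.C (P i 1)) := by
      have : dsQ J b P i 1 = algebraMap (Polynomial K) E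
        (Polynomial.X ^ (2 * (J - 1 - b i)) * Polynomial.C (P i 1)) := rfl
      rw [this, map_mul, map_pow]
    rw [e0, e1] at h1
    have h2 : ((dsM N J k μ b P).map (algebraMap (Polynomial K) E)).mulVecLin
        (ψ f) ⟨i, x, hx⟩ =
      ∑ e : N, (algebraMap (Polynomial K) E
        (Polynomial.X ^ dsA J k (b i) ((e : Fin 2 →₀ ℕ) 1) *
          Polynomial.C (ShghE.tfM (P i 0) (P i 1) e x))) *
        ((f : MvPolynomial (Fin 2) E).coeff e *
        (t ^ (2 * (J - 1) * (e : Fin 2 →₀ ℕ) 1) * (t ^ dsT J k ((e : Fin 2 →₀ ℕ) 1))⁻¹)) := rfl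
    rw [h2, Pi.zero_apply]
    have h5 : ∀ e : N, (algebraMap (Polynomial K) E
        (Polynomial.X ^ dsA J k (b i) ((e : Fin 2 →₀ ℕ) 1) *
          Polynomial.C (ShghE.tfM (P i 0) (P i 1) e x))) *
        ((f : MvPolynomial (Fin 2) E).coeff e *
        (t ^ (2 * (J - 1) * (e : Fin 2 →₀ ℕ) 1) * (t ^ dsT J k ((e : Fin 2 →₀ ℕ) 1))⁻¹)) =
        (t ^ dsP k (b i) * (1 ^ x 0 * (t ^ (2 * (J - 1 - b i))) ^ x 1)) *
        (ShghE.tfM (algebraMap (Polynomial K) E (Polynomial.C (P i 0)))
          (t ^ (2 * (J - 1 - b i)) * algebraMap (Polynomial K) E (Polynomial.C (P i 1))) e x *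
        (f : MvPolynomial (Fin 2) E).coeff e) := by
      intro e
      have h6 := ShghL.sp_tfM (1 : E) (t ^ (2 * (J - 1 - b i)))
        (algebraMap (Polynomial K) E (Polynomial.C (P i 0)))
        (algebraMap (Polynomial K) E (Polynomial.C (P i 1))) e x
      rw [one_mul] at h6
      have h7 : (t ^ dsP k (b i) * (1 ^ x 0 * (t ^ (2 * (J - 1 - b i))) ^ x 1)) *
        (ShghE.tfM (algebraMap (Polynomial K) E (Polynomial.C (P i 0)))
          (t ^ (2 * (J - 1 - b i)) * algebraMap (Polynomial K) E (Polynomial.C (P i 1))) e x *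
        (f : MvPolynomial (Fin 2) E).coeff e) =
        t ^ dsP k (b i) * (1 ^ (e : Fin 2 →₀ ℕ) 0 *
          (t ^ (2 * (J - 1 - b i))) ^ (e : Fin 2 →₀ ℕ) 1 *
          ShghE.tfM (algebraMap (Polynomial K) E (Polynomial.C (P i 0)))
            (algebraMap (Polynomial K) E (Polynomial.C (P i 1))) e x) *
          (f : MvPolynomial (Fin 2) E).coeff e := by
        rw [← h6]
        ring
      rw [h7]
      have h3 : ShghE.tfM (algebraMap (Polynomial K) E (Polynomial.C (P i 0)))
            (algebraMap (Polynomial K) E (Polynomial.C (P i 1))) (e : Fin 2 →₀ ℕ) x =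
          algebraMap (Polynomial K) E (Polynomial.C (ShghE.tfM (P i 0) (P i 1) e x)) := by
        rw [← ShghE.tfM_map Polynomial.C, ← ShghE.tfM_map (algebraMap (Polynomial K) E)]
      rw [h3, map_mul, map_pow, one_pow, one_mul]
      have h8 : t ^ dsA J k (b i) ((e : Fin 2 →₀ ℕ) 1) *
          t ^ (2 * (J - 1) * (e : Fin 2 →₀ ℕ) 1) =
          (t ^ dsP k (b i) * (t ^ (2 * (J - 1 - b i))) ^ (e : Fin 2 →₀ ℕ) 1) *
            t ^ dsT J k ((e : Fin 2 →₀ ℕ) 1) := by
        have h9 := ds_id J k hk (b i) ((e : Fin 2 →₀ ℕ) 1) (hb i)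
        rw [← pow_mul, ← pow_add, ← pow_add, ← pow_add]
        congr 1
        omega
      have hne : t ^ dsT J k ((e : Fin 2 →₀ ℕ) 1) ≠ 0 := pow_ne_zero _ hX
      calc t ^ dsA J k (b i) ((e : Fin 2 →₀ ℕ) 1) *
            algebraMap (Polynomial K) E (Polynomial.C (ShghE.tfM (P i 0) (P i 1) e x)) *
            ((f : MvPolynomial (Fin 2) E).coeff e *
        (t ^ (2 * (J - 1) * (e : Fin 2 →₀ ℕ) 1) * (t ^ dsT J k ((e : Fin 2 →₀ ℕ) 1))⁻¹))
          = (t ^ dsA J k (b i) ((e : Fin 2 →₀ ℕ) 1) *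
            t ^ (2 * (J - 1) * (e : Fin 2 →₀ ℕ) 1)) *
            (algebraMap (Polynomial K) E (Polynomial.C (ShghE.tfM (P i 0) (P i 1) e x)) *
            (f : MvPolynomial (Fin 2) E).coeff e) * (t ^ dsT J k ((e : Fin 2 →₀ ℕ) 1))⁻¹ := by
            ring
        _ = _ := by
            rw [h8, ds_cancel hne]
            ring
    rw [Finset.sum_congr rfl fun e _ => h5 e, ← Finset.mul_sum, h1, mul_zero]
  calc Module.finrank E (LN N μ (dsQ J b P))
      = Module.finrank E (LinearMap.range ψ) :=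
        (LinearMap.finrank_range_of_inj (LinearMap.ker_eq_bot.1 hinj)).symm
    _ ≤ _ := Submodule.finrank_mono hrange

/-- A part of the polynomial with the coefficients `c`. -/
noncomputable def dsPart (N : Finset (Fin 2 →₀ ℕ)) (b : (Fin 2 →₀ ℕ) → Prop)
    [DecidablePred b] : (N → K) →ₗ[K] MvPolynomial (Fin 2) K where
  toFun c := ∑ e : N, monomial (e : Fin 2 →₀ ℕ) (if b e then c e else 0)
  map_add' c c' := by
    rw [← Finset.sum_add_distrib]
    refine Finset.sum_congr rfl fun e _ => ?_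
    rw [← map_add]
    congr 1
    split_ifs
    · rfl
    · rw [add_zero]
  map_smul' r c := by
    rw [RingHom.id_apply, Finset.smul_sum]
    refine Finset.sum_congr rfl fun e _ => ?_
    rw [smul_monomial]
    congr 1
    split_ifs
    · rfl
    · rw [smul_zero]

theorem dsPart_coeff (N : Finset (Fin 2 →₀ ℕ)) (b : (Fin 2 →₀ ℕ) → Prop) [DecidablePred b]
    (c : N → K) (e : N) : (dsPart N b c).coeff e = if b e then c e else 0 :=
  ln_sum_coeff (fun e : N => if b e then c e else 0) e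

theorem dsPart_mem (N : Finset (Fin 2 →₀ ℕ)) (b : (Fin 2 →₀ ℕ) → Prop) [DecidablePred b]
    (c : N → K) (e : Fin 2 →₀ ℕ) (he : (dsPart N b c).coeff e ≠ 0) : e ∈ N.filter b := by
  have h : e ∈ N := ln_sum_mem (fun e : N => if b e then c e else 0) e he
  rw [Finset.mem_filter]
  refine ⟨h, ?_⟩
  by_contra hcon
  have h1 := dsPart_coeff N b c ⟨e, h⟩
  rw [if_neg hcon] at h1
  exact he h1

theorem ds_claimB (N : Finset (Fin 2 →₀ ℕ)) (J : ℕ) (k : ℕ → ℕ) (hk : StrictMono k)
    (h0 : k 0 = 0) (hN : ∀ e ∈ N, e 1 < k J) (μ b : Fin s → ℕ) (hb : ∀ i, b i < J)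
    (P : Fin s → Fin 2 → K) :
    Module.finrank K (LinearMap.ker ((dsM N J k μ b P).map
        (Polynomial.evalRingHom (0 : K))).mulVecLin) ≤
    ∑ j ∈ Finset.range J, Module.finrank K (LN (N.filter fun e => k j ≤ e 1 ∧ e 1 < k (j + 1))
      (fun i => if b i = j then μ i else 0) P) := by
  classical
  have hev : ∀ (n : ℕ) (c : K), Polynomial.evalRingHom (0 : K) (Polynomial.X ^ n * Polynomial.C c) =
      if n = 0 then c else 0 := by
    intro n c
    rw [map_mul, map_pow, Polynomial.coe_evalRingHom, Polynomial.eval_X, Polynomial.eval_C]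
    split_ifs with h
    · rw [h, pow_zero, one_mul]
    · rw [zero_pow h, zero_mul]
  have h1 : ∀ j : Fin J, ∀ c ∈ LinearMap.ker ((dsM N J k μ b P).map
        (Polynomial.evalRingHom (0 : K))).mulVecLin,
      dsPart N (fun e => k j ≤ e 1 ∧ e 1 < k (j + 1)) c ∈
        LN (N.filter fun e => k j ≤ e 1 ∧ e 1 < k (j + 1))
          (fun i => if b i = j then μ i else 0) P := by
    intro j c hc
    rw [mem_LN]
    refine ⟨fun e he => dsPart_mem N _ c e he, fun i => ?_⟩
    refine (ShghE.tf_mem_iff _ _ _ _).2 fun x hx => ?_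
    by_cases hij : b i = j
    · rw [if_pos hij] at hx
      rw [LinearMap.mem_ker] at hc
      have h2 := congrFun hc ⟨i, x, by simpa using hx⟩
      have h3 : ((dsM N J k μ b P).map
        (Polynomial.evalRingHom (0 : K))).mulVecLin c ⟨i, x, by simpa using hx⟩ = ∑ e : N,
          (Polynomial.evalRingHom (0 : K)
            (Polynomial.X ^ dsA J k (b i) ((e : Fin 2 →₀ ℕ) 1) *
            Polynomial.C (ShghE.tfM (P i 0) (P i 1) e x))) * c e := rfl
      rw [h3, Pi.zero_apply] at h2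
      have h4 : dsPart N (fun e => k j ≤ e 1 ∧ e 1 < k (j + 1)) c =
          ∑ e : N, monomial (e : Fin 2 →₀ ℕ)
            (if k j ≤ (e : Fin 2 →₀ ℕ) 1 ∧ (e : Fin 2 →₀ ℕ) 1 < k (j + 1) then c e else 0) := rfl
      rw [h4, ShghE.tf_coeff]
      refine (Finset.sum_congr rfl fun e _ => ?_).trans h2
      rw [hev]
      have h5 := ds_zero J k hk h0 (b i) ((e : Fin 2 →₀ ℕ) 1) (hb i) (hN e e.2)
      rw [hij] at h5 ⊢
      by_cases h6 : dsA J k j ((e : Fin 2 →₀ ℕ) 1) = 0
      · rw [if_pos h6, if_pos (h5.1 h6)]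
      · rw [if_neg h6, if_neg (fun h7 => h6 (h5.2 h7)), mul_zero, zero_mul]
    · rw [if_neg hij] at hx
      exact absurd hx (Nat.not_lt_zero _)
  let Ψ : LinearMap.ker ((dsM N J k μ b P).map
        (Polynomial.evalRingHom (0 : K))).mulVecLin →ₗ[K]
      (∀ j : Fin J, LN (N.filter fun e => k j ≤ e 1 ∧ e 1 < k (j + 1))
          (fun i => if b i = j then μ i else 0) P) :=
    LinearMap.pi fun j => ((dsPart N (fun e => k j ≤ e 1 ∧ e 1 < k (j + 1))).domRestrict
      _).codRestrict _ (fun c => h1 j c c.2)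
  have hinj : Function.Injective Ψ := by
    rw [injective_iff_map_eq_zero]
    intro c hc
    apply Subtype.ext
    funext e
    have hex : ∃ j, (e : Fin 2 →₀ ℕ) 1 < k (j + 1) := by
      refine ⟨(e : Fin 2 →₀ ℕ) 1, ?_⟩
      have := hk.id_le ((e : Fin 2 →₀ ℕ) 1 + 1)
      exact this
    let j := Nat.find hex
    have hj1 : (e : Fin 2 →₀ ℕ) 1 < k (j + 1) := Nat.find_spec hex
    have hj2 : k j ≤ (e : Fin 2 →₀ ℕ) 1 := by
      rcases Nat.eq_zero_or_pos j with h | h
      · rw [h, h0]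
        exact Nat.zero_le _
      · have h3 := Nat.find_min hex (m := j - 1) (by change j - 1 < j; omega)
        rw [show j - 1 + 1 = j by omega] at h3
        omega
    have hj3 : j < J := by
      by_contra hcon
      have h4 : k J ≤ k j := hk.monotone (by omega)
      have h5 := hN e e.2
      omega
    have hc1 : dsPart N (fun e => k (⟨j, hj3⟩ : Fin J) ≤ e 1 ∧
        e 1 < k ((⟨j, hj3⟩ : Fin J) + 1)) (c : N → K) = 0 :=
      congrArg Subtype.val (congrFun hc ⟨j, hj3⟩)
    have h2 := dsPart_coeff N (fun e => k (⟨j, hj3⟩ : Fin J) ≤ e 1 ∧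
        e 1 < k ((⟨j, hj3⟩ : Fin J) + 1)) (c : N → K) e
    rw [hc1, coeff_zero, if_pos ⟨hj2, hj1⟩] at h2
    exact h2.symm
  have hf : ∀ j : Fin J, Module.Finite K (LN (N.filter fun e => k j ≤ e 1 ∧ e 1 < k (j + 1))
          (fun i => if b i = j then μ i else 0) P) := fun j => tNClo.1 K _ s _ P
  have h9 := LinearMap.finrank_le_finrank_of_injective hinj
  rw [Module.finrank_pi_fintype] at h9
  rw [Finset.sum_range]
  exact h9

theorem tDS : S_DS.{u} := by
  intro K _ N J k s μ b P hk h0 hN hb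
  change Module.finrank (FractionRing (Polynomial K)) (LN N μ (dsQ J b P)) ≤ _
  have hA := ds_claimA N J k hk μ b hb P
  have hB := ds_claimB N J k hk h0 hN μ b hb P
  have key := ShghT.semib_rank_le (dsM N J k μ b P)
    (algebraMap (Polynomial K) (FractionRing (Polynomial K)))
    (IsFractionRing.injective (Polynomial K) (FractionRing (Polynomial K)))
    (Polynomial.evalRingHom (0 : K))
  have e1 := ShghL.sp_ker_rank ((dsM N J k μ b P).map
    (algebraMap (Polynomial K) (FractionRing (Polynomial K))))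
  have e2 := ShghL.sp_ker_rank ((dsM N J k μ b P).map (Polynomial.evalRingHom (0 : K)))
  refine hA.trans (le_trans ?_ hB)
  omega

end main

end ShghZ
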