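import Pool.Agent.ShghZ.Spec
import Pool.Agent.ShghC.Unit
import Pool.Agent.ShghC.NClo

/-!
# ShghZ/ElT: transformation of a strip into a box, points on a graph
-/

namespace ShghZ

open MvPolynomial ShghJ ShghC

universe u

section

variable {K : Type u} [Field K]

theorem px_add (p q : Polynomial K) : px (p + q) = px p + px q := map_add _ p q

theorem px_sub (p q : Polynomial K) : px (p - q) = px p - px q := map_sub _ p q

theorem px_mul (p q : Polynomial K) : px (p * q) = px p * px q := map_mul _ p q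

theorem px_C (c : K) : px (Polynomial.C c) = C c := by
  unfold px
  rw [Polynomial.aeval_C]
  rfl

theorem px_X : px (Polynomial.X : Polynomial K) = X 0 := by
  unfold px
  rw [Polynomial.aeval_X]

theorem px_eval (p : Polynomial K) (a b : K) : eval ![a, b] (px p) = p.eval a := by
  unfold px
  induction p using Polynomial.induction_on' with
  | add p q hp hq => rw [map_add, map_add, hp, hq, Polynomial.eval_add]
  | monomial n c =>
    rw [Polynomial.aeval_monomial, map_mul, map_pow, eval_X, Polynomial.eval_monomial]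
    congr 1
    exact eval_C c

/-- The factor `(X 0 - x)` of `U - z V`. -/
theorem elt_factor (A Q R : Polynomial K) (x : K) (h : A.eval x * Q.eval x + R.eval x = 0) :
    ∃ D : MvPolynomial (Fin 2) K, (X 1 * px Q + px R) - C (Q.eval x) * (X 1 - px A) =
      (X 0 - C x) * D := by
  have h1 : (Polynomial.X - Polynomial.C x) ∣ (Q - Polynomial.C (Q.eval x)) := by
    rw [Polynomial.dvd_iff_isRoot, Polynomial.IsRoot.def, Polynomial.eval_sub,
      Polynomial.eval_C, sub_self]
  have h2 : (Polynomial.X - Polynomial.C x) ∣ (R + Polynomial.C (Q.eval x) * A) := by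
    rw [Polynomial.dvd_iff_isRoot, Polynomial.IsRoot.def, Polynomial.eval_add,
      Polynomial.eval_mul, Polynomial.eval_C]
    rw [← h]
    ring
  obtain ⟨Q', hQ'⟩ := h1
  obtain ⟨R', hR'⟩ := h2
  have e1 : px Q - C (Q.eval x) = (X 0 - C x) * px Q' := by
    rw [← px_C, ← px_sub, hQ', px_mul, px_sub, px_X, px_C]
  have e2 : px R + C (Q.eval x) * px A = (X 0 - C x) * px R' := by
    rw [← px_C, ← px_mul, ← px_add, hR', px_mul, px_sub, px_X, px_C]
  refine ⟨X 1 * px Q' + px R', ?_⟩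
  linear_combination X 1 * e1 + e2

theorem elt_X0_mem (x a : K) : (X 0 - C x : MvPolynomial (Fin 2) K) ∈ ShghT.pt x a := by
  have := ShghT.semib_mem_pt x a (X 0 - C x) (by simp)
  rwa [pow_one] at this

theorem elt_V_mem (A : Polynomial K) (x : K) :
    (X 1 - px A : MvPolynomial (Fin 2) K) ∈ ShghT.pt x (A.eval x) := by
  have := ShghT.semib_mem_pt x (A.eval x) (X 1 - px A) (by
    rw [map_sub, px_eval, eval_X]
    simp)
  rwa [pow_one] at this

/-- (c): the division of `hmg U V τ f` by a power of `X 0 - x`. -/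
theorem elt_div (h1 : S_HmgT.{u}) (τ ν : ℕ) (hν : ν ≤ τ) (A Q R : Polynomial K) (x : K)
    (h : A.eval x * Q.eval x + R.eval x = 0) (f : MvPolynomial (Fin 2) K)
    (hf : ∀ e, f.coeff e ≠ 0 → e 1 ≤ τ) (hm : f ∈ ShghT.pt x (Q.eval x) ^ ν) :
    ∃ G : MvPolynomial (Fin 2) K, hmg (X 1 * px Q + px R) (X 1 - px A) τ f =
      (X 0 - C x) ^ ν * G ∧ G ∈ ShghT.pt x (A.eval x) ^ (τ - ν) := by
  classical
  obtain ⟨D, hD⟩ := elt_factor A Q R x h
  obtain ⟨h2, h3⟩ := h1 K (X 1 * px Q + px R) (X 1 - px A) τ x (Q.eval x) f hf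
  have h4 : ∀ e ∈ (ShghE.tfShift x (Q.eval x) f).support, ν ≤ e 0 + e 1 := by
    intro e he
    by_contra hcon
    have h5 := (ShghE.tf_mem_iff _ _ _ _).1 hm e (by rw [deg_eq]; omega)
    exact (mem_support_iff.1 he) h5
  refine ⟨∑ e ∈ (ShghE.tfShift x (Q.eval x) f).support,
    C ((ShghE.tfShift x (Q.eval x) f).coeff e) *
      ((X 0 - C x) ^ (e 0 + e 1 - ν) * D ^ e 1 * (X 1 - px A) ^ (τ - e 1)), ?_, ?_⟩
  · rw [h2, Finset.mul_sum]
    refine Finset.sum_congr rfl fun e he => ?_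
    rw [hD, mul_pow]
    have h5 : (X 0 - C x : MvPolynomial (Fin 2) K) ^ e 0 * (X 0 - C x) ^ e 1 =
        (X 0 - C x) ^ ν * (X 0 - C x) ^ (e 0 + e 1 - ν) := by
      rw [← pow_add, ← pow_add]
      congr 1
      have := h4 e he
      omega
    linear_combination (C ((ShghE.tfShift x (Q.eval x) f).coeff e) * D ^ e 1 *
      (X 1 - px A) ^ (τ - e 1)) * h5
  · refine Ideal.sum_mem _ fun e he => ?_
    refine Ideal.mul_mem_left _ _ ?_
    have h5 : (X 0 - C x : MvPolynomial (Fin 2) K) ^ (e 0 + e 1 - ν) * D ^ e 1 *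
        (X 1 - px A) ^ (τ - e 1) = D ^ e 1 * ((X 0 - C x) ^ (e 0 + e 1 - ν) *
        (X 1 - px A) ^ (τ - e 1)) := by ring
    rw [h5]
    refine Ideal.mul_mem_left _ _ ?_
    have h6 : (X 0 - C x : MvPolynomial (Fin 2) K) ^ (e 0 + e 1 - ν) *
        (X 1 - px A) ^ (τ - e 1) ∈
        ShghT.pt x (A.eval x) ^ ((e 0 + e 1 - ν) + (τ - e 1)) := by
      rw [pow_add]
      exact Ideal.mul_mem_mul (Ideal.pow_mem_pow (elt_X0_mem x _) _)
        (Ideal.pow_mem_pow (elt_V_mem A x) _)
    refine Ideal.pow_le_pow_right ?_ h6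
    have := h4 e he
    have := h3 e he
    omega

theorem elt_ne (x : K) : (X 0 - C x : MvPolynomial (Fin 2) K) ≠ 0 := by
  intro h
  have h1 := congrArg (eval ![x + 1, 0]) h
  simp at h1

theorem elt_coprime {x y : K} (h : x ≠ y) :
    IsCoprime (X 0 - C x : MvPolynomial (Fin 2) K) (X 0 - C y) := by
  refine ⟨-C (x - y)⁻¹, C (x - y)⁻¹, ?_⟩
  have h1 : (C (x - y)⁻¹ * C (x - y) : MvPolynomial (Fin 2) K) = 1 := by
    rw [← C_mul, inv_mul_cancel₀ (sub_ne_zero.2 h), C_1]
  rw [C_sub] at h1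
  linear_combination h1

theorem elt_deg0 (x : K) : degreeOf 0 (X 0 - C x : MvPolynomial (Fin 2) K) = 1 := by
  classical
  apply le_antisymm
  · refine (degreeOf_sub_le _ _ _).trans ?_
    rw [degreeOf_X, degreeOf_C]
    simp
  · rw [Nat.one_le_iff_ne_zero]
    intro h
    have h1 := degreeOf_lt_iff (n := (0 : Fin 2)) (f := (X 0 - C x : MvPolynomial (Fin 2) K))
      (d := 1) Nat.one_pos
    rw [h] at h1
    have h2 := h1.1 Nat.one_pos (Finsupp.single 0 1) (by
      rw [mem_support_iff, coeff_sub, coeff_X, coeff_C]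
      have : (0 : Fin 2 →₀ ℕ) ≠ Finsupp.single 0 1 := by
        intro h3
        have := DFunLike.congr_fun h3 0
        simp at this
      simp [this])
    simp at h2

theorem elt_Sf0 {τ L : ℕ} {f : MvPolynomial (Fin 2) K} (h0 : degreeOf 0 f ≤ L)
    (h1 : degreeOf 1 f ≤ τ) (e : Fin 2 →₀ ℕ) (he : f.coeff e ≠ 0) : e ∈ Sf 0 τ L := by
  rw [mem_Sf]
  have h2 := monomial_le_degreeOf 0 (mem_support_iff.2 he)
  have h3 := monomial_le_degreeOf 1 (mem_support_iff.2 he)
  omega

theorem elt_Sf1 {τ L : ℕ} {f : MvPolynomial (Fin 2) K}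
    (h : ∀ e, f.coeff e ≠ 0 → e ∈ Sf 0 τ L) : degreeOf 0 f ≤ L ∧ degreeOf 1 f ≤ τ := by
  constructor
  · rw [degreeOf_le_iff]
    intro e he
    have := mem_Sf.1 (h e (mem_support_iff.1 he))
    omega
  · rw [degreeOf_le_iff]
    intro e he
    exact (mem_Sf.1 (h e (mem_support_iff.1 he))).1

theorem elt_prod_ne {s : ℕ} (ν : Fin s → ℕ) (x : Fin s → K) (S : Finset (Fin s)) :
    (∏ i ∈ S, (X 0 - C (x i)) ^ ν i : MvPolynomial (Fin 2) K) ≠ 0 :=
  Finset.prod_ne_zero_iff.2 fun i _ => pow_ne_zero _ (elt_ne (x i))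

theorem elt_prod_deg {s : ℕ} (ν : Fin s → ℕ) (x : Fin s → K) :
    degreeOf 0 (∏ i, (X 0 - C (x i)) ^ ν i : MvPolynomial (Fin 2) K) = ∑ i, ν i := by
  rw [degreeOf_prod_eq _ _ fun i _ => pow_ne_zero _ (elt_ne (x i))]
  refine Finset.sum_congr rfl fun i _ => ?_
  rw [degreeOf_pow_eq _ _ _ (elt_ne (x i)), elt_deg0, mul_one]

end

theorem tElT (h1 : S_HmgT.{u}) (h2 : S_HmgE.{u}) : S_ElT.{u} := by
  classical
  intro K _ n τ δ β L s ν x A Q R hx hν hA hQ hR hAQR hL
  set U : MvPolynomial (Fin 2) K := X 1 * px Q + px R with hU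
  set V : MvPolynomial (Fin 2) K := X 1 - px A with hV
  set W := LN (Sf 0 τ L) (fun i => τ - ν i) (fun i => ![x i, A.eval (x i)]) with hW
  set Pi : MvPolynomial (Fin 2) K := ∏ i, (X 0 - C (x i)) ^ ν i with hPi
  have hPi0 : Pi ≠ 0 := elt_prod_ne ν x Finset.univ
  have hne : A * Q + R ≠ 0 := by
    rw [hAQR]
    exact Finset.prod_ne_zero_iff.2 fun i _ => Polynomial.X_sub_C_ne_zero (x i)
  have hroot : ∀ i, A.eval (x i) * Q.eval (x i) + R.eval (x i) = 0 := by
    intro i
    have h3 := congrArg (Polynomial.eval (x i)) hAQR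
    rw [Polynomial.eval_add, Polynomial.eval_mul, Polynomial.eval_prod] at h3
    rw [h3]
    refine Finset.prod_eq_zero (Finset.mem_univ i) ?_
    rw [Polynomial.eval_sub, Polynomial.eval_X, Polynomial.eval_C, sub_self]
  have hfinW : Module.Finite K W := tNClo.1 K _ s _ _
  let φ := (hmg U V τ).domRestrict (LN (Sf n τ δ) ν (fun i => ![x i, Q.eval (x i)]))
  have hE : ∀ f ∈ LN (Sf n τ δ) ν (fun i => ![x i, Q.eval (x i)]),
      (∀ e, (hmg U V τ f).coeff e ≠ 0 → e ∈ Sf 0 τ (δ + τ * β)) ∧ (hmg U V τ f = 0 → f = 0) :=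
    fun f hf => h2 K n τ δ β A Q R hA hQ hR hne f (mem_LN.1 hf).1
  have hinj : Function.Injective φ := by
    rw [injective_iff_map_eq_zero]
    intro f hf
    exact Subtype.ext ((hE f f.2).2 hf)
  have hrange : LinearMap.range φ ≤ W.map (LinearMap.mulLeft K Pi) := by
    rintro _ ⟨⟨f, hf⟩, rfl⟩
    change hmg U V τ f ∈ _
    have hf' : ∀ e, f.coeff e ≠ 0 → e 1 ≤ τ := fun e he =>
      (mem_Sf.1 ((mem_LN.1 hf).1 e he)).1
    have hdiv := fun i => elt_div h1 τ (ν i) (hν i) A Q R (x i) (hroot i) f hf'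
      ((mem_LN.1 hf).2 i)
    choose G hG1 hG2 using hdiv
    have hd : Pi ∣ hmg U V τ f := by
      refine Finset.prod_dvd_of_coprime ?_ fun i _ => ⟨G i, hG1 i⟩
      intro i _ j _ hij
      exact (elt_coprime (fun h => hij (hx h))).pow
    obtain ⟨g, hg⟩ := hd
    refine ⟨g, ?_, hg.symm⟩
    change g ∈ W
    rw [hW, mem_LN]
    constructor
    · by_cases hg0 : g = 0
      · intro e he
        rw [hg0, coeff_zero] at he
        exact absurd rfl he
      · have hF := elt_Sf1 (hE f hf).1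
        rw [hg, degreeOf_mul_eq hPi0 hg0, degreeOf_mul_eq hPi0 hg0, elt_prod_deg] at hF
        refine elt_Sf0 ?_ ?_
        · have := hF.1
          have h5 : τ * β = τ * β := rfl
          omega
        · exact (Nat.le_add_left _ _).trans hF.2
    · intro i
      change g ∈ ShghT.pt (x i) (A.eval (x i)) ^ (τ - ν i)
      have h3 : Pi = (X 0 - C (x i)) ^ ν i * ∏ j ∈ Finset.univ.erase i, (X 0 - C (x j)) ^ ν j :=
        (Finset.mul_prod_erase Finset.univ (fun j => (X 0 - C (x j)) ^ ν j)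
          (Finset.mem_univ i)).symm
      refine tUnit K (x i) (A.eval (x i)) (τ - ν i)
        (∏ j ∈ Finset.univ.erase i, (X 0 - C (x j)) ^ ν j) g ?_ ?_
      · rw [map_prod, Finset.prod_ne_zero_iff]
        intro j hj
        rw [map_pow]
        refine pow_ne_zero _ ?_
        have : eval ![x i, A.eval (x i)] (X 0 - C (x j) : MvPolynomial (Fin 2) K) =
            x i - x j := by simp
        rw [this]
        exact sub_ne_zero.2 fun h => (Finset.mem_erase.1 hj).1 (hx h).symm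
      · have h4 : (∏ j ∈ Finset.univ.erase i, (X 0 - C (x j)) ^ ν j) * g = G i := by
          apply mul_left_cancel₀ (pow_ne_zero (ν i) (elt_ne (x i)))
          rw [← mul_assoc, ← h3, ← hg, ← hG1 i]
        rw [h4]
        exact hG2 i
  calc Module.finrank K (LN (Sf n τ δ) ν (fun i => ![x i, Q.eval (x i)]))
      = Module.finrank K (LinearMap.range φ) := (LinearMap.finrank_range_of_inj hinj).symm
    _ ≤ Module.finrank K (W.map (LinearMap.mulLeft K Pi)) := Submodule.finrank_mono hrange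
    _ ≤ Module.finrank K W := Submodule.finrank_map_le _ _

end ShghZ
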