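import Pool.Agent.ShghZ.Spec

/-!
# ShghZ, HmgE: exponents and injectivity of `hmg`
-/

namespace ShghZ

open MvPolynomial ShghJ ShghC ShghK

universe u v w

section

variable {K : Type*} [Field K]

private theorem he_apply (U V : MvPolynomial (Fin 2) K) (τ : ℕ) (f : MvPolynomial (Fin 2) K) :
    hmg U V τ f = ∑ e ∈ f.support, C (f.coeff e) * (X 0 ^ e 0 * U ^ e 1 * V ^ (τ - e 1)) := by
  conv_lhs => rw [f.as_sum, map_sum]
  refine Finset.sum_congr rfl fun e _ => ?_
  have h1 : monomial e (f.coeff e) = f.coeff e • basisMonomials (Fin 2) K e := by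
    rw [coe_basisMonomials, smul_monomial, smul_eq_mul, mul_one]
  rw [h1, map_smul, hmg, Module.Basis.constr_basis, smul_eq_C_mul]

private theorem he_px_deg (p : Polynomial K) :
    degreeOf 0 (px p) ≤ p.natDegree ∧ degreeOf 1 (px p) = 0 := by
  have h : px p = ∑ i ∈ Finset.range (p.natDegree + 1), C (p.coeff i) * X 0 ^ i := by
    rw [px, Polynomial.aeval_eq_sum_range]
    exact Finset.sum_congr rfl fun i _ => smul_eq_C_mul _ _
  constructor
  · rw [h]
    refine (degreeOf_sum_le _ _ _).trans (Finset.sup_le fun i hi => ?_)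
    refine (degreeOf_C_mul_le _ _ _).trans ((degreeOf_pow_le _ _ _).trans ?_)
    rw [degreeOf_X, if_pos rfl, mul_one]
    exact Nat.lt_succ_iff.1 (Finset.mem_range.1 hi)
  · rw [← Nat.le_zero, h]
    refine (degreeOf_sum_le _ _ _).trans (Finset.sup_le fun i hi => ?_)
    refine (degreeOf_C_mul_le _ _ _).trans ((degreeOf_pow_le _ _ _).trans ?_)
    rw [degreeOf_X, if_neg (by decide), mul_zero]

private theorem he_V (A : Polynomial K) (β : ℕ) (hA : A.natDegree ≤ β) :
    degreeOf 0 (X 1 - px A : MvPolynomial (Fin 2) K) ≤ β ∧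
      degreeOf 1 (X 1 - px A : MvPolynomial (Fin 2) K) ≤ 1 := by
  obtain ⟨h1, h2⟩ := he_px_deg A
  constructor
  · refine (degreeOf_sub_le _ _ _).trans (max_le ?_ (h1.trans hA))
    rw [degreeOf_X, if_neg (by decide)]
    exact Nat.zero_le _
  · refine (degreeOf_sub_le _ _ _).trans (max_le ?_ (by rw [h2]; exact Nat.zero_le _))
    rw [degreeOf_X, if_pos rfl]

private theorem he_U (Q R : Polynomial K) (γ : ℕ) (hQ : Q.natDegree ≤ γ) (hR : R.natDegree ≤ γ) :
    degreeOf 0 (X 1 * px Q + px R : MvPolynomial (Fin 2) K) ≤ γ ∧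
      degreeOf 1 (X 1 * px Q + px R : MvPolynomial (Fin 2) K) ≤ 1 := by
  obtain ⟨h1, h2⟩ := he_px_deg Q
  obtain ⟨h3, h4⟩ := he_px_deg R
  constructor
  · refine (degreeOf_add_le _ _ _).trans (max_le ((degreeOf_mul_le _ _ _).trans ?_) (h3.trans hR))
    rw [degreeOf_X, if_neg (by decide), zero_add]
    exact h1.trans hQ
  · refine (degreeOf_add_le _ _ _).trans (max_le ((degreeOf_mul_le _ _ _).trans ?_)
      (by rw [h4]; exact Nat.zero_le _))
    rw [degreeOf_X, if_pos rfl, h2]

private theorem he_aev (A p : Polynomial K) :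
    aeval ![(Polynomial.X : Polynomial K), A] (px p) = p := by
  rw [px, ← Polynomial.aeval_algHom_apply, aeval_X]
  simp

private theorem he_coeff (f : MvPolynomial (Fin 2) K) (k : ℕ) (e₀ : Fin 2 →₀ ℕ)
    (he₀ : e₀ ∈ f.support) (hk : e₀ 1 = k) :
    ∑ e ∈ f.support, (if e 1 = k then Polynomial.C (f.coeff e) * Polynomial.X ^ e 0 else 0) ≠ 0 := by
  intro h
  have h1 := congrArg (fun q => Polynomial.coeff q (e₀ 0)) h
  simp only [Polynomial.finsetSum_coeff, Polynomial.coeff_zero] at h1
  rw [Finset.sum_eq_single e₀] at h1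
  · rw [if_pos hk, Polynomial.coeff_C_mul, Polynomial.coeff_X_pow, if_pos rfl, mul_one] at h1
    exact (mem_support_iff.1 he₀) h1
  · intro e _ hne
    by_cases h2 : e 1 = k
    · rw [if_pos h2, Polynomial.coeff_C_mul, Polynomial.coeff_X_pow, if_neg, mul_zero]
      intro h3
      apply hne
      ext i
      fin_cases i
      · exact h3.symm
      · exact h2.trans hk.symm
    · rw [if_neg h2, Polynomial.coeff_zero]
  · intro h2
    exact absurd he₀ h2

end

theorem tHmgE : S_HmgE.{u} := by
  intro K _ n τ δ β A Q R hA hQ hR hAQ f hf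
  obtain ⟨v0, v1⟩ := he_V A β hA
  obtain ⟨u0, u1⟩ := he_U Q R (β + n) hQ hR
  set U : MvPolynomial (Fin 2) K := X 1 * px Q + px R with hU
  set V : MvPolynomial (Fin 2) K := X 1 - px A with hV
  constructor
  · intro e he
    rw [mem_Sf]
    have hmem : e ∈ (hmg U V τ f).support := mem_support_iff.2 he
    have d0 : degreeOf 0 (hmg U V τ f) ≤ δ + τ * β := by
      rw [he_apply]
      refine (degreeOf_sum_le _ _ _).trans (Finset.sup_le fun x hx => ?_)
      have hx' := mem_Sf.1 (hf x (mem_support_iff.1 hx))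
      refine (degreeOf_C_mul_le _ _ _).trans ((degreeOf_mul_le _ _ _).trans
        ((add_le_add ((degreeOf_mul_le _ _ _).trans (add_le_add
          (degreeOf_pow_le _ _ _) (degreeOf_pow_le _ _ _))) (degreeOf_pow_le _ _ _)).trans ?_))
      rw [degreeOf_X, if_pos rfl]
      obtain ⟨r, hr⟩ : ∃ r, τ = x 1 + r := ⟨τ - x 1, by omega⟩
      have e1 : τ - x 1 = r := by omega
      rw [e1]
      calc x 0 * 1 + x 1 * degreeOf 0 U + r * degreeOf 0 V
          ≤ x 0 * 1 + x 1 * (β + n) + r * β := by gcongr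
        _ = (x 0 + n * x 1) + τ * β := by rw [hr]; ring
        _ ≤ _ := by omega
    have d1 : degreeOf 1 (hmg U V τ f) ≤ τ := by
      rw [he_apply]
      refine (degreeOf_sum_le _ _ _).trans (Finset.sup_le fun x hx => ?_)
      have hx' := mem_Sf.1 (hf x (mem_support_iff.1 hx))
      refine (degreeOf_C_mul_le _ _ _).trans ((degreeOf_mul_le _ _ _).trans
        ((add_le_add ((degreeOf_mul_le _ _ _).trans (add_le_add
          (degreeOf_pow_le _ _ _) (degreeOf_pow_le _ _ _))) (degreeOf_pow_le _ _ _)).trans ?_))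
      rw [degreeOf_X, if_neg (by decide)]
      calc x 0 * 0 + x 1 * degreeOf 1 U + (τ - x 1) * degreeOf 1 V
          ≤ x 0 * 0 + x 1 * 1 + (τ - x 1) * 1 := by gcongr
        _ ≤ τ := by omega
    have c0 := monomial_le_degreeOf 0 hmem
    have c1 := monomial_le_degreeOf 1 hmem
    omega
  · intro h0
    by_contra hf0
    have hne : f.support.Nonempty := support_nonempty.2 hf0
    obtain ⟨e₀, he₀, hmax⟩ := Finset.exists_max_image f.support (fun e => e 1) hne
    set k := e₀ 1 with hk
    have hkτ : k ≤ τ := (mem_Sf.1 (hf e₀ (mem_support_iff.1 he₀))).1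
    have hfac : hmg U V τ f = V ^ (τ - k) * hmg U V k f := by
      rw [he_apply, he_apply, Finset.mul_sum]
      refine Finset.sum_congr rfl fun x hx => ?_
      have h1 : x 1 ≤ k := hmax x hx
      have h2 : τ - x 1 = (τ - k) + (k - x 1) := by omega
      rw [h2, pow_add]
      ring
    have hV0 : V ≠ 0 := by
      intro h
      have h1 := congrArg (coeff (Finsupp.single 1 1)) h
      have h2 : coeff (Finsupp.single (1 : Fin 2) 1) (px A) = 0 := by
        by_contra h3
        have h4 := monomial_le_degreeOf 1 (mem_support_iff.2 h3)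
        rw [(he_px_deg A).2, Finsupp.single_eq_same] at h4
        omega
      rw [hV, coeff_sub, coeff_X, if_pos rfl, h2, coeff_zero, sub_zero] at h1
      exact one_ne_zero h1
    rw [hfac] at h0
    have h1 : hmg U V k f = 0 := (mul_eq_zero.1 h0).resolve_left (pow_ne_zero _ hV0)
    have h2 := congrArg (aeval ![(Polynomial.X : Polynomial K), A]) h1
    rw [map_zero, he_apply, map_sum] at h2
    have hψU : aeval ![(Polynomial.X : Polynomial K), A] U = A * Q + R := by
      rw [hU, map_add, map_mul, aeval_X, he_aev, he_aev]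
      simp
    have hψV : aeval ![(Polynomial.X : Polynomial K), A] V = 0 := by
      rw [hV, map_sub, aeval_X, he_aev]
      simp
    have h3 : ∑ e ∈ f.support, aeval ![(Polynomial.X : Polynomial K), A]
        (C (f.coeff e) * (X 0 ^ e 0 * U ^ e 1 * V ^ (k - e 1))) =
        (∑ e ∈ f.support, (if e 1 = k then Polynomial.C (f.coeff e) * Polynomial.X ^ e 0 else 0)) *
          (A * Q + R) ^ k := by
      rw [Finset.sum_mul]
      refine Finset.sum_congr rfl fun x hx => ?_
      rw [map_mul, map_mul, map_mul, map_pow, map_pow, map_pow, hψU, hψV, aeval_X, algHom_C]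
      by_cases hx1 : x 1 = k
      · rw [if_pos hx1, hx1, Nat.sub_self, pow_zero, mul_one]
        simp only [Matrix.cons_val_zero, Polynomial.algebraMap_eq]
        ring
      · have h4 : x 1 ≤ k := hmax x hx
        rw [if_neg hx1, zero_mul, zero_pow (by omega), mul_zero, mul_zero]
    rw [h3] at h2
    rcases mul_eq_zero.1 h2 with h4 | h4
    · exact he_coeff f k e₀ he₀ rfl h4
    · exact pow_ne_zero k hAQ h4

end ShghZ
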