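import Pool.Agent.ShghZ.Spec

/-!
# ShghZ, HmgT: the value of `hmg` on a Taylor expansion
-/

namespace ShghZ

open MvPolynomial ShghJ ShghC ShghK

universe u

private theorem hmgT_mon {K : Type u} [Field K] (U V : MvPolynomial (Fin 2) K) (τ i l : ℕ)
    (c : K) :
    hmg U V τ (C c * (X 0 ^ i * X 1 ^ l)) = C c * (X 0 ^ i * U ^ l * V ^ (τ - l)) := by
  have h1 : (X 0 ^ i * X 1 ^ l : MvPolynomial (Fin 2) K) = basisMonomials (Fin 2) K (ex i l) := by
    rw [coe_basisMonomials, X_pow_eq_monomial, X_pow_eq_monomial, monomial_mul, mul_one]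
    rfl
  rw [← smul_eq_C_mul, map_smul, h1, smul_eq_C_mul]
  congr 1
  unfold hmg
  rw [Module.Basis.constr_basis, ex_zero, ex_one]

private theorem hmgT_term {K : Type u} [Field K] (U V : MvPolynomial (Fin 2) K) (τ i j : ℕ)
    (a b : K) (hj : j ≤ τ) :
    hmg U V τ ((X 0 + C a) ^ i * (X 1 + C b) ^ j) =
      (X 0 + C a) ^ i * (U + C b * V) ^ j * V ^ (τ - j) := by
  have h1 : ((X 0 + C a) ^ i * (X 1 + C b) ^ j : MvPolynomial (Fin 2) K) =
      ∑ m ∈ Finset.range (i + 1), ∑ l ∈ Finset.range (j + 1),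
        C (a ^ (i - m) * (i.choose m : K) * (b ^ (j - l) * (j.choose l : K))) *
          (X 0 ^ m * X 1 ^ l) := by
    rw [add_pow, add_pow, Finset.sum_mul_sum]
    refine Finset.sum_congr rfl fun m _ => Finset.sum_congr rfl fun l _ => ?_
    simp only [map_mul, map_pow, map_natCast]
    ring
  have h2 : ((X 0 + C a) ^ i * (U + C b * V) ^ j * V ^ (τ - j) : MvPolynomial (Fin 2) K) =
      ∑ m ∈ Finset.range (i + 1), ∑ l ∈ Finset.range (j + 1),
        C (a ^ (i - m) * (i.choose m : K) * (b ^ (j - l) * (j.choose l : K))) *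
          (X 0 ^ m * U ^ l * V ^ (τ - l)) := by
    rw [add_pow, add_pow, Finset.sum_mul_sum, Finset.sum_mul]
    refine Finset.sum_congr rfl fun m _ => ?_
    rw [Finset.sum_mul]
    refine Finset.sum_congr rfl fun l hl => ?_
    have hl' : l ≤ j := by
      have := Finset.mem_range.mp hl
      omega
    have h3 : V ^ (τ - l) = V ^ (j - l) * V ^ (τ - j) := by
      rw [← pow_add]
      congr 1
      omega
    rw [h3, mul_pow]
    simp only [map_mul, map_pow, map_natCast]
    ring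
  rw [h1, h2, map_sum]
  refine Finset.sum_congr rfl fun m _ => ?_
  rw [map_sum]
  exact Finset.sum_congr rfl fun l _ => hmgT_mon U V τ m l _

private theorem hmgT_shift {K : Type u} [Field K] (a b : K) (f : MvPolynomial (Fin 2) K) :
    ShghE.tfShift a b f = ∑ e ∈ f.support, C (f.coeff e) *
      ((X 0 + C a) ^ e 0 * (X 1 + C b) ^ e 1) := by
  conv_lhs => rw [← support_sum_monomial_coeff f]
  rw [map_sum]
  refine Finset.sum_congr rfl fun e _ => ?_
  have h1 : monomial e (f.coeff e) = C (f.coeff e) * (X 0 ^ e 0 * X 1 ^ e 1) := by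
    rw [X_pow_eq_monomial, X_pow_eq_monomial, monomial_mul, mul_one, C_mul_monomial, mul_one]
    exact congrArg (fun t : Fin 2 →₀ ℕ => (monomial t (f.coeff e) : MvPolynomial (Fin 2) K))
      (ex_eta e).symm
  rw [h1, map_mul, map_mul, map_pow, map_pow, ShghE.tfShift_X0, ShghE.tfShift_X1,
    ShghE.tfShift_C]

private theorem hmgT_deg {K : Type u} [Field K] (a b : K) (τ : ℕ) (f : MvPolynomial (Fin 2) K)
    (hf : ∀ e, f.coeff e ≠ 0 → e 1 ≤ τ) :
    ∀ e ∈ (ShghE.tfShift a b f).support, e 1 ≤ τ := by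
  have h0 : degreeOf 1 (ShghE.tfShift a b f) ≤ τ := by
    rw [hmgT_shift]
    refine (degreeOf_sum_le _ _ _).trans (Finset.sup_le fun e he => ?_)
    have he' := hf e (mem_support_iff.mp he)
    have h1 : degreeOf 1 (C (f.coeff e) * ((X 0 + C a) ^ e 0 * (X 1 + C b) ^ e 1) :
        MvPolynomial (Fin 2) K) ≤ 0 + (e 0 * 0 + e 1 * 1) := by
      refine (degreeOf_mul_le _ _ _).trans (Nat.add_le_add ?_ ?_)
      · rw [degreeOf_C]
      · refine (degreeOf_mul_le _ _ _).trans (Nat.add_le_add ?_ ?_)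
        · refine (degreeOf_pow_le _ _ _).trans (Nat.mul_le_mul_left _ ?_)
          refine (degreeOf_add_le _ _ _).trans (max_le ?_ ?_)
          · rw [degreeOf_X_of_ne (by decide)]
          · rw [degreeOf_C]
        · refine (degreeOf_pow_le _ _ _).trans (Nat.mul_le_mul_left _ ?_)
          refine (degreeOf_add_le _ _ _).trans (max_le ?_ ?_)
          · rw [degreeOf_X_self]
          · rw [degreeOf_C]
            exact Nat.zero_le _
    omega
  intro e he
  exact (monomial_le_degreeOf 1 he).trans h0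

theorem tHmgT : S_HmgT.{u} := by
  intro K _ U V τ x z f hf
  have h1 := hmgT_deg x z τ f hf
  refine ⟨?_, h1⟩
  have h2 : f = ∑ e ∈ (ShghE.tfShift x z f).support, C ((ShghE.tfShift x z f).coeff e) *
      ((X 0 + C (-x)) ^ e 0 * (X 1 + C (-z)) ^ e 1) := by
    rw [← hmgT_shift, ShghE.tfShift_neg]
  have h3 : hmg U V τ f = hmg U V τ (∑ e ∈ (ShghE.tfShift x z f).support,
      C ((ShghE.tfShift x z f).coeff e) * ((X 0 + C (-x)) ^ e 0 * (X 1 + C (-z)) ^ e 1)) :=
    congrArg _ h2
  rw [h3, map_sum]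
  refine Finset.sum_congr rfl fun e he => ?_
  rw [← smul_eq_C_mul, map_smul, smul_eq_C_mul, hmgT_term U V τ _ _ _ _ (h1 e he)]
  rw [C_neg, C_neg, ← sub_eq_add_neg, neg_mul, ← sub_eq_add_neg]

end ShghZ
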