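import Pool.Agent.ShghZ.Spec
import Pool.Agent.ShghC.NInv
import Pool.Agent.ShghC.Elm1
import Pool.Agent.ShghJ.Geo

/-!
# ShghZ, Strip: the strip lemma
-/

namespace ShghZ

open MvPolynomial ShghJ ShghC ShghK

universe u v w

private theorem st_rep {s : ℕ} (m : ℕ) :
    Finset.univ.val.map (fun _ : Fin s => m) = Multiset.replicate s m := by
  rw [Multiset.map_const', Finset.card_val, Finset.card_univ, Fintype.card_fin]

/-- The space of one block. -/
private theorem st_block (F : Type u) [Field F] {J : ℕ} (c : Fin J → ℕ) (N : Finset (Fin 2 →₀ ℕ))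
    (μ : ℕ) (j : Fin J) :
    Module.finrank (UF F) (LN N
      (fun i : Fin (∑ j, c j) => if ((finSigmaFinEquiv.symm i).1 : ℕ) = j then μ else 0)
      (fun i => up F ((finSigmaFinEquiv.symm i).2 : ℕ))) =
    hN F N (Multiset.replicate (c j) μ) := by
  have h1 := tNInv tNSemi tNSemi F (UF F) N (c j) (fun _ => μ) (fun l => up F l)
    (geo_algInd F (fun l : Fin (c j) => (l : ℕ)) Fin.val_injective)
  rw [st_rep] at h1
  have h2 : LN N
      (fun i : Fin (∑ j, c j) => if ((finSigmaFinEquiv.symm i).1 : ℕ) = j then μ else 0)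
      (fun i => up F ((finSigmaFinEquiv.symm i).2 : ℕ)) =
      LN N (fun _ : Fin (c j) => μ) (fun l => up F l) := by
    ext f
    rw [mem_LN, mem_LN]
    refine and_congr_right fun _ => ⟨fun h l => ?_, fun h i => ?_⟩
    · have h3 := h (finSigmaFinEquiv ⟨j, l⟩)
      rw [Equiv.symm_apply_apply, if_pos rfl] at h3
      exact h3
    · by_cases hj : ((finSigmaFinEquiv.symm i).1 : ℕ) = j
      · rw [if_pos hj]
        have hj' : (finSigmaFinEquiv.symm i).1 = j := Fin.ext hj
        have h4 := h (Fin.cast (congrArg c hj') (finSigmaFinEquiv.symm i).2)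
        simpa using h4
      · rw [if_neg hj, pow_zero, Ideal.one_eq_top]
        exact Submodule.mem_top
  rw [← h1, h2]

theorem tStrip (h1 : S_StripB.{u}) (h2 : S_DS.{u}) (h3 : S_Shift.{u}) : S_Strip.{u} := by
  intro F _ n δ m μ β L J R c hR hc hs hJ hL
  have hσ : ∀ i : Fin (∑ j, c j), ((finSigmaFinEquiv.symm i).2 : ℕ) < β := fun i =>
    lt_of_lt_of_le (finSigmaFinEquiv.symm i).2.2 (hc _)
  have hup : ∀ l l' : ℕ, up F l 0 = up F l' 0 → l = l' := by
    intro l l' h
    by_contra hne
    have hI := (geo_algInd F (fun i : Fin (max l l' + 1) => (i : ℕ)) Fin.val_injective).injective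
    have h4 : ((⟨l, by omega⟩ : Fin (max l l' + 1)), (0 : Fin 2)) = (⟨l', by omega⟩, 0) := hI h
    exact hne (Fin.mk.inj (Prod.mk.inj h4).1)
  set E := FractionRing (Polynomial (UF F)) with hE
  have hι : Function.Injective (algebraMap (Polynomial (UF F)) E) :=
    IsFractionRing.injective (Polynomial (UF F)) E
  have k1 := h1 F E n (m + μ) δ β L (∑ j, c j) (fun _ => m)
    (fun l => algebraMap (UF F) E (up F l 0))
    (fun i => ⟨((finSigmaFinEquiv.symm i).2 : ℕ), hσ i⟩)
    (fun i => algebraMap (Polynomial (UF F)) E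
      (Polynomial.X ^ (2 * (J - 1 - ((finSigmaFinEquiv.symm i).1 : ℕ))) *
        Polynomial.C (up F ((finSigmaFinEquiv.symm i).2 : ℕ) 1)))
    (fun l l' h => Fin.ext (hup l l' ((algebraMap (UF F) E).injective h)))
    (by
      intro i j hij hy
      have e1 : ((finSigmaFinEquiv.symm i).2 : ℕ) = (finSigmaFinEquiv.symm j).2 := Fin.mk.inj hij
      have e2 := hι hy
      rw [e1] at e2
      have e3 := mul_right_cancel₀ (Polynomial.C_ne_zero.2 (elm_up_ne F _ 1)) e2
      have e4 := congrArg Polynomial.natDegree e3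
      rw [Polynomial.natDegree_X_pow, Polynomial.natDegree_X_pow] at e4
      have g1 := (finSigmaFinEquiv.symm i).1.2
      have g2 := (finSigmaFinEquiv.symm j).1.2
      have e5 : (finSigmaFinEquiv.symm i).1 = (finSigmaFinEquiv.symm j).1 := Fin.ext (by omega)
      apply finSigmaFinEquiv.symm.injective
      refine Sigma.ext e5 ?_
      rw [Fin.heq_ext_iff (congrArg c e5)]
      exact e1)
    hs (fun _ => Nat.le_add_right _ _)
    (by
      rw [Finset.sum_const, Finset.card_univ, Fintype.card_fin, smul_eq_mul, hs]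
      exact hL)
  rw [st_rep] at k1
  rw [← hs]
  set Rn : ℕ → ℕ := fun i => if h : i < J then R ⟨i, h⟩ else 1 with hRn
  have hRn1 : ∀ i, 1 ≤ Rn i := by
    intro i
    simp only [hRn]
    split_ifs with h
    · exact hR _
    · exact le_rfl
  have hRnJ : ∀ j : Fin J, Rn j = R j := fun j => by
    simp only [hRn]
    rw [dif_pos j.2]
  set k : ℕ → ℕ := fun j => ∑ i ∈ Finset.range j, Rn i with hk
  have hks : ∀ j, k (j + 1) = k j + Rn j := fun j => Finset.sum_range_succ _ _
  have k2 := h2 (UF F) (Sf 0 (m + μ) L) J k (∑ j, c j) (fun _ => μ)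
    (fun i => ((finSigmaFinEquiv.symm i).1 : ℕ))
    (fun i => up F ((finSigmaFinEquiv.symm i).2 : ℕ))
    (strictMono_nat_of_lt_succ fun j => by rw [hks]; exact Nat.lt_add_of_pos_right (hRn1 j))
    (by rw [hk]; exact Finset.sum_range_zero _)
    (by
      intro e he
      have e1 := (mem_Sf.1 he).1
      have e2 : k J = ∑ j, R j := by
        rw [hk]
        change ∑ i ∈ Finset.range J, Rn i = _
        rw [Finset.sum_range]
        exact Finset.sum_congr rfl fun j _ => hRnJ j
      omega)
    (fun i => (finSigmaFinEquiv.symm i).1.2)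
  have k3 : ∑ j ∈ Finset.range J, Module.finrank (UF F)
      (LN ((Sf 0 (m + μ) L).filter fun e => k j ≤ e 1 ∧ e 1 < k (j + 1))
      (fun i : Fin (∑ j, c j) => if ((finSigmaFinEquiv.symm i).1 : ℕ) = j then μ else 0)
      (fun i => up F ((finSigmaFinEquiv.symm i).2 : ℕ))) ≤
      ∑ j, hN F (Sf 0 (R j - 1) L) (Multiset.replicate (c j) μ) := by
    rw [Finset.sum_range]
    refine Finset.sum_le_sum fun j _ => ?_
    rw [hks, ← st_block F c _ μ j, ← hRnJ j]
    exact h3 (UF F) (m + μ) L (k j) (Rn j) (∑ j, c j) _ _ (fun i => elm_up_ne F _ 1) (hRn1 j)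
  have e0 : (fun _ : Fin (∑ j, c j) => m + μ - m) = fun _ => μ := by
    funext _
    omega
  rw [e0] at k1
  exact k1.trans (k2.trans k3)

end ShghZ
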