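import Pool.Agent.ShghZ.Spec
import Pool.Agent.ShghC.NInv
import Pool.Agent.ShghJ.Geo

/-!
# ShghZ, StripB: degeneration of the graph to fibres
-/

namespace ShghZ

open MvPolynomial ShghJ ShghC ShghK

universe u v w

section

variable {K : Type u} [Field K]

private noncomputable def sb_D {β : ℕ} (x : Fin β → K) (c : Fin β) : K :=
  ∏ c' ∈ Finset.univ.erase c, (x c - x c')

private theorem sb_D_ne {β : ℕ} {x : Fin β → K} (hx : Function.Injective x) (c : Fin β) :
    sb_D x c ≠ 0 := by
  rw [sb_D, Finset.prod_ne_zero_iff]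
  intro c' hc'
  exact sub_ne_zero.2 fun h => (Finset.mem_erase.1 hc').1 (hx h).symm

/-- The first coordinates. -/
private noncomputable def sb_x (a ξ : K) : Polynomial K :=
  Polynomial.C a + Polynomial.X * Polynomial.C ξ

/-- The second coordinates. -/
private noncomputable def sb_a {β : ℕ} (x : Fin β → K) (c : Fin β) (ξ : K) : Polynomial K :=
  Polynomial.C ξ * ∏ c' ∈ Finset.univ.erase c, (sb_x (x c) ξ - Polynomial.C (x c'))

private theorem sb_x_inj {a ξ a' ξ' : K} (h : sb_x a ξ = sb_x a' ξ') : a = a' ∧ ξ = ξ' := by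
  constructor
  · have h1 := congrArg (Polynomial.eval 0) h
    simpa [sb_x] using h1
  · have h1 := congrArg (fun q => Polynomial.coeff q 1) h
    simpa [sb_x, Polynomial.coeff_C] using h1

private theorem sb_x_eval (a ξ : K) : (sb_x a ξ).eval 0 = a := by
  simp [sb_x]

private theorem sb_a_eval {β : ℕ} (x : Fin β → K) (c : Fin β) (ξ : K) :
    (sb_a x c ξ).eval 0 = ξ * sb_D x c := by
  rw [sb_a, sb_D, Polynomial.eval_mul, Polynomial.eval_C, Polynomial.eval_prod]
  congr 1
  refine Finset.prod_congr rfl fun c' _ => ?_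
  rw [Polynomial.eval_sub, sb_x_eval, Polynomial.eval_C]

/-- The value of the product over the fibres. -/
private theorem sb_prod {β : ℕ} (x : Fin β → K) (c : Fin β) (ξ : K) :
    ∏ c', (sb_x (x c) ξ - Polynomial.C (x c')) = Polynomial.X * sb_a x c ξ := by
  rw [← Finset.mul_prod_erase Finset.univ _ (Finset.mem_univ c), sb_a, ← mul_assoc]
  congr 1
  rw [sb_x]
  ring

end

theorem tStripB (h1 : S_ElT.{u}) : S_StripB.{u} := by
  intro F K _ _ _ n τ δ β L s ν x c y hx hxy hs hν hL
  classical
  let E := FractionRing (Polynomial K)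
  let ι : Polynomial K →+* E := algebraMap (Polynomial K) E
  have hι : Function.Injective ι := IsFractionRing.injective (Polynomial K) E
  set ξ : Fin s → K := fun i => y i / sb_D x (c i) with hξ
  set x' : Fin s → E := fun i => ι (sb_x (x (c i)) (ξ i)) with hx'
  have hx'inj : Function.Injective x' := by
    intro i j hij
    obtain ⟨e1, e2⟩ := sb_x_inj (hι hij)
    have e3 := hx e1
    refine hxy i j e3 ?_
    simp only [hξ] at e2
    rw [e3] at e2
    exact (div_left_inj' (sb_D_ne hx (c j))).1 e2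
  set t : E := ι Polynomial.X with ht
  have ht0 : t ≠ 0 := fun h => Polynomial.X_ne_zero (hι (h.trans (map_zero ι).symm))
  set A0 : Polynomial E := ∏ l, (Polynomial.X - Polynomial.C (ι (Polynomial.C (x l)))) with hA0
  set π : Polynomial E := ∏ i, (Polynomial.X - Polynomial.C (x' i)) with hπ
  have hA0m : A0.Monic := Polynomial.monic_prod_X_sub_C _ _
  have hA0d : A0.natDegree = β := by
    rw [hA0, Polynomial.natDegree_finsetProd_X_sub_C_eq_card, Finset.card_univ, Fintype.card_fin]
  have hπd : π.natDegree = s := by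
    rw [hπ, Polynomial.natDegree_finsetProd_X_sub_C_eq_card, Finset.card_univ, Fintype.card_fin]
  have hA : (Polynomial.C t⁻¹ * A0).natDegree ≤ β :=
    (Polynomial.natDegree_C_mul_le _ _).trans hA0d.le
  have hQ : (Polynomial.C t * (π /ₘ A0)).natDegree ≤ β + n := by
    refine (Polynomial.natDegree_C_mul_le _ _).trans ?_
    rw [Polynomial.natDegree_divByMonic _ hA0m, hA0d, hπd]
    omega
  have hR : (π %ₘ A0).natDegree ≤ β + n := by
    refine (Polynomial.natDegree_modByMonic_le _ hA0m).trans ?_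
    rw [hA0d]
    omega
  have hAQR : Polynomial.C t⁻¹ * A0 * (Polynomial.C t * (π /ₘ A0)) + π %ₘ A0 = π := by
    have e1 : Polynomial.C t⁻¹ * A0 * (Polynomial.C t * (π /ₘ A0)) =
        (Polynomial.C t⁻¹ * Polynomial.C t) * (A0 * (π /ₘ A0)) := by ring
    rw [e1, ← Polynomial.C_mul, inv_mul_cancel₀ ht0, Polynomial.C_1, one_mul, add_comm]
    exact Polynomial.modByMonic_add_div _ _
  have k1 := h1 E n τ δ β L s ν x' (Polynomial.C t⁻¹ * A0) (Polynomial.C t * (π /ₘ A0)) (π %ₘ A0)
    hx'inj hν hA hQ hR hAQR hL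
  have k0 : hN F (Sf n τ δ) (Finset.univ.val.map ν) ≤
      Module.finrank E (LN (Sf n τ δ) ν
        (fun i => ![x' i, (Polynomial.C t * (π /ₘ A0)).eval (x' i)])) := by
    have hI := geo_algInd F (fun i : Fin s => (i : ℕ)) Fin.val_injective
    rw [← tNInv tNSemi tNSemi F (UF F) (Sf n τ δ) s ν (fun i => up F i) hI]
    exact tNSemi F (UF F) E (Sf n τ δ) s ν (fun i => up F i) hI _
  have k2 := semiR ι hι (Polynomial.evalRingHom (0 : K)) (Sf 0 τ L) (fun i => τ - ν i)
    (fun i : Fin s => ![sb_x (x (c i)) (ξ i), sb_a x (c i) (ξ i)])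
  have e1 : (fun (i : Fin s) (l : Fin 2) =>
      ι ((![sb_x (x (c i)) (ξ i), sb_a x (c i) (ξ i)] : Fin 2 → Polynomial K) l)) =
      fun i => ![x' i, (Polynomial.C t⁻¹ * A0).eval (x' i)] := by
    funext i l
    fin_cases l
    · rfl
    · change ι (sb_a x (c i) (ξ i)) = (Polynomial.C t⁻¹ * A0).eval (x' i)
      rw [Polynomial.eval_mul, Polynomial.eval_C, hA0, Polynomial.eval_prod]
      have e2 : ∏ l, Polynomial.eval (x' i) (Polynomial.X - Polynomial.C (ι (Polynomial.C (x l)))) =
          ι (∏ l, (sb_x (x (c i)) (ξ i) - Polynomial.C (x l))) := by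
        rw [map_prod]
        refine Finset.prod_congr rfl fun l _ => ?_
        rw [Polynomial.eval_sub, Polynomial.eval_X, Polynomial.eval_C, map_sub]
      rw [e2, sb_prod, map_mul, ← mul_assoc]
      change _ = t⁻¹ * t * _
      rw [inv_mul_cancel₀ ht0, one_mul]
  have e3 : (fun (i : Fin s) (l : Fin 2) => Polynomial.evalRingHom (0 : K)
      ((![sb_x (x (c i)) (ξ i), sb_a x (c i) (ξ i)] : Fin 2 → Polynomial K) l)) =
      fun i => ![x (c i), y i] := by
    funext i l
    fin_cases l
    · exact sb_x_eval _ _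
    · change (sb_a x (c i) (ξ i)).eval 0 = y i
      rw [sb_a_eval, hξ]
      exact div_mul_cancel₀ _ (sb_D_ne hx (c i))
  rw [e1, e3] at k2
  exact k0.trans (k1.trans k2)

end ShghZ
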