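import Pool.Agent.ShghZ.Spec

/-!
ShghZ, BlockWin (helper36): windows of a block.
-/

namespace ShghZ

open MvPolynomial ShghJ ShghC ShghK

universe u

private theorem blockwin_TT (n m : ℕ) : TT (Multiset.replicate n m) = n * T m := by
  simp [TT]

private theorem blockwin_T (m : ℕ) : (2 : ℤ) * (T m : ℤ) = m * (m + 1) := by
  have h : 2 * T m = m * (m + 1) := by
    unfold T
    exact Nat.mul_div_cancel' (Nat.even_mul_succ_self m).two_dvd
  exact_mod_cast h

theorem tBlockWin (h1 : S_EvenPeel.{u}) (h2 : S_BoxWin.{u}) : S_BlockWin.{u} := by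
  intro F _ _ μ μ' i L L' W h0 hm hL h3 hW
  have e0 : μ + μ' - μ = μ' := Nat.add_sub_cancel_left μ μ'
  have a1 := h1 F (μ + μ') μ i L L' 0 (Nat.le_add_right _ _) (by omega) (by rw [e0]; exact hL)
  rw [e0, add_zero, add_zero] at a1
  have a2 := h2 F μ' L' (μ + μ') W (Multiset.replicate (2 * i) μ') h0
    (fun x hx => (Multiset.eq_of_mem_replicate hx).le) h3 (by omega) hW
  rw [blockwin_TT] at a2
  have e1 : (((μ + μ' : ℕ) : ℤ) + 1) * ((L' : ℤ) + 1) - ((2 * i * T μ' : ℕ) : ℤ) =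
      ((μ : ℤ) + μ' + 1) * (L + 1) - i * (μ * (μ + 1)) := by
    have hT := blockwin_T μ'
    have hLz : (L' : ℤ) + i * μ = L + i * μ' := by exact_mod_cast hL
    push_cast
    linear_combination ((μ : ℤ) + μ' + 1) * hLz - (i : ℤ) * hT
  rw [e1] at a2
  exact le_trans (by exact_mod_cast a1) a2

end ShghZ
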