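import Pool.Agent.ShghZ.CapZ

/-!
# The conditions fit into the columns if `D² ≥ (K · D)²`, remaining cases
-/

namespace ShghT

/-- One multiplicity larger than `2 e`. -/
theorem capB (e : ℕ) (he : 3 ≤ e) {r : ℕ} (m : Fin r → ℕ) (i1 : Fin r) {r' q : ℕ}
    (hq : m i1 = 2 * e + q) (hr2 : r' + 1 ≤ e) (hN : ∑ i, m i = 2 * e + r') :
    ∃ (p : Fin r → ℤ) (σ : Fin r → Bool),
      (∀ i, 0 < circ e (p i) (σ i) ∧ circ e (p i) (σ i) < 4 * e) ∧
      ∀ ρ < e, ∑ i, Nr e (m i) (p i) (σ i) ρ ≤ 2 * e + 2 * q + r' + 1 := by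
  classical
  set m' : Fin r → ℕ := Function.update m i1 q with hm'
  have hm1 : m' i1 = q := Function.update_self _ _ _
  have hm2 : ∀ i, i ≠ i1 → m' i = m i := fun i hi => Function.update_of_ne hi _ _
  have hN' : ∑ i, m' i = r' := by
    rw [← Finset.add_sum_erase _ (fun i => m i) (Finset.mem_univ i1)] at hN
    rw [← Finset.add_sum_erase _ (fun i => m' i) (Finset.mem_univ i1)]
    rw [hm1, Finset.sum_congr rfl (g := fun i => m i)
      fun i hi => hm2 i (Finset.ne_of_mem_erase hi)]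
    omega
  set S : Finset (Fin r) := Finset.univ.filter fun i => 0 < m' i with hS
  have hSN : ∑ i ∈ S, m' i = r' := by
    rw [← hN', hS, Finset.sum_filter]
    refine Finset.sum_congr rfl fun i _ => ?_
    split_ifs <;> omega
  have hS1 : ∑ i ∈ S, (m' i + 1) ≤ 2 * r' := by
    rw [← hSN, Finset.mul_sum]
    refine Finset.sum_le_sum fun i hi => ?_
    have := (Finset.mem_filter.1 hi).2
    omega
  have hle : ∀ i ∈ S, m' i ≤ r' := by
    intro i hi
    rw [← hSN]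
    exact Finset.single_le_sum (f := m') (fun _ _ => Nat.zero_le _) hi
  have hsup : S.sup m' ≤ r' := Finset.sup_le hle
  obtain ⟨p, σ, hps, hc⟩ := placeA e (by omega) m' S 1 le_rfl r' hsup (fun i hi i' _ _ => by
    have := hle i hi
    omega) (by omega) (by omega)
  refine ⟨p, σ, hps, fun ρ hρ => ?_⟩
  have h1 := hc ρ hρ
  have h2 : ∑ i ∈ S, Nr e (m' i) (p i) (σ i) ρ = ∑ i, Nr e (m' i) (p i) (σ i) ρ := by
    refine Finset.sum_subset (Finset.subset_univ _) fun i _ hi => ?_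
    have h0 : m' i = 0 := by
      by_contra h
      exact hi (Finset.mem_filter.2 ⟨Finset.mem_univ _, Nat.pos_of_ne_zero h⟩)
    rw [h0]
    have hz := Nr_sum e (by omega) 0 (p i) (σ i)
    have h3 := Finset.sum_eq_zero_iff.1 (hz.trans (by rfl)) ρ (Finset.mem_range.2 hρ)
    exact h3
  rw [h2] at h1
  rw [← Finset.add_sum_erase _ (fun i => Nr e (m' i) (p i) (σ i) ρ) (Finset.mem_univ i1)] at h1
  rw [← Finset.add_sum_erase _ (fun i => Nr e (m i) (p i) (σ i) ρ) (Finset.mem_univ i1)]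
  rw [hm1, Finset.sum_congr rfl (g := fun i => Nr e (m i) (p i) (σ i) ρ)
    fun i hi => by rw [hm2 i (Finset.ne_of_mem_erase hi)]] at h1
  rw [hq, show 2 * e + q = q + 2 * e by ring, Nr_add e (by omega) q (p i1) (σ i1) ρ hρ]
  omega

theorem two_cnd {r : ℕ} (m : Fin r → ℕ) : 2 * cnd m = ∑ i, m i * m i + ∑ i, m i := by
  rw [cnd, Finset.mul_sum, ← Finset.sum_add_distrib]
  refine Finset.sum_congr rfl fun i _ => ?_
  rw [Nat.choose_two_right, Nat.mul_div_cancel' (Nat.even_mul_pred_self _).two_dvd,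
    Nat.add_sub_cancel]
  ring

/-- The conditions fit into the columns if `D² ≥ (K · D)²`, except for pencils. -/
theorem capNP {δ : ℕ} {M : Fin 9 → ℕ} {e : ℕ} (hstd : Std δ M e) (he : 3 ≤ e)
    (hne : δ ≠ M 0 + 2 * M 8) {r : ℕ} (m : Fin r → ℕ) (hmM : ∀ i, m i ≤ M 8)
    {r' : ℕ} (hr1 : 1 ≤ r') (hN : ∑ i, m i = 2 * e + r')
    (hD : ∑ i, m i * m i + (e + r') * (e + r') + e + 2 ≤
      2 * ∑ x ∈ Finset.range e, Qd δ M e x) :
    ∃ (p : Fin r → ℤ) (σ : Fin r → Bool),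
      (∀ i, 0 < circ e (p i) (σ i) ∧ circ e (p i) (σ i) < 4 * e) ∧
      ∀ ρ < e, ∑ i, Nr e (m i) (p i) (σ i) ρ ≤ Qd δ M e ρ := by
  classical
  obtain ⟨A, hA⟩ : ∃ A, Dg δ M e 0 = M 8 + A :=
    ⟨Dg δ M e 0 - M 8, by have := min_le_Dg hstd (Nat.zero_le e); omega⟩
  have hS := sum_Qd_le hstd (by omega) hA
  have hAe := Dg_top hstd (Nat.zero_le e)
  have h6 : hm e 0 = 0 := by unfold hm; omega
  rw [h6] at hS hAe
  rw [hA] at hAe
  set SQ := ∑ x ∈ Finset.range e, Qd δ M e x with hSQ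
  have hA3 : (A : ℤ) ≤ e := by
    have : A ≤ e := by omega
    exact_mod_cast this
  have hSz : 2 * (SQ : ℤ) + A * A ≤ 2 * e * (M 8 + 1) + 2 * A * e + A + 4 * 0 ^ 2 := by
    exact_mod_cast hS
  have hS2 : 2 * (SQ : ℤ) ≤ 2 * e * (M 8 + 1) + e * e + e := by
    have h7 := mul_self_nonneg ((e : ℤ) - A)
    linarith
  rcases Nat.lt_or_ge r' e with hr2 | hr2
  · by_cases hm2 : ∀ i, m i ≤ 2 * e
    · exact capA hstd he hne m hmM hm2 hr1 hr2 hN hD
    · push Not at hm2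
      obtain ⟨i1, hi1⟩ := hm2
      obtain ⟨q, hq⟩ : ∃ q, m i1 = 2 * e + q := ⟨m i1 - 2 * e, by omega⟩
      obtain ⟨p, σ, hps, hc⟩ := capB e he m i1 hq hr2 hN
      refine ⟨p, σ, hps, fun ρ hρ => (hc ρ hρ).trans (le_trans ?_ (Qd_ge_succ hstd hne hρ))⟩
      rw [← Finset.add_sum_erase _ (fun i => m i * m i) (Finset.mem_univ i1), hq] at hD
      set R2 := ∑ i ∈ Finset.univ.erase i1, m i * m i
      have hDz : (2 * e + q : ℤ) * (2 * e + q) + R2 + (e + r') * (e + r') + e + 2 ≤ 2 * SQ := by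
        exact_mod_cast hD
      have hR0 : (0 : ℤ) ≤ R2 := by positivity
      have hq0 : (0 : ℤ) ≤ (q : ℤ) * q := by positivity
      have hr0 : (0 : ℤ) ≤ (r' : ℤ) * r' := by positivity
      have h8 : (2 * e : ℤ) * (2 * e + 2 * q + r') < 2 * e * (M 8 + 1) := by linarith
      have h9 : (2 * e + 2 * q + r' : ℤ) < M 8 + 1 := lt_of_mul_lt_mul_left h8 (by positivity)
      have h10 : 2 * e + 2 * q + r' < M 8 + 1 := by exact_mod_cast h9
      omega
  · obtain ⟨p, σ, hps, hb⟩ := comb_bal e (by omega) m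
    refine ⟨p, σ, hps, fun ρ hρ => le_trans ?_ (Qd_ge hstd hρ)⟩
    have h1 := (hb ρ hρ).2
    have h2 := two_cnd m
    rw [hN] at h2
    set q2 := ∑ i, m i * m i
    have hDz : (q2 : ℤ) + (e + r') * (e + r') + e + 2 ≤ 2 * SQ := by exact_mod_cast hD
    have h2z : 2 * (cnd m : ℤ) = q2 + (2 * e + r') := by exact_mod_cast h2
    have h3 : ((e - 1 : ℕ) : ℤ) = e - 1 := by
      have : 1 ≤ e := by omega
      push_cast [this]
      rfl
    have h4 : (cnd m : ℤ) + (e - 1) ^ 2 ≤ e * M 8 := by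
      have h5 : (e : ℤ) ≤ r' := by exact_mod_cast hr2
      have h7 : (0 : ℤ) ≤ (r' - e) * (r' + 3 * e - 1) := by
        apply mul_nonneg
        · linarith
        · have : (3 : ℤ) ≤ e := by exact_mod_cast he
          linarith
      have h8 : (3 : ℤ) ≤ e := by exact_mod_cast he
      nlinarith
    have h5 : cnd m + (e - 1) ^ 2 ≤ e * M 8 := by
      have : ((cnd m + (e - 1) ^ 2 : ℕ) : ℤ) ≤ ((e * M 8 : ℕ) : ℤ) := by
        push_cast
        rw [h3]
        exact h4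
      exact_mod_cast this
    exact Nat.le_of_mul_le_mul_left (h1.trans h5) (by omega)

end ShghT
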