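import Pool.Agent.ShghZ.ChainG

/-!
# The conditions fit into the columns if `D² ≥ (K · D)²`, pencils
-/

namespace ShghT

theorem two_chooseZ (n : ℕ) : 2 * (n + 1).choose 2 = n * n + n := by
  rw [Nat.choose_two_right, Nat.mul_div_cancel' (Nat.even_mul_pred_self _).two_dvd,
    Nat.add_sub_cancel]
  ring

theorem sum_Qd_pen {δ : ℕ} {M : Fin 9 → ℕ} {e : ℕ} (hstd : Std δ M e) (he : 0 < e)
    (hpen : δ = M 0 + 2 * M 8) :
    2 * ∑ x ∈ Finset.range e, Qd δ M e x = 2 * e * M 8 + e + 2 := by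
  obtain ⟨h1, h2, h3, h4, h5, h6, h7, h8, h9⟩ := hstd.facts
  have hs := sum_Qd hstd he
  have hdeg := hstd.deg
  have hsp : ∀ f : Fin 9 → ℕ, ∑ l, f l = f 0 + f 1 + f 2 + f 3 + f 4 + f 5 + f 6 + f 7 + f 8 := by
    intro f
    rw [Fin.sum_univ_succ, Fin.sum_univ_eight]
    have e1 : (Fin.succ 0 : Fin 9) = 1 := rfl
    have e2 : (Fin.succ 1 : Fin 9) = 2 := rfl
    have e3 : (Fin.succ 2 : Fin 9) = 3 := rfl
    have e4 : (Fin.succ 3 : Fin 9) = 4 := rfl
    have e5 : (Fin.succ 4 : Fin 9) = 5 := rfl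
    have e6 : (Fin.succ 5 : Fin 9) = 6 := rfl
    have e7 : (Fin.succ 6 : Fin 9) = 7 := rfl
    have e8 : (Fin.succ 7 : Fin 9) = 8 := rfl
    rw [e1, e2, e3, e4, e5, e6, e7, e8]
    ring
  rw [hsp] at hs hdeg
  obtain ⟨y, hy⟩ : ∃ y, M 8 = y := ⟨_, rfl⟩
  obtain ⟨h, hh⟩ : ∃ h, M 0 = y + h := ⟨M 0 - y, by omega⟩
  have m1 : M 1 = y := by omega
  have m2 : M 2 = y := by omega
  have m3 : M 3 = y := by omega
  have m4 : M 4 = y := by omega
  have m5 : M 5 = y := by omega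
  have m6 : M 6 = y := by omega
  have m7 : M 7 = y := by omega
  rw [hh, m1, m2, m3, m4, m5, m6, m7, hy] at hs hdeg
  rw [hh, hy] at hpen
  rw [hy]
  have c1 := two_chooseZ (y + h)
  have c2 := two_chooseZ y
  have c3 := two_chooseZ (δ + 1)
  rw [show δ + 1 + 1 = δ + 2 by ring] at c3
  have he2 : e = 2 * h := by omega
  subst he2
  subst hpen
  have c4 : (2 : ℤ) * ((y + h + 1).choose 2 : ℕ) = (y + h) * (y + h) + (y + h) := by
    exact_mod_cast c1
  have c5 : (2 : ℤ) * ((y + 1).choose 2 : ℕ) = y * y + y := by exact_mod_cast c2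
  have c6 : (2 : ℤ) * ((y + h + 2 * y + 2).choose 2 : ℕ) = (y + h + 2 * y + 1) *
      (y + h + 2 * y + 1) + (y + h + 2 * y + 1) := by exact_mod_cast c3
  set SQ := ∑ x ∈ Finset.range (2 * h), Qd (y + h + 2 * y) M (2 * h) x
  have c7 : (SQ : ℤ) + (((y + h + 1).choose 2 : ℕ) + ((y + 1).choose 2 : ℕ) +
      ((y + 1).choose 2 : ℕ) + ((y + 1).choose 2 : ℕ) + ((y + 1).choose 2 : ℕ) +
      ((y + 1).choose 2 : ℕ) + ((y + 1).choose 2 : ℕ) + ((y + 1).choose 2 : ℕ) +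
      ((y + 1).choose 2 : ℕ)) = ((y + h + 2 * y + 2).choose 2 : ℕ) := by exact_mod_cast hs
  have c8 : 2 * (SQ : ℤ) = 2 * (2 * h) * y + 2 * h + 2 := by linarith
  exact_mod_cast c8

/-- The chain for `N = 2 e + r'`: the sum is at most `n1 + 1 + r'`. -/
theorem chainBound (e : ℕ) (he : 3 ≤ e) {r : ℕ} (m : Fin r → ℕ) (i1 : Fin r)
    (h1 : ∀ i, m i ≤ m i1) (hm2 : m i1 ≤ 2 * e) {r' : ℕ} (hr2 : r' + 1 ≤ e)
    (hN : ∑ i, m i = 2 * e + r') :
    ∃ (p : Fin r → ℤ) (σ : Fin r → Bool),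
      (∀ i, 0 < circ e (p i) (σ i) ∧ circ e (p i) (σ i) < 4 * e) ∧
      ∀ ρ < e, ∑ i, Nr e (m i) (p i) (σ i) ρ ≤ m i1 + 1 + r' := by
  classical
  have hsup : (Finset.univ : Finset (Fin r)).sup m = m i1 :=
    le_antisymm (Finset.sup_le fun i _ => h1 i) (Finset.le_sup (Finset.mem_univ i1))
  rcases Nat.eq_zero_or_pos r' with h0 | h0
  · subst h0
    obtain ⟨p, σ, hps, hc⟩ := placeA e (by omega) m Finset.univ 0 (by norm_num) (m i1 + 1)
      (by rw [hsup]; omega) (fun i _ i' _ _ => by have := h1 i; omega)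
      (by simp only [add_zero]; omega) (by simp only [add_zero]; rw [hsup]; omega)
    exact ⟨p, σ, hps, fun ρ hρ => (hc ρ hρ).trans (by omega)⟩
  · obtain ⟨mm, hm1, hms, hmR, hmT⟩ := exists_mm m i1 h1 hm2 h0 hN
    obtain ⟨p, σ, hps, hc0, hc⟩ := placeCone e (by omega) m Finset.univ (by rw [hsup]; exact hm2)
      (by omega)
    rw [hsup, hN] at hc0
    rw [hsup, hN] at hc
    refine ⟨p, σ, hps, fun ρ hρ => ?_⟩
    rcases Nat.eq_zero_or_pos ρ with h2 | h2
    · subst h2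
      omega
    · obtain ⟨d1, d2⟩ := hc ρ h2 hρ
      have dmm := d1 mm
      have dn := d1 (m i1)
      have hz : (∑ i, if m i1 < m i then m i else 0) = 0 := by
        refine Finset.sum_eq_zero fun i _ => ?_
        have := h1 i
        rw [if_neg (by omega)]
      rw [hz] at dn
      omega

/-- Pencils, `K · D ≥ - K_9 · D`. -/
theorem capP1 {δ : ℕ} {M : Fin 9 → ℕ} {e : ℕ} (hstd : Std δ M e) (he : 3 ≤ e)
    (hpen : δ = M 0 + 2 * M 8) {r : ℕ} (m : Fin r → ℕ) {r' : ℕ} (hN : ∑ i, m i = 2 * e + r')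
    (hD : ∑ i, m i * m i + (e + r') * (e + r') + e + 2 ≤
      2 * ∑ x ∈ Finset.range e, Qd δ M e x) :
    ∃ (p : Fin r → ℤ) (σ : Fin r → Bool),
      (∀ i, 0 < circ e (p i) (σ i) ∧ circ e (p i) (σ i) < 4 * e) ∧
      ∀ ρ < e, ∑ i, Nr e (m i) (p i) (σ i) ρ ≤ Qd δ M e ρ := by
  classical
  have hSQ := sum_Qd_pen hstd (by omega) hpen
  rw [hSQ] at hD
  have he9 : (3 : ℤ) ≤ e := by exact_mod_cast he
  have hr0 : (0 : ℤ) ≤ r' := by positivity
  rcases Nat.lt_or_ge r' e with hr2 | hr2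
  · have hne' : (Finset.univ : Finset (Fin r)).Nonempty := by
      rw [Finset.nonempty_iff_ne_empty]
      intro h
      rw [h, Finset.sum_empty] at hN
      omega
    obtain ⟨i1, -, hi1⟩ := Finset.exists_mem_eq_sup _ hne' m
    have h1 : ∀ i, m i ≤ m i1 := fun i => by
      rw [← hi1]
      exact Finset.le_sup (Finset.mem_univ i)
    rw [← Finset.add_sum_erase _ (fun i => m i * m i) (Finset.mem_univ i1)] at hD
    have hR : ∑ i ∈ Finset.univ.erase i1, m i ≤ ∑ i ∈ Finset.univ.erase i1, m i * m i :=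
      Finset.sum_le_sum fun i _ => Nat.le_mul_self _
    rw [← Finset.add_sum_erase _ (fun i => m i) (Finset.mem_univ i1)] at hN
    set R1 := ∑ i ∈ Finset.univ.erase i1, m i
    set R2 := ∑ i ∈ Finset.univ.erase i1, m i * m i
    have hDz : (m i1 : ℤ) * m i1 + R2 + (e + r') * (e + r') ≤ 2 * e * M 8 := by
      have : (m i1 : ℤ) * m i1 + R2 + (e + r') * (e + r') + e + 2 ≤ 2 * e * M 8 + e + 2 := by
        exact_mod_cast hD
      linarith
    have hRz : (R1 : ℤ) ≤ R2 := by exact_mod_cast hR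
    have hNz : (m i1 : ℤ) + R1 = 2 * e + r' := by exact_mod_cast hN
    by_cases hm2 : m i1 ≤ 2 * e
    · obtain ⟨p, σ, hps, hc⟩ := chainBound e he m i1 h1 hm2 hr2 (by
        rw [← Finset.add_sum_erase _ (fun i => m i) (Finset.mem_univ i1)]
        exact hN)
      refine ⟨p, σ, hps, fun ρ hρ => (hc ρ hρ).trans (le_trans ?_ (Qd_ge hstd hρ))⟩
      have h2 : (m i1 : ℤ) ≤ 2 * e := by exact_mod_cast hm2
      have h3 : (2 * e : ℤ) * (m i1 + r') < 2 * e * M 8 := by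
        have h4 : (0 : ℤ) < (m i1 - e) * (m i1 - e) + R2 := by
          rcases eq_or_lt_of_le h2 with h5 | h5
          · rw [h5]
            have : (0 : ℤ) ≤ R2 := by positivity
            nlinarith
          · have := mul_self_nonneg ((m i1 : ℤ) - e)
            linarith
        have h5 : (0 : ℤ) ≤ (r' : ℤ) * r' := by positivity
        linarith
      have h4 : (m i1 + r' : ℤ) < M 8 := lt_of_mul_lt_mul_left h3 (by positivity)
      have h5 : m i1 + r' < M 8 := by exact_mod_cast h4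
      omega
    · obtain ⟨q, hq⟩ : ∃ q, m i1 = 2 * e + q := ⟨m i1 - 2 * e, by omega⟩
      obtain ⟨p, σ, hps, hc⟩ := capB e he m i1 hq hr2 (by
        rw [← Finset.add_sum_erase _ (fun i => m i) (Finset.mem_univ i1)]
        exact hN)
      refine ⟨p, σ, hps, fun ρ hρ => (hc ρ hρ).trans (le_trans ?_ (Qd_ge hstd hρ))⟩
      rw [hq] at hDz
      push_cast at hDz
      have hR0 : (0 : ℤ) ≤ R2 := by positivity
      have hq0 : (0 : ℤ) ≤ (q : ℤ) * q := by positivity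
      have hr0 : (0 : ℤ) ≤ (r' : ℤ) * r' := by positivity
      have h8 : (2 * e : ℤ) * (2 * e + 2 * q + r' + 1) ≤ 2 * e * M 8 := by nlinarith
      have h9 : (2 * e + 2 * q + r' + 1 : ℤ) ≤ M 8 := le_of_mul_le_mul_left h8 (by positivity)
      exact_mod_cast h9
  · obtain ⟨p, σ, hps, hb⟩ := comb_bal e (by omega) m
    refine ⟨p, σ, hps, fun ρ hρ => le_trans ?_ (Qd_ge hstd hρ)⟩
    have h1 := (hb ρ hρ).2
    have h2 := two_cnd m
    rw [hN] at h2
    set q2 := ∑ i, m i * m i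
    have hDz : (q2 : ℤ) + (e + r') * (e + r') ≤ 2 * e * M 8 := by
      have : (q2 : ℤ) + (e + r') * (e + r') + e + 2 ≤ 2 * e * M 8 + e + 2 := by exact_mod_cast hD
      linarith
    have h2z : 2 * (cnd m : ℤ) = q2 + (2 * e + r') := by exact_mod_cast h2
    have h3 : ((e - 1 : ℕ) : ℤ) = e - 1 := by
      have : 1 ≤ e := by omega
      push_cast [this]
      rfl
    have h4 : (cnd m : ℤ) + (e - 1) ^ 2 ≤ e * M 8 := by
      have h5 : (e : ℤ) ≤ r' := by exact_mod_cast hr2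
      have h7 : (0 : ℤ) ≤ (r' - e) * (r' + 3 * e - 1) := by
        apply mul_nonneg
        · linarith
        · linarith
      nlinarith
    have h5 : cnd m + (e - 1) ^ 2 ≤ e * M 8 := by
      have : ((cnd m + (e - 1) ^ 2 : ℕ) : ℤ) ≤ ((e * M 8 : ℕ) : ℤ) := by
        push_cast
        rw [h3]
        exact h4
      exact_mod_cast this
    exact Nat.le_of_mul_le_mul_left (h1.trans h5) (by omega)

end ShghT
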