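import Pool.Agent.ShghZ.CapP

/-!
# The conditions fit into the columns if `D² ≥ (K · D)²`, pencils with `K · D < - K_9 · D`
-/

namespace ShghT

/-- Chain with gaps after the largest tents. -/
theorem capSup (e : ℕ) (he : 0 < e) {r : ℕ} (m : Fin r → ℕ) (v : ℕ)
    (hm : ∀ i, m i ≤ v)
    (hN : ∑ i, m i + (Finset.univ.filter fun i => m i = v).card + 1 ≤ 2 * e) :
    ∃ (p : Fin r → ℤ) (σ : Fin r → Bool),
      (∀ i, 0 < circ e (p i) (σ i) ∧ circ e (p i) (σ i) < 4 * e) ∧
      ∀ ρ < e, ∑ i, Nr e (m i) (p i) (σ i) ρ ≤ v := by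
  classical
  refine placeG e he m (fun i => if m i = v then 1 else 0) (fun i => by
    split_ifs <;> omega) Finset.univ v (Finset.sup_le fun i _ => hm i) ?_ ?_
  · intro i _ i' _ _ h
    have := hm i
    split_ifs <;> omega
  · rw [Finset.sum_add_distrib, ← Finset.card_filter]
    exact hN

/-- Pencils, `5 ≤ K · D < - K_9 · D`. -/
theorem capP2 {δ : ℕ} {M : Fin 9 → ℕ} {e : ℕ} (hstd : Std δ M e) (he : 3 ≤ e)
    (hpen : δ = M 0 + 2 * M 8) {r : ℕ} (m : Fin r → ℕ) (hmM : ∀ i, m i ≤ M 8) {T : ℕ}
    (hm3 : ∃ i, 3 ≤ m i) (hT : 5 ≤ T) (hTe : T < e) (hN : ∑ i, m i = e + T)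
    (hD : ∑ i, m i * m i + T * T + e + 2 ≤ 2 * ∑ x ∈ Finset.range e, Qd δ M e x) :
    ∃ (p : Fin r → ℤ) (σ : Fin r → Bool),
      (∀ i, 0 < circ e (p i) (σ i) ∧ circ e (p i) (σ i) < 4 * e) ∧
      ∀ ρ < e, ∑ i, Nr e (m i) (p i) (σ i) ρ ≤ Qd δ M e ρ := by
  classical
  have hSQ := sum_Qd_pen hstd (by omega) hpen
  rw [hSQ] at hD
  have hne' : (Finset.univ : Finset (Fin r)).Nonempty := by
    rw [Finset.nonempty_iff_ne_empty]
    intro h
    rw [h, Finset.sum_empty] at hN
    omega
  obtain ⟨i1, -, hi1⟩ := Finset.exists_mem_eq_sup _ hne' m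
  have h1 : ∀ i, m i ≤ m i1 := fun i => by
    rw [← hi1]
    exact Finset.le_sup (Finset.mem_univ i)
  obtain ⟨i3, hi3⟩ := hm3
  have hv3 : 3 ≤ m i1 := hi3.trans (h1 i3)
  rcases Nat.lt_or_ge (m i1) (M 8) with hlt | hge
  · obtain ⟨p, σ, hps, hc⟩ := placeA e (by omega) m Finset.univ 0 (by norm_num) (M 8)
      (by rw [hi1]; omega) (fun i _ i' _ _ => by have := h1 i; omega)
      (by simp only [add_zero]; omega) (by simp only [add_zero]; rw [hi1]; omega)
    exact ⟨p, σ, hps, fun ρ hρ => (hc ρ hρ).trans (Qd_ge hstd hρ)⟩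
  · have hv : m i1 = M 8 := le_antisymm (hmM i1) hge
    obtain ⟨v, hv'⟩ : ∃ v, M 8 = v := ⟨_, rfl⟩
    rw [hv'] at hv hD
    obtain ⟨k, hk⟩ : ∃ k, k = (Finset.univ.filter fun i => m i = v).card := ⟨_, rfl⟩
    have hi1F : i1 ∈ Finset.univ.filter fun i => m i = v :=
      Finset.mem_filter.2 ⟨Finset.mem_univ _, hv⟩
    have hk1 : 1 ≤ k := by
      rw [hk]
      exact Finset.card_pos.2 ⟨i1, hi1F⟩
    rcases Nat.lt_or_ge k 2 with hk2 | hk2
    · -- only one
      have hone : ∀ i, i ≠ i1 → m i + 1 ≤ v := by
        intro i hi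
        have h2 := h1 i
        by_contra h3
        have h4 : m i = v := by omega
        have h5 : ({i, i1} : Finset (Fin r)) ⊆ Finset.univ.filter fun i => m i = v := by
          intro j hj
          rcases Finset.mem_insert.1 hj with h6 | h6
          · rw [h6]; exact Finset.mem_filter.2 ⟨Finset.mem_univ _, h4⟩
          · rw [Finset.mem_singleton.1 h6]; exact hi1F
        have h6 := Finset.card_le_card h5
        rw [Finset.card_pair hi] at h6
        omega
      obtain ⟨p, σ, hps, hc⟩ := placeA e (by omega) m Finset.univ 0 (by norm_num) v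
        (by rw [hi1]; omega) (fun i _ i' _ hne => by
          by_cases h : i = i1
          · have := hone i' (fun h' => hne (h.trans h'.symm))
            omega
          · have := hone i h
            omega)
        (by simp only [add_zero]; omega) (by simp only [add_zero]; rw [hi1]; omega)
      exact ⟨p, σ, hps, fun ρ hρ => (hc ρ hρ).trans (by rw [← hv']; exact Qd_ge hstd hρ)⟩
    · by_cases hNk : ∑ i, m i + k + 1 ≤ 2 * e
      · obtain ⟨p, σ, hps, hc⟩ := capSup e (by omega) m v (fun i => by
          have := h1 i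
          omega) (by rw [← hk]; exact hNk)
        exact ⟨p, σ, hps, fun ρ hρ => (hc ρ hρ).trans (by rw [← hv']; exact Qd_ge hstd hρ)⟩
      · exfalso
        have hkv : k * v ≤ ∑ i, m i := by
          rw [hk, ← smul_eq_mul]
          refine (Finset.card_nsmul_le_sum _ m v fun i hi => ?_).trans
            (Finset.sum_le_sum_of_subset (Finset.filter_subset _ _))
          exact (Finset.mem_filter.1 hi).2.ge
        have hkv2 : k * (v * v) ≤ ∑ i, m i * m i := by
          rw [hk, ← smul_eq_mul]
          refine (Finset.card_nsmul_le_sum _ (fun i => m i * m i) (v * v) fun i hi => ?_).trans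
            (Finset.sum_le_sum_of_subset (Finset.filter_subset _ _))
          rw [(Finset.mem_filter.1 hi).2]
        obtain ⟨d, hd⟩ : ∃ d, e = T + d := ⟨e - T, by omega⟩
        have hkd : d ≤ k := by omega
        have hv3' : 3 ≤ v := by omega
        have h3k : 3 * k ≤ 2 * T + d := by
          have : 3 * k ≤ k * v := by
            rw [mul_comm]
            exact Nat.mul_le_mul_left k hv3'
          omega
        have hmain : k * (v * v) + T * T ≤ 2 * (T + d) * v := by
          rw [← hd]
          omega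
        have hz : (k : ℤ) * (v * v) + T * T ≤ 2 * (T + d) * v := by exact_mod_cast hmain
        have hk0 : (2 : ℤ) ≤ k := by exact_mod_cast hk2
        have hsq := mul_self_nonneg ((k : ℤ) * v - (T + d))
        have h7 : (k : ℤ) * (T * T) ≤ (T + d) * (T + d) := by
          have h8 : (k : ℤ) * ((k : ℤ) * (v * v) + T * T) ≤ k * (2 * (T + d) * v) :=
            mul_le_mul_of_nonneg_left hz (by linarith)
          nlinarith
        have hT5 : (5 : ℤ) ≤ T := by exact_mod_cast hT
        have hTT : (5 : ℤ) * T ≤ T * T := by nlinarith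
        rcases Nat.lt_or_ge d 5 with hd5 | hd5
        · interval_cases d
          · omega
          · push_cast at h7
            nlinarith
          · push_cast at h7
            nlinarith
          · have hk3 : (3 : ℤ) ≤ k := by exact_mod_cast hkd
            push_cast at h7
            nlinarith
          · have hk3 : (4 : ℤ) ≤ k := by exact_mod_cast hkd
            push_cast at h7
            nlinarith
        · have hk5 : (5 : ℤ) ≤ k := by exact_mod_cast hd5.trans hkd
          have hdT : (d : ℤ) ≤ T := by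
            have : d ≤ T := by omega
            exact_mod_cast this
          have hd0 : (0 : ℤ) ≤ d := by positivity
          nlinarith

end ShghT
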