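import Pool.Agent.ShghZ.ChainZ
import Pool.Agent.ShghT.CombC

/-!
# The chain modulo `e`
-/

namespace ShghT

theorem placeCone (e : ℕ) (he : 0 < e) {r : ℕ} (m : Fin r → ℕ) (S : Finset (Fin r))
    (hM : S.sup m ≤ 2 * e) (hN : ∑ i ∈ S, m i + 1 ≤ 4 * e) :
    ∃ (p : Fin r → ℤ) (σ : Fin r → Bool),
      (∀ i, 0 < circ e (p i) (σ i) ∧ circ e (p i) (σ i) < 4 * e) ∧
      (∑ i ∈ S, Nr e (m i) (p i) (σ i) 0 ≤ S.sup m + (∑ i ∈ S, m i + 1 - 2 * e)) ∧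
      ∀ ρ, 1 ≤ ρ → ρ < e →
        (∀ v, ∑ i ∈ S, Nr e (m i) (p i) (σ i) ρ ≤ (S.sup m - 2 * (e - ρ)) +
          max (v + 1) ((∑ i ∈ S, if v < m i then m i else 0) + 1 - 2 * ρ) +
          (∑ i ∈ S, m i + 1 - 2 * e - 2 * ρ)) ∧
        ∑ i ∈ S, Nr e (m i) (p i) (σ i) ρ ≤ (S.sup m - 2 * (e - ρ)) +
          (∑ i ∈ S, m i + 1 - 2 * ρ) + (∑ i ∈ S, m i + 1 - 2 * e - 2 * ρ) := by
  classical
  obtain ⟨p, σ, h1, h2, h3⟩ := chainZ m S 0 true
  rw [ctr_true] at h1 h2 h3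
  set H : ℤ → ℕ := fun j => ∑ i ∈ S, tv (m i) (p i) (σ i) j with hH
  have hleft : ∀ j : ℤ, j ≤ 0 → (H j : ℤ) = max 0 (((S.sup m : ℕ) : ℤ) + 2 * j) := by
    intro j hj
    have e1 : H j = tv (S.sup m) 0 true j := h1 j (by omega)
    have e2 := tv_left (S.sup m) 0 true j (by rw [ctr_true]; omega)
    rw [ctr_true] at e2
    rw [e1]
    omega
  have hright : ∀ j : ℤ, 1 ≤ j → (H j : ℤ) ≤
      max 0 (((∑ i ∈ S, m i : ℕ) : ℤ) + 1 - 2 * j) := by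
    intro j hj
    have e1 := h3 j (by omega)
    change 2 * ((H j : ℕ) : ℤ) ≤ _ at e1
    omega
  have hrv : ∀ v : ℕ, ∀ j : ℤ, 1 ≤ j → (H j : ℤ) ≤
      max ((v : ℤ) + 1) (((∑ i ∈ S, if v < m i then m i else 0 : ℕ) : ℤ) + 1 - 2 * j) := by
    intro v j hj
    have e1 := h2 v j (by omega)
    change 2 * ((H j : ℕ) : ℤ) ≤ _ at e1
    omega
  have hz1 : ∀ i ∈ S, ∀ j : ℤ, j < -(e : ℤ) → tv (m i) (p i) (σ i) j = 0 := by
    intro i hi j hj
    have h4 : H j = 0 := by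
      have := hleft j (by omega)
      omega
    exact Finset.sum_eq_zero_iff.1 h4 i hi
  have hz2 : ∀ i ∈ S, ∀ j : ℤ, ((2 : ℕ) : ℤ) * e ≤ j → tv (m i) (p i) (σ i) j = 0 := by
    intro i hi j hj
    have h4 : H j = 0 := by
      have := hright j (by omega)
      omega
    exact Finset.sum_eq_zero_iff.1 h4 i hi
  have hS : ∀ ρ < e, ∑ i ∈ S, Nr e (m i) (CombC_q e (p i) (σ i)) (σ i) ρ =
      H (ρ - e) + H ρ + H (ρ + e) := by
    intro ρ hρ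
    have hS1 : ∑ i ∈ S, Nr e (m i) (CombC_q e (p i) (σ i)) (σ i) ρ =
        ∑ t ∈ Finset.Ico (-1 : ℤ) ((2 : ℕ) : ℤ), H (ρ + t * e) := by
      rw [Finset.sum_comm]
      refine Finset.sum_congr rfl fun i hi => ?_
      rw [CombC_q_Nr e he _ _ _ ρ hρ]
      exact Nr_eq_sum_tv e he (m i) (p i) (σ i) 2 (hz1 i hi) (hz2 i hi) ρ hρ
    rw [hS1]
    have hI : Finset.Ico (-1 : ℤ) ((2 : ℕ) : ℤ) = {-1, 0, 1} := by decide
    rw [hI, Finset.sum_insert (by decide), Finset.sum_insert (by decide), Finset.sum_singleton]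
    have e0 : H (ρ + (-1) * e) = H (ρ - e) := by congr 1; ring
    have e1 : H (ρ + 0 * e) = H ρ := by congr 1; ring
    have e2 : H (ρ + 1 * e) = H (ρ + e) := by congr 1; ring
    rw [e0, e1, e2, add_assoc]
  refine ⟨fun i => CombC_q e (p i) (σ i), σ, fun i => CombC_q_circ e he _ _, ?_, ?_⟩
  · rw [hS 0 he]
    have f0 := hleft (((0 : ℕ) : ℤ) - e) (by omega)
    have f1 := hleft ((0 : ℕ) : ℤ) (by omega)
    have f2 := hright (((0 : ℕ) : ℤ) + e) (by omega)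
    omega
  · intro ρ h1ρ hρ
    have f0 := hleft (ρ - e) (by omega)
    have f1 := hright ρ (by omega)
    have f2 := hright (ρ + e) (by omega)
    constructor
    · intro v
      have f3 := hrv v ρ (by omega)
      rw [hS ρ hρ]
      omega
    · rw [hS ρ hρ]
      omega

end ShghT
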