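import Pool.Agent.ShghZ.SumZ
import Pool.Agent.ShghZ.PlaceZ

/-!
# The conditions fit into the columns if `D² ≥ (K · D)²`
-/

namespace ShghT

private theorem colA {e n1 y r mm R2 A ρ cov Q SQ : ℕ} (he : 3 ≤ e) (hr : r + 1 ≤ e)
    (hn : n1 ≤ y) (hmn : mm ≤ n1) (hsum : n1 + mm ≤ 2 * e + r) (hR : mm * mm ≤ R2)
    (hD : n1 * n1 + R2 + (e + r) * (e + r) + e + 2 ≤ 2 * SQ)
    (hS : 2 * SQ + A * A ≤ 2 * e * (y + 1) + 2 * A * e + A + 4 * (min ρ (e - ρ)) ^ 2)
    (hρ1 : 1 ≤ ρ) (hρ : ρ < e) (hQ1 : y + 1 ≤ Q) (hQ2 : y + A ≤ Q)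
    (hQ3 : e ≤ 2 * ρ → y + A + 1 ≤ Q)
    (c1 : cov ≤ (n1 - 2 * (e - ρ)) + max (mm + 1) (2 * e + 1 - 2 * ρ) + (r + 1 - 2 * ρ))
    (c2 : cov ≤ (n1 - 2 * (e - ρ)) + (n1 + 1) + (r + 1 - 2 * ρ))
    (c3 : cov ≤ (n1 - 2 * (e - ρ)) + (2 * e + r + 1 - 2 * ρ) + (r + 1 - 2 * ρ)) : cov ≤ Q := by
  by_contra hcon
  obtain ⟨z, hz⟩ : ∃ z, e = ρ + z := ⟨e - ρ, by omega⟩
  have hz' : e - ρ = z := by omega
  rw [hz'] at c1 c2 c3 hS
  have hA : (A : ℤ) ≤ (A : ℤ) * A := by
    have : A ≤ A * A := Nat.le_mul_self A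
    exact_mod_cast this
  have hsq := mul_self_nonneg ((n1 : ℤ) - e)
  have hDz : (n1 : ℤ) * n1 + R2 + (e + r) * (e + r) + e + 2 ≤ 2 * SQ := by exact_mod_cast hD
  have hRz : (mm : ℤ) * mm ≤ R2 := by exact_mod_cast hR
  have hr0 : (0 : ℤ) ≤ (r : ℤ) * r := by positivity
  have hR0 : (0 : ℤ) ≤ R2 := by positivity
  have he9 : (3 : ℤ) ≤ e := by exact_mod_cast he
  have hS' : ∀ h0 : ℕ, min ρ z = h0 → 2 * (SQ : ℤ) + A * A ≤ 2 * e * (y + A + 1) + A +
      (2 * h0) * (2 * h0) := by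
    intro h0 h
    rw [h] at hS
    have : 2 * (SQ : ℤ) + A * A ≤ 2 * e * (y + 1) + 2 * A * e + A + 4 * h0 ^ 2 := by
      exact_mod_cast hS
    linarith
  clear hS
  have key : ∀ u v w : ℤ, u ≤ v → (2 * e : ℤ) * (u + w) ≤ 2 * e * (v + w) := by
    intro u v w h
    exact mul_le_mul_of_nonneg_left (by linarith) (by positivity)
  rcases Nat.lt_or_ge (2 * z) mm with h1 | h1
  · rcases Nat.lt_or_ge r (2 * ρ) with h2 | h2
    · rcases Nat.lt_or_ge (2 * ρ) e with h3 | h3
      · -- 2 ρ < e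
        have h4 : y + A ≤ n1 + r := by omega
        have hS2 := hS' ρ (min_eq_left (by omega))
        have h5 : (y : ℤ) + A ≤ n1 + r := by exact_mod_cast h4
        have h6 : (e : ℤ) + 2 ≤ mm := by
          have : e + 2 ≤ mm := by omega
          exact_mod_cast this
        have h7 : (2 * ρ : ℤ) ≤ e - 1 := by
          have : (2 * ρ : ℤ) + 1 ≤ e := by exact_mod_cast h3
          linarith
        have h10 := key _ _ 1 h5
        have h11 := mul_self_le_mul_self (by positivity) h6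
        have h12 := mul_self_le_mul_self (by positivity) h7
        linarith
      · -- e ≤ 2 ρ
        have h4 : y + A + 1 ≤ n1 + r := by have := hQ3 h3; omega
        have hS2 := hS' z (min_eq_right (by omega))
        have h5 : (y : ℤ) + A + 1 ≤ n1 + r := by exact_mod_cast h4
        have h6 : (2 * z : ℤ) ≤ mm := by exact_mod_cast h1.le
        have h10 := key _ _ 0 h5
        have h11 := mul_self_le_mul_self (by positivity) h6
        linarith
    · -- 2 ρ ≤ r
      have hS2 := hS' ρ (min_eq_left (by omega))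
      have h5 : (y : ℤ) + A + 1 ≤ n1 + r := by
        have : y + A + 1 ≤ n1 + r := by omega
        exact_mod_cast this
      have h7 : (2 * ρ : ℤ) ≤ r := by exact_mod_cast h2
      have h10 := key _ _ 0 h5
      have h12 := mul_self_le_mul_self (by positivity) h7
      linarith
  · rcases Nat.lt_or_ge r (2 * ρ) with h2 | h2
    · omega
    · have hS2 := hS' ρ (min_eq_left (by omega))
      have h5 : (y : ℤ) + A + 1 ≤ n1 + r := by
        have : y + A + 1 ≤ n1 + r := by omega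
        exact_mod_cast this
      have h7 : (2 * ρ : ℤ) ≤ r := by exact_mod_cast h2
      have h10 := key _ _ 0 h5
      have h12 := mul_self_le_mul_self (by positivity) h7
      linarith

/-- The threshold: the multiplicities `> mm` have sum at most `2 e`, and a second multiplicity is at
least `mm`. -/
theorem exists_mm {e r' : ℕ} {r : ℕ} (m : Fin r → ℕ) (i1 : Fin r)
    (h1 : ∀ i, m i ≤ m i1) (hn : m i1 ≤ 2 * e) (hr : 1 ≤ r') (hN : ∑ i, m i = 2 * e + r') :
    ∃ mm, mm ≤ m i1 ∧ m i1 + mm ≤ 2 * e + r' ∧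
      mm * mm ≤ ∑ i ∈ Finset.univ.erase i1, m i * m i ∧
      (∑ i, if mm < m i then m i else 0) ≤ 2 * e := by
  classical
  have hex : ∃ v, (∑ i, if v < m i then m i else 0) ≤ 2 * e := by
    refine ⟨m i1, ?_⟩
    rw [Finset.sum_eq_zero]
    · omega
    · intro i _
      have := h1 i
      rw [if_neg (by omega)]
  obtain ⟨mm, hmm⟩ : ∃ mm, mm = Nat.find hex := ⟨_, rfl⟩
  have hspec : (∑ i, if mm < m i then m i else 0) ≤ 2 * e := by
    rw [hmm]
    exact Nat.find_spec hex
  have hmin : ∀ v, v < mm → 2 * e < ∑ i, if v < m i then m i else 0 := by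
    intro v hv
    rw [hmm] at hv
    exact not_le.1 (Nat.find_min hex hv)
  have hle : mm ≤ m i1 := by
    by_contra hc
    have := hmin (m i1) (by omega)
    rw [Finset.sum_eq_zero] at this
    · omega
    · intro i _
      have := h1 i
      rw [if_neg (by omega)]
  have hpos : 1 ≤ mm := by
    by_contra hc
    have h0 : mm = 0 := by omega
    rw [h0] at hspec
    have : (∑ i, if 0 < m i then m i else 0) = ∑ i, m i := by
      refine Finset.sum_congr rfl fun i _ => ?_
      split_ifs <;> omega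
    omega
  have hpred := hmin (mm - 1) (by omega)
  obtain ⟨i, hi, hmi⟩ : ∃ i, i ≠ i1 ∧ m i = mm := by
    by_contra hc
    push Not at hc
    by_cases h3 : m i1 = mm
    · have h4 : (∑ i, if mm - 1 < m i then m i else 0) = m i1 := by
        rw [Finset.sum_eq_single i1]
        · rw [if_pos (by omega)]
        · intro i _ hi
          have := hc i hi
          have := h1 i
          rw [if_neg (by omega)]
        · intro h
          exact absurd (Finset.mem_univ i1) h
      omega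
    · have h4 : (∑ i, if mm - 1 < m i then m i else 0) = ∑ i, if mm < m i then m i else 0 := by
        refine Finset.sum_congr rfl fun i _ => ?_
        have h5 : m i ≠ mm := by
          by_cases h6 : i = i1
          · rw [h6]; exact h3
          · exact hc i h6
        by_cases h6 : mm < m i
        · rw [if_pos h6, if_pos (by omega)]
        · rw [if_neg h6, if_neg (by omega)]
      omega
  refine ⟨mm, hle, ?_, ?_, hspec⟩
  · rw [← hN, ← Finset.add_sum_erase _ _ (Finset.mem_univ i1)]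
    have := Finset.single_le_sum (f := m) (fun _ _ => Nat.zero_le _)
      (Finset.mem_erase.2 ⟨hi, Finset.mem_univ i⟩)
    omega
  · have := Finset.single_le_sum (f := fun i => m i * m i) (fun _ _ => Nat.zero_le _)
      (Finset.mem_erase.2 ⟨hi, Finset.mem_univ i⟩)
    rw [hmi] at this
    exact this

/-- The conditions fit into the columns, `N ≤ 3 e - 1`, all multiplicities at most `2 e`. -/
theorem capA {δ : ℕ} {M : Fin 9 → ℕ} {e : ℕ} (hstd : Std δ M e) (he : 3 ≤ e)
    (hne : δ ≠ M 0 + 2 * M 8) {r : ℕ} (m : Fin r → ℕ) (hmM : ∀ i, m i ≤ M 8) (hm2 : ∀ i, m i ≤ 2 * e)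
    {r' : ℕ} (hr1 : 1 ≤ r') (hr2 : r' + 1 ≤ e) (hN : ∑ i, m i = 2 * e + r')
    (hD : ∑ i, m i * m i + (e + r') * (e + r') + e + 2 ≤
      2 * ∑ x ∈ Finset.range e, Qd δ M e x) :
    ∃ (p : Fin r → ℤ) (σ : Fin r → Bool),
      (∀ i, 0 < circ e (p i) (σ i) ∧ circ e (p i) (σ i) < 4 * e) ∧
      ∀ ρ < e, ∑ i, Nr e (m i) (p i) (σ i) ρ ≤ Qd δ M e ρ := by
  classical
  have hne' : (Finset.univ : Finset (Fin r)).Nonempty := by
    rw [Finset.nonempty_iff_ne_empty]
    intro h
    rw [h, Finset.sum_empty] at hN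
    omega
  obtain ⟨i1, -, hi1⟩ := Finset.exists_mem_eq_sup _ hne' m
  have h1 : ∀ i, m i ≤ m i1 := fun i => by
    rw [← hi1]
    exact Finset.le_sup (Finset.mem_univ i)
  obtain ⟨mm, hm1, hms, hmR, hmT⟩ := exists_mm m i1 h1 (hm2 i1) hr1 hN
  obtain ⟨p, σ, hps, hc0, hc⟩ := placeCone e (by omega) m Finset.univ (by rw [hi1]; exact hm2 i1)
    (by omega)
  rw [hi1, hN] at hc0
  rw [hi1, hN] at hc
  have hD' : m i1 * m i1 + ∑ i ∈ Finset.univ.erase i1, m i * m i + (e + r') * (e + r') + e + 2 ≤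
      2 * ∑ x ∈ Finset.range e, Qd δ M e x := by
    rw [Finset.add_sum_erase _ (fun i => m i * m i) (Finset.mem_univ i1)]
    exact hD
  refine ⟨p, σ, hps, fun ρ hρ => ?_⟩
  obtain ⟨A, hA⟩ : ∃ A, Dg δ M e ρ = M 8 + A :=
    ⟨Dg δ M e ρ - M 8, by have := min_le_Dg hstd hρ.le; omega⟩
  have hS := sum_Qd_le hstd hρ hA
  rcases Nat.eq_zero_or_pos ρ with h0 | h0
  · subst h0
    have hQ : Qd δ M e 0 = Dg δ M e 0 + 1 := by
      unfold Qd
      rw [if_neg (fun ht => absurd ht.2.2.1 (lt_irrefl 0))]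
      rfl
    by_contra hcon
    have h4 : M 8 + A + 1 ≤ m i1 + r' := by omega
    have h5 : (M 8 : ℤ) + A + 1 ≤ m i1 + r' := by exact_mod_cast h4
    have h6 : hm e 0 = 0 := by unfold hm; omega
    rw [h6] at hS
    set SQ := ∑ x ∈ Finset.range e, Qd δ M e x
    set R2 := ∑ i ∈ Finset.univ.erase i1, m i * m i
    have hSz : 2 * (SQ : ℤ) + A * A ≤ 2 * e * (M 8 + 1) + 2 * A * e + A + 4 * 0 ^ 2 := by
      exact_mod_cast hS
    have hDz : (m i1 : ℤ) * m i1 + R2 + (e + r') * (e + r') + e + 2 ≤ 2 * SQ := by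
      exact_mod_cast hD'
    have h10 : (2 * e : ℤ) * (M 8 + A + 1) ≤ 2 * e * (m i1 + r') :=
      mul_le_mul_of_nonneg_left h5 (by positivity)
    have hA2 : (A : ℤ) ≤ (A : ℤ) * A := by
      have : A ≤ A * A := Nat.le_mul_self A
      exact_mod_cast this
    have hsq := mul_self_nonneg ((m i1 : ℤ) - e)
    have hR0 : (0 : ℤ) ≤ R2 := by positivity
    have hr0 : (0 : ℤ) ≤ (r' : ℤ) * r' := by positivity
    linarith
  · obtain ⟨d1, d2⟩ := hc ρ h0 hρ
    have dmm := d1 mm
    have dn := d1 (m i1)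
    have hz : (∑ i, if m i1 < m i then m i else 0) = 0 := by
      refine Finset.sum_eq_zero fun i _ => ?_
      have := h1 i
      rw [if_neg (by omega)]
    rw [hz] at dn
    have hQ1 := Qd_ge_succ hstd hne hρ
    have hQ2 : M 8 + A ≤ Qd δ M e ρ := by
      rw [Qd]
      split_ifs <;> omega
    have hQ3 : e ≤ 2 * ρ → M 8 + A + 1 ≤ Qd δ M e ρ := by
      intro h
      rw [Qd, if_neg (fun ht => by omega)]
      omega
    refine colA he hr2 (hmM i1) hm1 hms hmR hD' hS h0 hρ hQ1 hQ2 hQ3 ?_ ?_ ?_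
    · omega
    · omega
    · omega

end ShghT
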