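import Pool.Agent.ShghZ.CapB

/-!
# The chain of tents with variable gaps
-/

namespace ShghT

theorem chainG {r : ℕ} (m g : Fin r → ℕ) (hg : ∀ i, g i ≤ 1) (S : Finset (Fin r)) (x : ℤ)
    (s : Bool) :
    ∃ (p : Fin r → ℤ) (σ : Fin r → Bool),
      (∀ j, 4 * j ≤ ctr x s → ∑ i ∈ S, tv (m i) (p i) (σ i) j = tv (S.sup m) x s j) ∧
      (∀ B : ℕ, S.sup m ≤ B →
        (∀ i ∈ S, ∀ i' ∈ S, i ≠ i' → m i' ≤ m i → m i' + 1 ≤ B + g i) →
        ∀ j, ctr x s ≤ 4 * j → (∑ i ∈ S, tv (m i) (p i) (σ i) j) ≤ B) ∧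
      ∀ j, ctr x s ≤ 4 * j → 2 * ((∑ i ∈ S, tv (m i) (p i) (σ i) j : ℕ) : ℤ) ≤
        max 0 (ctr x s + 2 * ((∑ i ∈ S, (m i + g i) : ℕ) : ℤ) + 1 - 4 * j) := by
  induction S using Finset.induction_on_max_value m generalizing x s with
  | empty =>
    refine ⟨fun _ => 0, fun _ => true, ?_, ?_, ?_⟩
    · intro j _
      simp [tv_zero]
    · intro B _ _ j _
      simp
    · intro j _
      simp
  | insert a S ha hmax ih =>
    have hodd := ctr_odd x s
    obtain ⟨x', s', hx'⟩ := exists_ctr (ctr x s + 2 * (m a + g a)) (by omega)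
    obtain ⟨p, σ, i1, i2, i3⟩ := ih x' s'
    have hM : S.sup m ≤ m a := Finset.sup_le hmax
    have hga := hg a
    have hsup : (insert a S).sup m = m a := by
      rw [Finset.sup_insert]
      exact sup_eq_left.2 hM
    have hsum : ∀ j, ∑ i ∈ insert a S,
        tv (m i) (Function.update p a x i) (Function.update σ a s i) j =
        tv (m a) x s j + ∑ i ∈ S, tv (m i) (p i) (σ i) j := by
      intro j
      rw [Finset.sum_insert ha, Function.update_self, Function.update_self]
      congr 1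
      apply Finset.sum_congr rfl
      intro i hi
      have hne : i ≠ a := fun h => ha (h ▸ hi)
      rw [Function.update_of_ne hne, Function.update_of_ne hne]
    have hNS : S.sup m ≤ ∑ i ∈ S, (m i + g i) := by
      refine Finset.sup_le fun i hi => ?_
      exact le_trans (Nat.le_add_right _ (g i))
        (Finset.single_le_sum (f := fun i => m i + g i) (fun _ _ => Nat.zero_le _) hi)
    refine ⟨Function.update p a x, Function.update σ a s, ?_, ?_, ?_⟩
    · intro j hj
      rw [hsum, hsup, i1 j (by omega)]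
      have h1 := tv_left (S.sup m) x' s' j (by omega)
      have h2 := ctr_odd x' s'
      omega
    · intro B hB hpair j hj
      rw [hsup] at hB
      rw [hsum]
      have h1 := tv_right (m a) x s j hj
      rcases le_total (4 * j) (ctr x' s') with h | h
      · have h2 := tv_left (S.sup m) x' s' j h
        rw [i1 j h]
        by_cases hS : S = ∅
        · subst hS
          have h4 : tv ((∅ : Finset (Fin r)).sup m) x' s' j = 0 := by
            rw [Finset.sup_empty]
            exact tv_zero _ _ _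
          omega
        · obtain ⟨i, hi, hi2⟩ := Finset.exists_mem_eq_sup S (Finset.nonempty_iff_ne_empty.2 hS) m
          have hia : a ≠ i := fun h => ha (h ▸ hi)
          have h5 := hpair a (Finset.mem_insert_self a S) i (Finset.mem_insert_of_mem hi) hia
            (hmax i hi)
          rw [← hi2] at h5
          omega
      · have h2 := i2 B (hM.trans hB) (fun i hi i' hi' => hpair i (Finset.mem_insert_of_mem hi) i'
          (Finset.mem_insert_of_mem hi')) j h
        have h3 := ctr_odd x' s'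
        omega
    · intro j hj
      rw [hsum, Finset.sum_insert ha]
      have h1 := tv_right (m a) x s j hj
      have h3 := ctr_odd x' s'
      rcases le_total (4 * j) (ctr x' s') with h | h
      · have h2 := tv_left (S.sup m) x' s' j h
        rw [i1 j h]
        push_cast
        have h6 : ((∑ i ∈ S, (m i + g i) : ℕ) : ℤ) = ∑ i ∈ S, ((m i : ℤ) + g i) := by
          push_cast
          rfl
        rw [← h6]
        omega
      · have h2 := i3 j h
        push_cast at h2 ⊢
        omega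

/-- The tents of the chain modulo `e`. -/
theorem placeG (e : ℕ) (he : 0 < e) {r : ℕ} (m g : Fin r → ℕ) (hg : ∀ i, g i ≤ 1)
    (S : Finset (Fin r)) (B : ℕ) (hB : S.sup m ≤ B)
    (hpair : ∀ i ∈ S, ∀ i' ∈ S, i ≠ i' → m i' ≤ m i → m i' + 1 ≤ B + g i)
    (hN : ∑ i ∈ S, (m i + g i) + 1 ≤ 2 * e) :
    ∃ (p : Fin r → ℤ) (σ : Fin r → Bool),
      (∀ i, 0 < circ e (p i) (σ i) ∧ circ e (p i) (σ i) < 4 * e) ∧
      ∀ ρ < e, ∑ i ∈ S, Nr e (m i) (p i) (σ i) ρ ≤ B := by
  classical
  obtain ⟨p, σ, h1, h2, h3⟩ := chainG m g hg S 0 true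
  rw [ctr_true] at h1 h2 h3
  have h2' := h2 B hB hpair
  have hM : S.sup m ≤ 2 * e := by
    refine Finset.sup_le fun i hi => ?_
    have := Finset.single_le_sum (f := fun i => m i + g i) (fun _ _ => Nat.zero_le _) hi
    omega
  refine ⟨fun i => CombC_q e (p i) (σ i), σ, fun i => CombC_q_circ e he _ _, fun ρ hρ => ?_⟩
  set H : ℤ → ℕ := fun j => ∑ i ∈ S, tv (m i) (p i) (σ i) j with hH
  have hleft : ∀ j : ℤ, j ≤ 0 → (H j : ℤ) = max 0 (((S.sup m : ℕ) : ℤ) + 2 * j) := by
    intro j hj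
    have e1 : H j = tv (S.sup m) 0 true j := h1 j (by omega)
    have e2 := tv_left (S.sup m) 0 true j (by rw [ctr_true]; omega)
    rw [ctr_true] at e2
    rw [e1]
    omega
  have hright : ∀ j : ℤ, 1 ≤ j → (H j : ℤ) ≤
      max 0 (((∑ i ∈ S, (m i + g i) : ℕ) : ℤ) + 1 - 2 * j) := by
    intro j hj
    have e1 := h3 j (by omega)
    change 2 * ((H j : ℕ) : ℤ) ≤ _ at e1
    omega
  have hz1 : ∀ i ∈ S, ∀ j : ℤ, j < -(e : ℤ) → tv (m i) (p i) (σ i) j = 0 := by
    intro i hi j hj
    have h4 : H j = 0 := by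
      have := hleft j (by omega)
      omega
    exact Finset.sum_eq_zero_iff.1 h4 i hi
  have hz2 : ∀ i ∈ S, ∀ j : ℤ, ((2 : ℕ) : ℤ) * e ≤ j → tv (m i) (p i) (σ i) j = 0 := by
    intro i hi j hj
    have h4 : H j = 0 := by
      have := hright j (by omega)
      omega
    exact Finset.sum_eq_zero_iff.1 h4 i hi
  have hS : ∑ i ∈ S, Nr e (m i) (CombC_q e (p i) (σ i)) (σ i) ρ =
      ∑ t ∈ Finset.Ico (-1 : ℤ) ((2 : ℕ) : ℤ), H (ρ + t * e) := by
    rw [Finset.sum_comm]
    refine Finset.sum_congr rfl fun i hi => ?_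
    rw [CombC_q_Nr e he _ _ _ ρ hρ]
    exact Nr_eq_sum_tv e he (m i) (p i) (σ i) 2 (hz1 i hi) (hz2 i hi) ρ hρ
  rw [hS]
  have hI : Finset.Ico (-1 : ℤ) ((2 : ℕ) : ℤ) = {-1, 0, 1} := by decide
  rw [hI, Finset.sum_insert (by decide), Finset.sum_insert (by decide), Finset.sum_singleton]
  have e0 : H (ρ + (-1) * e) = H (ρ - e) := by congr 1; ring
  have e1 : H (ρ + 0 * e) = H ρ := by congr 1; ring
  have e2 : H (ρ + 1 * e) = H (ρ + e) := by congr 1; ring
  rw [e0, e1, e2]
  have f0 := hleft (ρ - e) (by omega)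
  have f2 := hright (ρ + e) (by omega)
  rcases Nat.eq_zero_or_pos ρ with h0 | h0
  · have f1 := hleft ρ (by omega)
    omega
  · have f1 := hright ρ (by omega)
    have f3 : H ρ ≤ B := h2' ρ (by omega)
    omega

end ShghT
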