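import Pool.Agent.ShghY.ChainY

/-!
# The chain of tents, precise upper bounds

The tents are placed in the order of decreasing height, the centres at distance `m / 2`. Beyond the
tents of height `> v` the sum is at most `v + 1`.
-/

namespace ShghT

theorem chainZ {r : ℕ} (m : Fin r → ℕ) (S : Finset (Fin r)) (x : ℤ) (s : Bool) :
    ∃ (p : Fin r → ℤ) (σ : Fin r → Bool),
      (∀ j, 4 * j ≤ ctr x s → ∑ i ∈ S, tv (m i) (p i) (σ i) j = tv (S.sup m) x s j) ∧
      (∀ v : ℕ, ∀ j, ctr x s ≤ 4 * j → 2 * ((∑ i ∈ S, tv (m i) (p i) (σ i) j : ℕ) : ℤ) ≤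
        max (2 * ((v : ℤ) + 1)) (ctr x s + 2 * ((∑ i ∈ S, if v < m i then m i else 0 : ℕ) : ℤ) +
          1 - 4 * j)) ∧
      ∀ j, ctr x s ≤ 4 * j → 2 * ((∑ i ∈ S, tv (m i) (p i) (σ i) j : ℕ) : ℤ) ≤
        max 0 (ctr x s + 2 * ((∑ i ∈ S, m i : ℕ) : ℤ) + 1 - 4 * j) := by
  induction S using Finset.induction_on_max_value m generalizing x s with
  | empty =>
    refine ⟨fun _ => 0, fun _ => true, ?_, ?_, ?_⟩
    · intro j _
      simp [tv_zero]
    · intro v j _
      simp only [Finset.sum_empty]
      omega
    · intro j _
      simp
  | insert a S ha hmax ih =>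
    have hodd := ctr_odd x s
    obtain ⟨x', s', hx'⟩ := exists_ctr (ctr x s + 2 * m a) (by omega)
    obtain ⟨p, σ, i1, i2, i3⟩ := ih x' s'
    have hM : S.sup m ≤ m a := Finset.sup_le hmax
    have hsup : (insert a S).sup m = m a := by
      rw [Finset.sup_insert]
      exact sup_eq_left.2 hM
    have hsum : ∀ j, ∑ i ∈ insert a S,
        tv (m i) (Function.update p a x i) (Function.update σ a s i) j =
        tv (m a) x s j + ∑ i ∈ S, tv (m i) (p i) (σ i) j := by
      intro j
      rw [Finset.sum_insert ha, Function.update_self, Function.update_self]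
      congr 1
      apply Finset.sum_congr rfl
      intro i hi
      have hne : i ≠ a := fun h => ha (h ▸ hi)
      rw [Function.update_of_ne hne, Function.update_of_ne hne]
    have hNS : S.sup m ≤ ∑ i ∈ S, m i := by
      refine Finset.sup_le fun i hi => ?_
      exact Finset.single_le_sum (f := m) (fun _ _ => Nat.zero_le _) hi
    have hNv : ∀ v, v < S.sup m → S.sup m ≤ ∑ i ∈ S, if v < m i then m i else 0 := by
      intro v hv
      obtain ⟨i, hi, hi2⟩ := Finset.exists_mem_eq_sup S (by
        rw [Finset.nonempty_iff_ne_empty]
        rintro rfl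
        simp at hv) m
      have h := Finset.single_le_sum (f := fun i => if v < m i then m i else 0)
        (fun _ _ => Nat.zero_le _) hi
      rw [if_pos (by omega)] at h
      omega
    refine ⟨Function.update p a x, Function.update σ a s, ?_, ?_, ?_⟩
    · intro j hj
      rw [hsum, hsup, i1 j (by omega)]
      have h1 := tv_left (S.sup m) x' s' j (by omega)
      omega
    · intro v j hj
      rw [hsum, Finset.sum_insert ha]
      have h1 := tv_right (m a) x s j hj
      have h3 := ctr_odd x' s'
      have h5 := hNv v
      rcases le_total (4 * j) (ctr x' s') with h | h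
      · have h2 := tv_left (S.sup m) x' s' j h
        rw [i1 j h]
        push_cast at h5 ⊢
        split_ifs with hv
        · rcases Nat.lt_or_ge v (S.sup m) with h6 | h6
          · have h7 := h5 h6
            have h8 : ((S.sup m : ℕ) : ℤ) ≤ ∑ i ∈ S, if v < m i then (m i : ℤ) else 0 := by
              have : ((S.sup m : ℕ) : ℤ) ≤ ((∑ i ∈ S, if v < m i then m i else 0 : ℕ) : ℤ) := by
                exact_mod_cast h7
              push_cast at this
              exact this
            omega
          · have h8 : (0 : ℤ) ≤ ∑ i ∈ S, if v < m i then (m i : ℤ) else 0 :=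
              Finset.sum_nonneg fun i _ => by split_ifs <;> positivity
            omega
        · have h8 : (0 : ℤ) ≤ ∑ i ∈ S, if v < m i then (m i : ℤ) else 0 :=
            Finset.sum_nonneg fun i _ => by split_ifs <;> positivity
          omega
      · have h2 := i2 v j h
        push_cast at h2 ⊢
        split_ifs with hv
        · omega
        · have h8 : ∑ i ∈ S, (if v < m i then (m i : ℤ) else 0) = 0 := by
            refine Finset.sum_eq_zero fun i hi => ?_
            have := hmax i hi
            rw [if_neg (by omega)]
          rw [h8] at h2 ⊢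
          omega
    · intro j hj
      rw [hsum, Finset.sum_insert ha]
      have h1 := tv_right (m a) x s j hj
      have h3 := ctr_odd x' s'
      rcases le_total (4 * j) (ctr x' s') with h | h
      · have h2 := tv_left (S.sup m) x' s' j h
        rw [i1 j h]
        push_cast
        have h6 : ((∑ i ∈ S, m i : ℕ) : ℤ) = ∑ i ∈ S, (m i : ℤ) := by push_cast; rfl
        rw [← h6]
        omega
      · have h2 := i3 j h
        push_cast at h2 ⊢
        omega

end ShghT
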