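import Pool.Agent.ShghZ.FourZ
import Pool.Agent.ShghY.FinalY

/-!
# Standard classes with `K · D ≤ 4` or `D² ≥ (K · D)²`
-/

namespace ShghT

open MvPolynomial

theorem sum_Qd_sq {δ : ℕ} {M : Fin 9 → ℕ} {e : ℕ} (hstd : Std δ M e) (he : 0 < e) :
    2 * ∑ x ∈ Finset.range e, Qd δ M e x + ∑ l, M l * M l = δ * δ + e + 2 := by
  have hs := sum_Qd hstd he
  have hdeg := hstd.deg
  have h1 : 2 * ∑ l, (M l + 1).choose 2 = ∑ l, M l * M l + ∑ l, M l := by
    rw [Finset.mul_sum, ← Finset.sum_add_distrib]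
    exact Finset.sum_congr rfl fun l _ => two_chooseZ (M l)
  have h2 := two_chooseZ (δ + 1)
  rw [show δ + 1 + 1 = δ + 2 by ring] at h2
  nlinarith

section

variable {F K : Type*} [Field F] [Field K] [Algebra F K] {r : ℕ}
    (P : Fin (9 + r) → Fin 2 → K)
    (hP : AlgebraicIndependent F (fun ij : Fin (9 + r) × Fin 2 => P ij.1 ij.2))
    (δ : ℕ) (M : Fin 9 → ℕ) (m : Fin r → ℕ) (e : ℕ) (hstd : Std δ M e)
    (χ : ℤ) (hχ : χ = ((δ + 2).choose 2 : ℤ) - ∑ l, ((M l + 1).choose 2 : ℤ) -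
      ∑ i, ((m i + 1).choose 2 : ℤ))

include hP hstd hχ

/-- Standard classes with `K · D ≤ 4`. -/
theorem main_four (hm : ∀ i, m i ≤ M 8) (hN : ∑ i, m i ≤ e + 4) :
    (Module.finrank K (LS δ (Fin.append M m) P) : ℤ) = max 0 χ := by
  classical
  by_cases he2 : e ≤ 2
  · exact main_W P hP δ M m e hstd hm (Or.inl he2) χ hχ
  have hb := big_le m
  by_cases hne : δ = M 0 + 2 * M 8
  · obtain ⟨hp1, -⟩ := pen_facts hstd hne
    by_cases hm2 : ∀ i, m i ≤ 2
    · exact main_W P hP δ M m e hstd hm (Or.inr (Or.inl hm2)) χ hχ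
    push Not at hm2
    obtain ⟨i0, hi0⟩ := hm2
    rcases (by omega : e = 4 ∨ 5 ≤ e) with he | he
    · exact main_pen4 P hP δ M m e hstd χ hχ he hne hm (by omega)
    · exact main_pen5 P hP δ M m e hstd χ hχ he hne hm ⟨i0, by omega⟩ hN
  · by_cases hY : big m ≤ 2 * e
    · exact main_Y P hP δ M m e hstd hm (Or.inr ⟨hY, Or.inl hne⟩) χ hχ
    · have he3 : e = 3 := by omega
      by_cases hX : χ ≠ 0 ∨ (Finset.univ.filter fun i => 1 ≤ m i).card ≠ 1
      · exact main_X P hP δ M m e hstd hstd.triple χ (Or.inr (Or.inr (Or.inr ⟨he3, hX⟩))) hχ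
      · push Not at hX
        obtain ⟨hχ0, hcard⟩ := hX
        obtain ⟨i0, hi0⟩ := Finset.card_eq_one.1 hcard
        have hz : ∀ i, i ≠ i0 → m i = 0 := by
          intro i hi
          by_contra h
          have h1 : i ∈ Finset.univ.filter fun i => 1 ≤ m i :=
            Finset.mem_filter.2 ⟨Finset.mem_univ _, Nat.pos_of_ne_zero h⟩
          rw [hi0, Finset.mem_singleton] at h1
          exact hi h1
        have hs : ∑ i, m i = m i0 := Finset.sum_eq_single i0 (fun i _ hi => hz i hi)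
          (fun h => absurd (Finset.mem_univ i0) h)
        exact main_seven P hP δ M m e hstd χ hχ he3 i0 (by omega) hz hχ0

/-- Standard classes with `D² ≥ (K · D)²`, `K · D ≥ 5`. -/
theorem main_cone (hm : ∀ i, m i ≤ M 8) {T : ℕ} (hT : 5 ≤ T) (hN : ∑ i, m i = e + T)
    (hD : T * T + ∑ l, M l * M l + ∑ i, m i * m i ≤ δ * δ) :
    (Module.finrank K (LS δ (Fin.append M m) P) : ℤ) = max 0 χ := by
  classical
  by_cases he2 : e ≤ 2
  · exact main_W P hP δ M m e hstd hm (Or.inl he2) χ hχ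
  have hb := big_le m
  have hsq := sum_Qd_sq hstd (by omega)
  have hD' : ∑ i, m i * m i + T * T + e + 2 ≤ 2 * ∑ x ∈ Finset.range e, Qd δ M e x := by omega
  by_cases hne : δ = M 0 + 2 * M 8
  · obtain ⟨hp1, -⟩ := pen_facts hstd hne
    by_cases hm2 : ∀ i, m i ≤ 2
    · exact main_W P hP δ M m e hstd hm (Or.inr (Or.inl hm2)) χ hχ
    push Not at hm2
    obtain ⟨i0, hi0⟩ := hm2
    refine main_cap P hP δ M m e (by omega) hstd χ hχ ?_
    rcases Nat.lt_or_ge T e with hlt | hge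
    · exact capP2 hstd (by omega) hne m hm ⟨i0, by omega⟩ hT hlt hN hD'
    · obtain ⟨r', hr'⟩ : ∃ r', T = e + r' := ⟨T - e, by omega⟩
      rw [hr'] at hD' hN
      exact capP1 hstd (by omega) hne m (r' := r') (by omega) hD'
  · by_cases hY : big m ≤ 2 * e
    · exact main_Y P hP δ M m e hstd hm (Or.inr ⟨hY, Or.inl hne⟩) χ hχ
    · obtain ⟨r', hr'⟩ : ∃ r', T = e + r' := ⟨T - e, by omega⟩
      rw [hr'] at hD' hN
      refine main_cap P hP δ M m e (by omega) hstd χ hχ ?_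
      exact capNP hstd (by omega) hne m hm (r' := r') (by omega) (by omega) hD'

end

section

variable {F K : Type*} [Field F] [Field K] [Algebra F K] {s : ℕ} (P : Fin s → Fin 2 → K)
    (hP : AlgebraicIndependent F (fun ij : Fin s × Fin 2 => P ij.1 ij.2))
    (δ : ℕ) (μ : Fin s → ℕ) (c : Fin 9 → Fin s) (hc : Function.Injective c)

include hP hc

/-- Standard classes. -/
theorem final_Z (hanti : Antitone fun l => μ (c l))
    (hmax : ∀ i, i ∉ Set.range c → ∀ l, μ i ≤ μ (c l))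
    (hstd : μ (c 0) + μ (c 1) + μ (c 2) ≤ δ)
    (h : (∑ i, (μ i : ℤ)) - 3 * δ ≤ 4 ∨
      ((∑ i, (μ i : ℤ)) - 3 * δ) ^ 2 ≤ (δ : ℤ) ^ 2 - ∑ i, (μ i : ℤ) ^ 2) :
    (Module.finrank K (LS δ μ P) : ℤ) =
      max 0 (((δ + 2).choose 2 : ℤ) - ∑ i, ((μ i + 1).choose 2 : ℤ)) := by
  classical
  have ha : ∀ i j : Fin 9, i ≤ j → μ (c j) ≤ μ (c i) := fun i j hij => hanti hij
  have a0 := ha 0 1 (by decide)
  have a1 := ha 1 2 (by decide)
  have a2 := ha 2 3 (by decide)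
  have a3 := ha 3 4 (by decide)
  have a4 := ha 4 5 (by decide)
  have a5 := ha 5 6 (by decide)
  have a6 := ha 6 7 (by decide)
  have a7 := ha 7 8 (by decide)
  have hsum : ∑ l, μ (c l) = μ (c 0) + μ (c 1) + μ (c 2) + μ (c 3) + μ (c 4) + μ (c 5) +
      μ (c 6) + μ (c 7) + μ (c 8) := by
    rw [Fin.sum_univ_succ, Fin.sum_univ_eight]
    have e1 : (Fin.succ 0 : Fin 9) = 1 := rfl
    have e2 : (Fin.succ 1 : Fin 9) = 2 := rfl
    have e3 : (Fin.succ 2 : Fin 9) = 3 := rfl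
    have e4 : (Fin.succ 3 : Fin 9) = 4 := rfl
    have e5 : (Fin.succ 4 : Fin 9) = 5 := rfl
    have e6 : (Fin.succ 5 : Fin 9) = 6 := rfl
    have e7 : (Fin.succ 6 : Fin 9) = 7 := rfl
    have e8 : (Fin.succ 7 : Fin 9) = 8 := rfl
    rw [e1, e2, e3, e4, e5, e6, e7, e8]
    ring
  obtain ⟨e, he⟩ : ∃ e, 3 * δ = e + ∑ l, μ (c l) := ⟨3 * δ - ∑ l, μ (c l), by omega⟩
  refine reindex P hP δ μ c hc (fun {r} M m => (∀ i l, m i ≤ M l) ∧
    ∑ i, m i + ∑ l, μ (c l) = ∑ i, μ i ∧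
    ∑ i, m i * m i + ∑ l, μ (c l) * μ (c l) = ∑ i, μ i * μ i) ?_ _ rfl ?_
  · intro r σ hσ
    have hn : ∀ i : Fin r, σ (Fin.natAdd 9 i) ∉ Set.range c := by
      rintro i ⟨l, hl⟩
      rw [← hσ l] at hl
      have := σ.injective hl
      have h1 := congrArg Fin.val this
      simp only [Fin.val_castAdd, Fin.val_natAdd] at h1
      omega
    refine ⟨fun i l => hmax _ (hn i) l, ?_, ?_⟩
    · rw [← Equiv.sum_comp σ, Fin.sum_univ_add]
      simp only [hσ]
      ring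
    · rw [← Equiv.sum_comp σ, Fin.sum_univ_add]
      simp only [hσ]
      ring
  · rintro r P' hP' M m ⟨hm, htot, hsq⟩ hM hχ
    have hM' : M = fun l => μ (c l) := funext hM
    have hS : Std δ M e := by
      refine ⟨?_, ?_, ?_⟩
      · rw [hM']
        exact hanti
      · rw [hM, hM, hM]
        exact hstd
      · rw [he]
        simp only [hM]
    have hK : (∑ i, (μ i : ℤ)) - 3 * δ = ((∑ i, m i : ℕ) : ℤ) - e := by
      have h1 : ((∑ i, m i + ∑ l, μ (c l) : ℕ) : ℤ) = ((∑ i, μ i : ℕ) : ℤ) := by rw [htot]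
      have h2 : ((3 * δ : ℕ) : ℤ) = ((e + ∑ l, μ (c l) : ℕ) : ℤ) := by rw [he]
      push_cast at h1 h2 ⊢
      linarith
    rw [hK] at h
    by_cases h4 : ∑ i, m i ≤ e + 4
    · exact main_four P' hP' δ M m e hS _ hχ (fun i => hm i 8) h4
    · have h5 := h.resolve_left (by omega)
      obtain ⟨T, hT⟩ : ∃ T, ∑ i, m i = e + T := ⟨∑ i, m i - e, by omega⟩
      refine main_cone P' hP' δ M m e hS _ hχ (fun i => hm i 8) (T := T) (by omega) hT ?_
      rw [hT] at h5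
      have h6 : ((∑ i, m i * m i + ∑ l, μ (c l) * μ (c l) : ℕ) : ℤ) =
          ((∑ i, μ i * μ i : ℕ) : ℤ) := by rw [hsq]
      have h7 : ((T * T + ∑ l, M l * M l + ∑ i, m i * m i : ℕ) : ℤ) ≤ ((δ * δ : ℕ) : ℤ) := by
        simp only [hM]
        push_cast at h5 h6 ⊢
        simp only [pow_two] at h5
        have h8 : ((e : ℤ) + T - e) * (e + T - e) = T * T := by ring
        rw [h8] at h5
        linarith
      exact_mod_cast h7

end

end ShghT
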