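import Pool.Agent.ShghZ.Spec

/-!
ShghZ, EvenPeel (helper32): an even number of points on a box.
-/

namespace ShghZ

open MvPolynomial ShghJ ShghC ShghK

universe u

theorem tEvenPeel (h1 : S_ElmA.{u}) (h2 : S_ElmB.{u}) : S_EvenPeel.{u} := by
  intro F _ t m j
  induction j with
  | zero =>
    intro d L B hmt htm hL
    have : L = d := by simpa using hL
    subst this
    simp
  | succ j ih =>
    intro d L B hmt htm hL
    obtain ⟨r, rfl⟩ := Nat.exists_eq_add_of_le hmt
    have hr : m + r - m = r := Nat.add_sub_cancel_left m r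
    rw [hr] at hL ⊢
    have hrm : r ≤ m := by omega
    have hjr : j * r ≤ j * m := Nat.mul_le_mul_left j hrm
    have hL' : L + j * m + m = d + j * r + r := by
      have h := hL
      rw [Nat.add_mul, Nat.add_mul, Nat.one_mul, Nat.one_mul] at h
      omega
    have hmd : m ≤ d + r := by omega
    have e1 : ∀ a : ℕ, Multiset.replicate (2 * (j + 1)) a + B =
        a ::ₘ a ::ₘ (Multiset.replicate (2 * j) a + B) := by
      intro a
      rw [show 2 * (j + 1) = 2 * j + 1 + 1 by ring, Multiset.replicate_succ, Multiset.replicate_succ,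
        Multiset.cons_add, Multiset.cons_add]
    have e2 : Multiset.replicate (2 * (j + 1)) r + B =
        Multiset.replicate (2 * j) r + (r ::ₘ r ::ₘ B) := by
      rw [e1, Multiset.add_cons, Multiset.add_cons]
    have e3 : r ::ₘ r ::ₘ (Multiset.replicate (2 * j) m + B) =
        Multiset.replicate (2 * j) m + (r ::ₘ r ::ₘ B) := by
      rw [Multiset.add_cons, Multiset.add_cons]
    have s1 := h2 F (m + r) m d (m ::ₘ (Multiset.replicate (2 * j) m + B)) hmt
    rw [hr, Multiset.cons_swap r m] at s1
    have s2 := (h1 F (m + r) m (d + r) (r ::ₘ (Multiset.replicate (2 * j) m + B)) hmt).1 hmd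
    rw [hr, e3] at s2
    have s3 := ih (d + r - m) L (r ::ₘ r ::ₘ B) hmt htm (by rw [hr]; omega)
    rw [hr] at s3
    rw [e1 m, e2]
    exact s1.trans (s2.trans s3)

end ShghZ
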