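import Pool.Agent.ShghZ.MainZ

/-!
# Standard classes with `K · D ≤ 4`
-/

namespace ShghT

open MvPolynomial

theorem pen_facts {δ : ℕ} {M : Fin 9 → ℕ} {e : ℕ} (hstd : Std δ M e)
    (hpen : δ = M 0 + 2 * M 8) : e = 2 * (M 0 - M 8) ∧ Jt δ M = M 8 := by
  obtain ⟨h1, h2, h3, h4, h5, h6, h7, h8, h9⟩ := hstd.facts
  have hdeg := hstd.deg
  have hsp : ∑ l, M l = M 0 + M 1 + M 2 + M 3 + M 4 + M 5 + M 6 + M 7 + M 8 := by
    rw [Fin.sum_univ_succ, Fin.sum_univ_eight]
    have e1 : (Fin.succ 0 : Fin 9) = 1 := rfl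
    have e2 : (Fin.succ 1 : Fin 9) = 2 := rfl
    have e3 : (Fin.succ 2 : Fin 9) = 3 := rfl
    have e4 : (Fin.succ 3 : Fin 9) = 4 := rfl
    have e5 : (Fin.succ 4 : Fin 9) = 5 := rfl
    have e6 : (Fin.succ 5 : Fin 9) = 6 := rfl
    have e7 : (Fin.succ 6 : Fin 9) = 7 := rfl
    have e8 : (Fin.succ 7 : Fin 9) = 8 := rfl
    rw [e1, e2, e3, e4, e5, e6, e7, e8]
    ring
  rw [hsp] at hdeg
  refine ⟨by omega, ?_⟩
  unfold Jt
  omega

theorem Qd_half {δ : ℕ} {M : Fin 9 → ℕ} {e : ℕ} (hstd : Std δ M e) {ρ : ℕ} (hρ : ρ < e)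
    (h : ρ = 0 ∨ e ≤ 2 * ρ) : M 8 + 1 ≤ Qd δ M e ρ := by
  have h1 := min_le_Dg hstd hρ.le
  rw [Qd, if_neg]
  · omega
  · rintro ⟨h2, -, h3, -⟩
    omega

variable {F K : Type*} [Field F] [Field K] [Algebra F K] {r : ℕ}
    (P : Fin (9 + r) → Fin 2 → K)
    (hP : AlgebraicIndependent F (fun ij : Fin (9 + r) × Fin 2 => P ij.1 ij.2))
    (δ : ℕ) (M : Fin 9 → ℕ) (m : Fin r → ℕ) (e : ℕ) (hstd : Std δ M e)
    (χ : ℤ) (hχ : χ = ((δ + 2).choose 2 : ℤ) - ∑ l, ((M l + 1).choose 2 : ℤ) -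
      ∑ i, ((m i + 1).choose 2 : ℤ))

include hP hstd hχ

/-- Pencils, `e = 4`. -/
theorem main_pen4 (he : e = 4) (hpen : δ = M 0 + 2 * M 8) (hm : ∀ i, m i ≤ M 8)
    (hN : ∑ i, m i ≤ 8) :
    (Module.finrank K (LS δ (Fin.append M m) P) : ℤ) = max 0 χ := by
  classical
  subst he
  have hsup : (Finset.univ : Finset (Fin r)).sup m ≤ M 8 := Finset.sup_le fun i _ => hm i
  obtain ⟨p, σ, hps, hc⟩ := placeA 4 (by norm_num) m Finset.univ 0 (by norm_num) (M 8 + 1)
    (by omega) (fun i _ i' _ _ => by have := hm i; omega)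
    (by simp only [add_zero]; omega) (by simp only [add_zero]; omega)
  by_cases hall : ∀ ρ < 4, M 8 + 1 ≤ ∑ i, Nr 4 (m i) (p i) (σ i) ρ
  · obtain ⟨n, hn⟩ : ∃ n, n = ∑ x ∈ Finset.range 4, Qd δ M 4 x - ∑ i, (m i + 1).choose 2 :=
      ⟨_, rfl⟩
    refine main_dem P hP δ M m 4 (by norm_num) hstd χ hχ n hn ?_
    refine ⟨Fin.append p (fun _ => CombB_pp 4 0), fun i => some (Fin.append σ (fun _ => true) i),
      ?_, ?_⟩
    · intro i
      refine Fin.addCases (fun i => ?_) (fun i => ?_) i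
      · simp only [Fin.append_left]
        exact ⟨(hps i).1.le, (hps i).2⟩
      · simp only [Fin.append_right]
        have := CombB_pp_circ 4 (by norm_num) 0
        exact ⟨this.1.le, this.2⟩
    · intro x hx
      rw [Fin.sum_univ_add]
      simp only [Fin.append_left, Fin.append_right]
      have h1 : Qd δ M 4 x ≤ M 8 + 1 := by
        have h2 := Dg_le δ M 4 x
        rw [(pen_facts hstd hpen).2] at h2
        have h3 : Qd δ M 4 x ≤ Dg δ M 4 x + 1 := Nat.sub_le _ _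
        omega
      have h2 := hall x hx
      have h3 : ∑ i, Nr 4 (m i) (p i) (σ i) x = ∑ i, NO 4 (m i) (p i) (some (σ i)) x := rfl
      omega
  · push Not at hall
    obtain ⟨ρ0, hρ0, hlow⟩ := hall
    refine main_cap P hP δ M m 4 (by norm_num) hstd χ hχ ?_
    refine ⟨fun i => CombC_q 4 (p i + (1 - ρ0)) (σ i), σ,
      fun i => CombC_q_circ 4 (by norm_num) _ _, fun ρ hρ => ?_⟩
    obtain ⟨ρ', hρ', hrot⟩ : ∃ ρ' : ℕ, ρ' < 4 ∧ ((ρ' : ℤ) + (1 - ρ0)) % ((4 : ℕ) : ℤ) = ρ := by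
      refine ⟨(ρ + 3 + ρ0) % 4, Nat.mod_lt _ (by norm_num), ?_⟩
      push_cast
      omega
    have h1 : ∑ i, Nr 4 (m i) (CombC_q 4 (p i + (1 - ρ0)) (σ i)) (σ i) ρ =
        ∑ i, Nr 4 (m i) (p i) (σ i) ρ' := by
      refine Finset.sum_congr rfl fun i _ => ?_
      rw [CombC_q_Nr 4 (by norm_num) _ _ _ ρ hρ]
      exact Nr_rot 4 (by norm_num) (m i) (p i) (1 - ρ0) (σ i) ρ' ρ hρ' hρ hrot
    rw [h1]
    by_cases h2 : ρ = 1
    · subst h2
      have h3 : ρ' = ρ0 := by
        push_cast at hrot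
        omega
      rw [h3]
      exact (Nat.lt_succ_iff.1 hlow).trans (Qd_ge hstd hρ)
    · exact (hc ρ' hρ').trans (Qd_half hstd hρ (by omega))

/-- Pencils, `e ≥ 5`. -/
theorem main_pen5 (he : 5 ≤ e) (hpen : δ = M 0 + 2 * M 8) (hm : ∀ i, m i ≤ M 8)
    (hm3 : ∃ i, 2 ≤ m i) (hN : ∑ i, m i ≤ e + 4) :
    (Module.finrank K (LS δ (Fin.append M m) P) : ℤ) = max 0 χ := by
  classical
  obtain ⟨he2, hJ⟩ := pen_facts hstd hpen
  obtain ⟨h, hh⟩ : ∃ h, h = M 0 - M 8 := ⟨_, rfl⟩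
  rw [← hh] at he2
  subst he2
  have hsup : (Finset.univ : Finset (Fin r)).sup m ≤ M 8 := Finset.sup_le fun i _ => hm i
  obtain ⟨i3, hi3⟩ := hm3
  have hsup2 : 2 ≤ (Finset.univ : Finset (Fin r)).sup m :=
    hi3.trans (Finset.le_sup (Finset.mem_univ i3))
  have hA : ∑ i ∈ (Finset.univ : Finset (Fin r)) with
      (Finset.univ : Finset (Fin r)).sup m ≤ m i, m i ≤ ∑ i, m i :=
    Finset.sum_le_sum_of_subset (Finset.filter_subset _ _)
  obtain ⟨p, σ, hps, hc⟩ := placeP h (by omega) m Finset.univ (by omega) (by omega)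
  refine main_cap P hP δ M m (2 * h) (by omega) hstd χ hχ ⟨p, σ, hps, fun ρ hρ => ?_⟩
  obtain ⟨h1, h2⟩ := hc ρ hρ
  rcases Nat.eq_zero_or_pos ρ with h3 | h3
  · exact (h1.trans (by omega)).trans (Qd_half hstd hρ (Or.inl h3))
  · rcases Nat.lt_or_ge ρ h with h4 | h4
    · exact ((h2 h3 h4).trans hsup).trans (Qd_ge hstd hρ)
    · exact (h1.trans (by omega)).trans (Qd_half hstd hρ (Or.inr (by omega)))

/-- `e = 3`, one further point of multiplicity seven, `χ = 0`. -/
theorem main_seven (he : e = 3) (i0 : Fin r) (hi0 : m i0 = 7) (hz : ∀ i, i ≠ i0 → m i = 0)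
    (hχ0 : χ = 0) :
    (Module.finrank K (LS δ (Fin.append M m) P) : ℤ) = max 0 χ := by
  classical
  have : Infinite K := infinite_of_algebraicIndependent _ hP
  subst he
  have hsum := sum_Qd hstd (by norm_num)
  have hcnd : ∑ i, (m i + 1).choose 2 = 28 := by
    rw [Finset.sum_eq_single i0 (fun i _ hi => by rw [hz i hi]; rfl)
      (fun h => absurd (Finset.mem_univ i0) h), hi0]
    rfl
  have hQ : ∑ x ∈ Finset.range 3, Qd δ M 3 x = 28 := by
    have h1 : χ = ((∑ x ∈ Finset.range 3, Qd δ M 3 x : ℕ) : ℤ) -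
        ((∑ i, (m i + 1).choose 2 : ℕ) : ℤ) := by
      rw [hχ, ← hsum]
      push_cast
      ring
    omega
  have hends := Qd_ends hstd (by norm_num)
  have h2 := hends.2 le_rfl
  have h1 := hends.1
  simp only [Nat.add_one_sub_one] at h1 h2
  rw [Finset.sum_range_succ, Finset.sum_range_succ, Finset.sum_range_one] at hQ
  have hup : Module.finrank K (LS δ (Fin.append M m) P) ≤ 0 := by
    rcases (by omega : (Qd δ M 3 0 = 10 ∧ Qd δ M 3 1 = 9 ∧ Qd δ M 3 2 = 9) ∨
      (Qd δ M 3 0 = 11 ∧ Qd δ M 3 1 = 8 ∧ Qd δ M 3 2 = 9)) with h | h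
    · refine upper_S P hP δ M m 3 (by norm_num) hstd 0 (fun _ => 0) (fun _ => some true)
        (fun _ => {0}) (fun i => goodS_zero _) (fun i => by decide) ?_
      refine dem_of_Qd _ fun ρ hρ => ?_
      have h3 : Nr 3 7 0 true ρ ≤ ∑ i, NM 3 (Fin.append m (fun _ : Fin 0 => 1) i) 0 (some true)
          {0} ρ := by
        have h4 := Finset.single_le_sum
          (f := fun i => NM 3 (Fin.append m (fun _ : Fin 0 => 1) i) 0 (some true) {0} ρ)
          (fun _ _ => Nat.zero_le _) (Finset.mem_univ (Fin.castAdd 0 i0))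
        simp only [Fin.append_left, hi0] at h4
        exact h4
      refine le_trans ?_ h3
      have h5 : Nr 3 7 0 true 0 = 10 ∧ Nr 3 7 0 true 1 = 9 ∧ Nr 3 7 0 true 2 = 9 := by
        refine ⟨?_, ?_, ?_⟩ <;> decide
      interval_cases ρ <;> omega
    · refine upper_S P hP δ M m 3 (by norm_num) hstd 0 (fun _ => 0) (fun _ => none)
        (fun i => if m i = 7 then {2} else {0}) ?_ (fun i => by decide) ?_
      · intro i
        refine Fin.addCases (fun i => ?_) (fun i => i.elim0) i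
        rw [Fin.append_left]
        change GoodS (m i) (if m i = 7 then {2} else {0})
        split_ifs with h7
        · rw [h7]
          intro S' hS' hsum'
          have h8 : S' ∈ (Finset.range 4).powerset := Finset.mem_powerset.2 hS'
          revert S'
          decide
        · exact goodS_zero _
      · refine dem_of_Qd _ fun ρ hρ => ?_
        have h3 : NM 3 7 0 none {2} ρ ≤ ∑ i, NM 3 (Fin.append m (fun _ : Fin 0 => 1) i) 0 none
            (if m i = 7 then {2} else {0}) ρ := by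
          have h4 := Finset.single_le_sum
            (f := fun i => NM 3 (Fin.append m (fun _ : Fin 0 => 1) i) 0 none
              (if m i = 7 then {2} else {0}) ρ)
            (fun _ _ => Nat.zero_le _) (Finset.mem_univ (Fin.castAdd 0 i0))
          have h5 : (if m (Fin.castAdd 0 i0) = 7 then ({2} : Finset ℕ) else {0}) = {2} :=
            if_pos hi0
          simp only [Fin.append_left, hi0] at h4
          rw [h5] at h4
          exact h4
        refine le_trans ?_ h3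
        have h5 : NM 3 7 0 none {2} 0 = 11 ∧ NM 3 7 0 none {2} 1 = 8 ∧
            NM 3 7 0 none {2} 2 = 9 := by
          refine ⟨?_, ?_, ?_⟩ <;> decide
        interval_cases ρ <;> omega
  rw [hχ0]
  have h0 : Module.finrank K (LS δ (Fin.append M m) P) = 0 := Nat.le_zero.1 hup
  rw [h0]
  rfl

end ShghT
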