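import Pool.Agent.ShghC.NSemi

/-!
# ShghZ/LnMat: the linear system of `LN N μ P`, semicontinuity over a ring
-/

namespace ShghZ

open MvPolynomial ShghJ ShghC

section

variable {K : Type*} [Field K] {s : ℕ}

/-- The matrix of the conditions. -/
noncomputable def lnMat (N : Finset (Fin 2 →₀ ℕ)) (μ : Fin s → ℕ) (P : Fin s → Fin 2 → K) :
    Matrix (ShghE.tfRow μ) N K :=
  fun r e => ShghE.tfM (P r.1 0) (P r.1 1) e r.2

/-- The coefficients. -/
noncomputable def lnPsi (N : Finset (Fin 2 →₀ ℕ)) (μ : Fin s → ℕ)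
    (P : Fin s → Fin 2 → K) : LN N μ P →ₗ[K] (N → K) where
  toFun f e := (f : MvPolynomial (Fin 2) K).coeff e
  map_add' f g := by
    ext e
    simp
  map_smul' c f := by
    ext e
    simp

theorem ln_expand {R : Type*} [CommRing R] {N : Finset (Fin 2 →₀ ℕ)}
    {f : MvPolynomial (Fin 2) R} (h : ∀ e, f.coeff e ≠ 0 → e ∈ N) :
    f = ∑ e : N, monomial (e : Fin 2 →₀ ℕ) (f.coeff e) := by
  rw [Finset.sum_coe_sort N (fun e => monomial e (f.coeff e))]
  conv_lhs => rw [f.as_sum]
  refine Finset.sum_subset (fun e he => h e (mem_support_iff.1 he)) fun e _ he => ?_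
  rw [notMem_support_iff.1 he, monomial_zero]

theorem ln_sum_coeff {R : Type*} [CommRing R] {N : Finset (Fin 2 →₀ ℕ)} (c : N → R)
    (e : N) : (∑ e : N, monomial (e : Fin 2 →₀ ℕ) (c e)).coeff e = c e := by
  classical
  rw [coeff_sum, Finset.sum_eq_single e]
  · rw [coeff_monomial, if_pos rfl]
  · intro e' _ he'
    rw [coeff_monomial, if_neg fun h => he' (Subtype.ext h)]
  · intro h
    exact absurd (Finset.mem_univ _) h

theorem ln_sum_mem {R : Type*} [CommRing R] {N : Finset (Fin 2 →₀ ℕ)} (c : N → R)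
    (e : Fin 2 →₀ ℕ) (he : (∑ e : N, monomial (e : Fin 2 →₀ ℕ) (c e)).coeff e ≠ 0) : e ∈ N := by
  classical
  by_contra hcon
  apply he
  rw [coeff_sum]
  refine Finset.sum_eq_zero fun e' _ => ?_
  rw [coeff_monomial, if_neg]
  rintro rfl
  exact hcon e'.2

theorem ln_ker (N : Finset (Fin 2 →₀ ℕ)) (μ : Fin s → ℕ) (P : Fin s → Fin 2 → K) :
    LinearMap.ker (lnPsi N μ P) = ⊥ := by
  rw [LinearMap.ker_eq_bot']
  intro f hf
  apply Subtype.ext
  rw [ln_expand (mem_LN.1 f.2).1]
  refine Finset.sum_eq_zero fun e _ => ?_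
  have : (f : MvPolynomial (Fin 2) K).coeff e = 0 := congrFun hf e
  rw [this, monomial_zero]

/-- The kernel of the matrix is the space of the coefficient vectors of the members of `LN`. -/
theorem ln_range (N : Finset (Fin 2 →₀ ℕ)) (μ : Fin s → ℕ) (P : Fin s → Fin 2 → K) :
    LinearMap.range (lnPsi N μ P) = LinearMap.ker (lnMat N μ P).mulVecLin := by
  classical
  ext c
  rw [LinearMap.mem_range, LinearMap.mem_ker]
  constructor
  · rintro ⟨f, rfl⟩
    ext r
    obtain ⟨i, x, hx⟩ := r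
    have h1 := (ShghE.tf_mem_iff _ _ _ _).1 ((mem_LN.1 f.2).2 i) x (by simpa using hx)
    rw [ln_expand (mem_LN.1 f.2).1, ShghE.tf_coeff] at h1
    simpa [Matrix.mulVec, dotProduct, lnMat, lnPsi] using h1
  · intro h
    have hmem : (∑ e : N, monomial (e : Fin 2 →₀ ℕ) (c e)) ∈ LN N μ P := by
      rw [mem_LN]
      refine ⟨ln_sum_mem c, fun i => ?_⟩
      refine (ShghE.tf_mem_iff _ _ _ _).2 fun x hx => ?_
      rw [ShghE.tf_coeff]
      have := congrFun h ⟨i, ⟨x, by simpa using hx⟩⟩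
      simpa [Matrix.mulVec, dotProduct, lnMat] using this
    refine ⟨⟨_, hmem⟩, ?_⟩
    ext e
    exact ln_sum_coeff c e

/-- Dimension and rank. -/
theorem ln_finrank (N : Finset (Fin 2 →₀ ℕ)) (μ : Fin s → ℕ) (P : Fin s → Fin 2 → K) :
    Module.finrank K (LN N μ P) + (lnMat N μ P).rank = Fintype.card N := by
  have h1 : Module.finrank K (LN N μ P) =
      Module.finrank K (LinearMap.ker (lnMat N μ P).mulVecLin) := by
    rw [← ln_range]
    exact (LinearMap.finrank_range_of_inj (LinearMap.ker_eq_bot.1 (ln_ker N μ P))).symm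
  rw [h1, Matrix.rank, add_comm, LinearMap.finrank_range_add_finrank_ker,
    Module.finrank_fintype_fun_eq_card]

end

/-- SEMIR: specialization of the points does not lower the dimension. -/
theorem semiR {A K K' : Type*} [CommRing A] [Field K] [Field K'] (θ : A →+* K)
    (hθ : Function.Injective θ) (θ' : A →+* K') {s : ℕ} (N : Finset (Fin 2 →₀ ℕ))
    (μ : Fin s → ℕ) (P : Fin s → Fin 2 → A) :
    Module.finrank K (LN N μ (fun i c => θ (P i c))) ≤
      Module.finrank K' (LN N μ (fun i c => θ' (P i c))) := by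
  have h1 := ln_finrank N μ (fun i c => θ (P i c))
  have h2 := ln_finrank N μ (fun i c => θ' (P i c))
  let M : Matrix (ShghE.tfRow μ) N A := fun r e => ShghE.tfM (P r.1 0) (P r.1 1) e r.2
  have key := ShghT.semib_rank_le M θ hθ θ'
  have e1 : M.map θ = lnMat N μ (fun i c => θ (P i c)) := by
    ext r e
    change θ (ShghE.tfM (P r.1 0) (P r.1 1) e r.2) = _
    rw [← ShghE.tfM_map]
    rfl
  have e2 : M.map θ' = lnMat N μ (fun i c => θ' (P i c)) := by
    ext r e
    change θ' (ShghE.tfM (P r.1 0) (P r.1 1) e r.2) = _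
    rw [← ShghE.tfM_map]
    rfl
  rw [e1, e2] at key
  omega

end ShghZ
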