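import Pool.Agent.ShghZ.CapQ
import Pool.Agent.ShghY.PencilY
import Pool.Agent.ShghX.MainX
import Pool.Agent.ShghS.SpecialS

/-!
# From placements to dimensions
-/

namespace ShghT

open MvPolynomial

theorem Std.triple {δ : ℕ} {M : Fin 9 → ℕ} {e : ℕ} (hstd : Std δ M e) :
    ∀ i j l, i ≠ j → i ≠ l → j ≠ l → M i + M j + M l ≤ δ := by
  intro i j l hij hil hjl
  have key : ∀ i j l : Fin 9, i < j → j < l → M i + M j + M l ≤ δ := by
    intro i j l h1 h2
    have a0 := hstd.anti (Fin.zero_le i)
    have a1 : M j ≤ M 1 := hstd.anti (by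
      rw [Fin.le_def]
      rw [Fin.lt_def] at h1
      simp only [Fin.val_one]
      omega)
    have a2 : M l ≤ M 2 := hstd.anti (by
      rw [Fin.le_def]
      rw [Fin.lt_def] at h1 h2
      have : (2 : Fin 9).val = 2 := rfl
      omega)
    have := hstd.std
    omega
  rcases lt_trichotomy i j with h1 | h1 | h1
  · rcases lt_trichotomy j l with h2 | h2 | h2
    · exact key i j l h1 h2
    · exact absurd h2 hjl
    · rcases lt_trichotomy i l with h3 | h3 | h3
      · have := key i l j h3 h2
        omega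
      · exact absurd h3 hil
      · have := key l i j h3 h1
        omega
  · exact absurd h1 hij
  · rcases lt_trichotomy i l with h2 | h2 | h2
    · have := key j i l h1 h2
      omega
    · exact absurd h2 hil
    · rcases lt_trichotomy j l with h3 | h3 | h3
      · have := key j l i h3 h2
        omega
      · exact absurd h3 hjl
      · have := key l j i h3 h1
        omega

variable {F K : Type*} [Field F] [Field K] [Algebra F K] {r : ℕ}
    (P : Fin (9 + r) → Fin 2 → K)
    (hP : AlgebraicIndependent F (fun ij : Fin (9 + r) × Fin 2 => P ij.1 ij.2))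
    (δ : ℕ) (M : Fin 9 → ℕ) (m : Fin r → ℕ) (e : ℕ) (he : 0 < e) (hstd : Std δ M e)
    (χ : ℤ) (hχ : χ = ((δ + 2).choose 2 : ℤ) - ∑ l, ((M l + 1).choose 2 : ℤ) -
      ∑ i, ((m i + 1).choose 2 : ℤ))

include hP he hstd hχ

/-- The dimension from an upper bound. -/
theorem main_up (n : ℕ)
    (hn : n = ∑ x ∈ Finset.range e, Qd δ M e x - ∑ i, (m i + 1).choose 2)
    (hup : Module.finrank K (LS δ (Fin.append M m) P) ≤ n) :
    (Module.finrank K (LS δ (Fin.append M m) P) : ℤ) = max 0 χ := by
  have : Infinite K := infinite_of_algebraicIndependent _ hP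
  have hsum := sum_Qd hstd he
  have hlow := le_finrank_LS δ (Fin.append M m) P
  rw [Fin.sum_univ_add] at hlow
  simp only [Fin.append_left, Fin.append_right] at hlow
  have hχ' : χ = ((∑ x ∈ Finset.range e, Qd δ M e x : ℕ) : ℤ) -
      ((∑ i, (m i + 1).choose 2 : ℕ) : ℤ) := by
    rw [hχ, ← hsum]
    push_cast
    ring
  omega

/-- The demand is covered. -/
theorem main_dem (n : ℕ)
    (hn : n = ∑ x ∈ Finset.range e, Qd δ M e x - ∑ i, (m i + 1).choose 2)
    (h : ∃ (p : Fin (r + n) → ℤ) (o : Fin (r + n) → Option Bool),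
      (∀ i, 0 ≤ circO e (p i) (o i) ∧ circO e (p i) (o i) < 4 * (e : ℤ)) ∧
      ∀ x < e, Qd δ M e x ≤ ∑ i, NO e (Fin.append m (fun _ : Fin n => 1) i) (p i) (o i) x) :
    (Module.finrank K (LS δ (Fin.append M m) P) : ℤ) = max 0 χ := by
  have : Infinite K := infinite_of_algebraicIndependent _ hP
  obtain ⟨p, o, hpo, hN⟩ := h
  exact main_up P hP δ M m e he hstd χ hχ n hn (upper_W P hP δ M m e he hstd n p o hpo hN)

/-- The conditions fit into the columns. -/
theorem main_cap (h : ∃ (p : Fin r → ℤ) (σ : Fin r → Bool),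
      (∀ i, 0 < circ e (p i) (σ i) ∧ circ e (p i) (σ i) < 4 * e) ∧
      ∀ ρ < e, ∑ i, Nr e (m i) (p i) (σ i) ρ ≤ Qd δ M e ρ) :
    (Module.finrank K (LS δ (Fin.append M m) P) : ℤ) = max 0 χ := by
  classical
  obtain ⟨p, σ, hps, hc⟩ := h
  obtain ⟨n, hn⟩ : ∃ n, n = ∑ x ∈ Finset.range e, Qd δ M e x - ∑ i, (m i + 1).choose 2 :=
    ⟨_, rfl⟩
  refine main_dem P hP δ M m e he hstd χ hχ n hn ?_
  refine fillY e he (Fin.append m (fun _ : Fin n => 1))
    (Finset.univ.map (Fin.castAddEmb n)) ?_ (Qd δ M e)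
    (Fin.append p (fun _ => CombB_pp e 0)) (Fin.append σ (fun _ => true)) ?_ ?_ ?_
  · intro i hi
    revert hi
    refine Fin.addCases (fun i => ?_) (fun i => ?_) i
    · intro hi
      exact absurd (Finset.mem_map.2 ⟨i, Finset.mem_univ _, rfl⟩) hi
    · intro _
      rw [Fin.append_right]
  · intro i
    refine Fin.addCases (fun i => ?_) (fun i => ?_) i
    · rw [Fin.append_left, Fin.append_left]
      exact hps i
    · rw [Fin.append_right, Fin.append_right]
      exact CombB_pp_circ e he _
  · intro ρ hρ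
    rw [Finset.sum_map]
    simp only [Fin.castAddEmb_apply, Fin.append_left]
    exact hc ρ hρ
  · rw [cnd_append', hn]
    omega

end ShghT
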