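import Pool.Agent.ShghK.Spec
import Pool.Agent.ShghZ.LnMat

/-!
# ShghZ, Spec: the STRIP lemma (statements, proofs in the docstrings)

PLAN S (C47): homogeneous systems `(d; m ^ s)`, `s ≥ C m ^ (2/5)`. One long curve `Y = X ^ a`
(`a` about `sqrt s / 2`), core `m ^ (q ^ 2)` (`ShghK.S_SqGT`), `b = s - q ^ 2` points on the strip
`Sf (a ^ 2) τ δ`, `τ = m + μ`. The STRIP lemma (`S_Strip`) replaces the strip with `b = 2 β + n` points
of multiplicity `m` by blocks of rows of a box, with GENERIC points of multiplicity `μ = τ - m` in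
every block, at most `β` points in one block.

Existing: `ShghZ.semiR`, `ShghZ.ln_finrank`, `ln_range`, `lnMat`, `ln_expand`, `ln_sum_coeff`,
`ln_sum_mem` (`LnMat`), `ShghC.tNSemi`, `ShghC.tNInv`, `ShghC.tUnit`, `ShghJ.geo_algInd`,
`ShghE.tf_mem_iff`, `ShghE.tfM`, `ShghE.tfM_map`, `ShghE.tf_coeff`.
-/

namespace ShghZ

open MvPolynomial ShghJ ShghC ShghK

universe u v w

/-- A polynomial in the first variable. -/
noncomputable def px {K : Type*} [Field K] (p : Polynomial K) : MvPolynomial (Fin 2) K :=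
  Polynomial.aeval (X 0) p

/-- `f(X, Y) ↦ V ^ τ f(X, U / V)`, for `f` of degree `≤ τ` in `Y`. -/
noncomputable def hmg {K : Type*} [Field K] (U V : MvPolynomial (Fin 2) K) (τ : ℕ) :
    MvPolynomial (Fin 2) K →ₗ[K] MvPolynomial (Fin 2) K :=
  (basisMonomials (Fin 2) K).constr K fun e => X 0 ^ e 0 * U ^ e 1 * V ^ (τ - e 1)

/-- HMGT: the value of `hmg` on a Taylor expansion. PROOF. `hmg (X 0 ^ i * (X 1 - C z) ^ j) = X 0 ^ i *
(U - C z * V) ^ j * V ^ (τ - j)` for `j ≤ τ`: binomial formula (`sub_pow` or `add_pow`), `hmg` of the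
monomial `X 0 ^ i * X 1 ^ l` is `X 0 ^ i * U ^ l * V ^ (τ - l)`, `V ^ (τ - l) = V ^ (j - l) * V ^ (τ - j)`.
Then `(X 0 - C x) ^ i` by the binomial formula (`hmg (X 0 * g) = X 0 * hmg g` for every `g`: check on
monomials; so `hmg (px p * g) = px p * hmg g`). Finally `f = ∑ e, C (a e) * (X 0 - C x) ^ e 0 *
(X 1 - C z) ^ e 1`, `a e = (tfShift x z f).coeff e` (apply `tfShift (-x) (-z)`, see
`ShghE.tfShift`, `tfShift_neg`), and `a e = 0` for `e 1 > τ` because `tfShift` does not raise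
`degreeOf 1`. -/
def S_HmgT : Prop := ∀ (K : Type u) [Field K] (U V : MvPolynomial (Fin 2) K) (τ : ℕ) (x z : K)
  (f : MvPolynomial (Fin 2) K), (∀ e, f.coeff e ≠ 0 → e 1 ≤ τ) →
  hmg U V τ f = ∑ e ∈ (ShghE.tfShift x z f).support, C ((ShghE.tfShift x z f).coeff e) *
    ((X 0 - C x) ^ e 0 * (U - C z * V) ^ e 1 * V ^ (τ - e 1)) ∧
  ∀ e ∈ (ShghE.tfShift x z f).support, e 1 ≤ τ

/-- HMGE: exponents and injectivity of `hmg` for `U = Y Q + R`, `V = Y - A`. PROOF. Exponents: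
`degreeOf 0`, `degreeOf 1` of `X 0 ^ e 0 * U ^ e 1 * V ^ (τ - e 1)` are at most
`e 0 + (β + n) e 1 + β (τ - e 1) ≤ δ + β τ` and `τ` (`degreeOf_mul_le`, `degreeOf_pow_le`,
`degreeOf_sum_le`, `degreeOf 0 (px p) ≤ natDegree p`, `degreeOf 1 (px p) = 0`). Injective: let `f ≠ 0`
(degree `≤ τ` in `Y`), `k` the degree of `f` in `Y`; `hmg U V τ f = V ^ (τ - k) * hmg U V k f`, and the
substitution `Y ↦ A` (ring homomorphism `aeval ![X, A]` to `K[X]`) maps `hmg U V k f` to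
`f_k * (A Q + R) ^ k ≠ 0`, `f_k ∈ K[X]` the leading coefficient (all other terms contain `V`). -/
def S_HmgE : Prop := ∀ (K : Type u) [Field K] (n τ δ β : ℕ) (A Q R : Polynomial K),
  A.natDegree ≤ β → Q.natDegree ≤ β + n → R.natDegree ≤ β + n → A * Q + R ≠ 0 →
  ∀ f : MvPolynomial (Fin 2) K, (∀ e, f.coeff e ≠ 0 → e ∈ Sf n τ δ) →
  (∀ e, (hmg (X 1 * px Q + px R) (X 1 - px A) τ f).coeff e ≠ 0 → e ∈ Sf 0 τ (δ + τ * β)) ∧
  (hmg (X 1 * px Q + px R) (X 1 - px A) τ f = 0 → f = 0)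

/-- ELT: the transformation of a strip with `s` points into a box, points on a graph. PROOF. Let
`U = Y Q + R`, `V = Y - A`, `F = hmg U V τ f`, `z_l = Q(x_l)`, `a_l = A(x_l)`. (a) `U - C z_l * V` vanishes
for `X = x_l` (`Q(x_l) = z_l`, `R(x_l) + z_l A(x_l) = 0`), so it is `(X 0 - C x_l) * D_l`
(`X - x_l` divides `Q - z_l` and `R + z_l A` in `K[X]`: `Polynomial.dvd_iff_isRoot`; `px` is a ring
homomorphism). (b) `V ∈ pt x_l a_l` and `X 0 - C x_l ∈ pt x_l a_l`. (c) `S_HmgT` at `(x_l, z_l)`: `f` has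
only terms with `e.degree ≥ ν_l` (`tf_mem_iff`), each term of `F` is a constant times
`(X 0 - x_l) ^ (e 0 + e 1) D_l ^ e 1 V ^ (τ - e 1)`, so `F = (X 0 - x_l) ^ ν_l * G_l` and the terms of
`G_l` are in `pt ^ ((e 0 + e 1 - ν_l) + (τ - e 1)) ≤ pt ^ (τ - ν_l)`. (d) The `(X 0 - C x_l) ^ ν_l` are
pairwise coprime (`IsCoprime`, `x` injective; `Finset.prod_dvd_of_coprime`): `F = Π * G`,
`Π = ∏ (X 0 - C x_l) ^ ν_l`; cancel `(X 0 - C x_l) ^ ν_l`: `(∏_(k ≠ l) ..) * G = G_l`, `S_Unit`: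
`G ∈ pt x_l a_l ^ (τ - ν_l)`. (e) Exponents of `G`: `S_HmgE` and degrees in a domain
(`degreeOf_mul_eq` or similar: see `Pool.Agent.ShghC.RowDiv`), `L = δ + τ β - ∑ ν`. (f) `f ↦ G` is linear
(cancel `Π`) and injective (`S_HmgE`): `LinearMap.finrank_le_finrank_of_injective`, `S_NClo` (finite). -/
def S_ElT : Prop := ∀ (K : Type u) [Field K] (n τ δ β L s : ℕ) (ν : Fin s → ℕ) (x : Fin s → K)
  (A Q R : Polynomial K), Function.Injective x → (∀ i, ν i ≤ τ) → A.natDegree ≤ β →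
  Q.natDegree ≤ β + n → R.natDegree ≤ β + n →
  A * Q + R = ∏ i, (Polynomial.X - Polynomial.C (x i)) → L + ∑ i, ν i = δ + τ * β →
  Module.finrank K (LN (Sf n τ δ) ν (fun i => ![x i, Q.eval (x i)])) ≤
    Module.finrank K (LN (Sf 0 τ L) (fun i => τ - ν i) (fun i => ![x i, A.eval (x i)]))

/-- STRIPB: degeneration of the graph to `β` fibres `X = x_c`; the heights `y_i` are arbitrary.
PROOF. `E = FractionRing (Polynomial K)`, `t` its variable. `A0 = ∏_c (Z - x_c)` (monic of degree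
`β`), `ξ_i = y_i / ∏_(c' ≠ c i) (x (c i) - x c')`, `x'_i = x (c i) + t ξ_i ∈ K[t]`,
`π = ∏_i (Z - x'_i) ∈ E[Z]`, `A = t⁻¹ A0`, `Q = t (π /ₘ A0)`, `R = π %ₘ A0`
(`Polynomial.modByMonic_add_div`, `natDegree_divByMonic`: `s - β = β + n`; `degree_modByMonic_lt`). The
`x'_i` are different: if `c i ≠ c j` put `t = 0`; if `c i = c j` then `y_i ≠ y_j` and the
denominators are equal. `hN F .. ≤ finrank E (LN (Sf n τ δ) ν (x'_i, Q(x'_i)))` (`tNInv`, `tNSemi` with
`K' = E`), `S_ElT` over `E`, and `A(x'_i) = ξ_i ∏_(c' ≠ c i) (x (c i) - x c' + t ξ_i) ∈ K[t]` has the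
value `y_i` at `t = 0`: `semiR` with the ring `Polynomial K`, `θ = algebraMap _ E`, `θ'` the evaluation
at `0`. -/
def S_StripB : Prop := ∀ (F K : Type u) [Field F] [Field K] [Algebra F K] (n τ δ β L s : ℕ)
  (ν : Fin s → ℕ) (x : Fin β → K) (c : Fin s → Fin β) (y : Fin s → K), Function.Injective x →
  (∀ i j, c i = c j → y i = y j → i = j) → s = 2 * β + n → (∀ i, ν i ≤ τ) →
  L + ∑ i, ν i = δ + τ * β →
  hN F (Sf n τ δ) (Finset.univ.val.map ν) ≤
    Module.finrank K (LN (Sf 0 τ L) (fun i => τ - ν i) (fun i => ![x (c i), y i]))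

/-- DS: direct sum of blocks of rows. PROOF. `E = FractionRing (Polynomial K)`. `lnMat` of the
left side has the entries `M_(i,x),e = t ^ (w_(b i) (e 1 - x 1)) tfM (P i 0) (P i 1) e x`,
`w_j = 2 (J - 1 - j)` (both `0` if `e 1 < x 1`: `tfM (P i 0) (λ P i 1) e x = λ ^ (e 1 - x 1) tfM ..`; explicit
form `tfM a b e x = choose (e 0) (x 0) choose (e 1) (x 1) a ^ (e 0 - x 0) b ^ (e 1 - x 1)`, or by
the substitution `Y ↦ λ Y`). Let `ψ_0 = 0`, `ψ_(j+1) = ψ_j + 2 k_(j+1) - 1`, and `φ(r) = w_j r + ψ_j` for a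
row `r` in the block `j` (`k_j ≤ r < k_(j+1)`). For every block `b` and row `r`:
`w_b r + ψ_b - φ(r) ≥ 0`, and it is `0` only if `r` is in the block `b` (for `b > j` it is
`∑_(i=j)^(b-1) (2 k_(i+1) - 1 - 2 r)`, for `b < j` it is `∑_(i=b)^(j-1) (2 r + 1 - 2 k_(i+1))`, all terms
`≥ 1`). Multiply the row `(i, x)` of `M` by `t ^ (w x 1 + ψ)` (`w = w_(b i)`, `ψ = ψ_(b i)`) and the
column `e` by `t ^ (- φ(e 1))`: the rank does not change, the new matrix `M'` has its entries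
`t ^ (w_b r + ψ_b - φ(r)) tfM (P i 0) (P i 1) e x` in `K[t]`, and for `t = 0` it is block diagonal. So
`rank M ≥ rank M'(0)` (`ShghT.semib_rank_le`), `finrank (LN ..) = card N - rank M ≤ finrank (ker M'(0))`
(`ln_finrank`), and `g ↦ (∑_(e in block j) monomial e (g e))_j` embeds the kernel of `M'(0)` into the
product of the spaces on the right side. -/
def S_DS : Prop := ∀ (K : Type u) [Field K] (N : Finset (Fin 2 →₀ ℕ)) (J : ℕ) (k : ℕ → ℕ)
  (s : ℕ) (μ b : Fin s → ℕ) (P : Fin s → Fin 2 → K), StrictMono k → k 0 = 0 →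
  (∀ e ∈ N, e 1 < k J) → (∀ i, b i < J) →
  Module.finrank (FractionRing (Polynomial K)) (LN N μ (fun i =>
    ![algebraMap K (FractionRing (Polynomial K)) (P i 0),
      algebraMap (Polynomial K) (FractionRing (Polynomial K))
        (Polynomial.X ^ (2 * (J - 1 - b i)) * Polynomial.C (P i 1))])) ≤
    ∑ j ∈ Finset.range J, Module.finrank K (LN (N.filter fun e => k j ≤ e 1 ∧ e 1 < k (j + 1))
      (fun i => if b i = j then μ i else 0) P)

/-- SHIFT: division by `Y ^ k`. PROOF. All exponents of `f` have `e 1 ≥ k`, so `f = Y ^ k g`, `g` has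
exponents `e 1 < T`, `e 0 ≤ L`; `P i 1 ≠ 0`, so `Y ^ k` is a unit at the points (`S_Unit`). -/
def S_Shift : Prop := ∀ (K : Type u) [Field K] (τ L k T s : ℕ) (μ : Fin s → ℕ)
  (P : Fin s → Fin 2 → K), (∀ i, P i 1 ≠ 0) → 1 ≤ T →
  Module.finrank K (LN ((Sf 0 τ L).filter fun e => k ≤ e 1 ∧ e 1 < k + T) μ P) ≤
    Module.finrank K (LN (Sf 0 (T - 1) L) μ P)

/-- STRIP: THE STRIP LEMMA. PROOF. `K = UF F`, `E = FractionRing (Polynomial K)`. Index the
`2 β + n` points by `σ : Fin (2 β + n) ≃ Σ j, Fin (c j)` (`finSigmaFinEquiv`): point `i` is in the block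
`j i` and on the fibre `l i < c (j i) ≤ β`. `x_l = up l 0`, `y_i = t ^ (2 (J - 1 - j i)) up (l i) 1`
(for the same `l` and different `j` they are different, as `up l 1 ≠ 0`). `S_StripB` with `E` in place
of `K` (`x` = image of `up l 0` in `E`), then `S_DS` with `k_j = ∑_(i<j) R i` (extended by
`k_(j+1) = k_j + 1` for `j ≥ J`; `k_J = ∑ R ≥ τ + 1`), `N = Sf 0 τ L`, `P i = up (l i)`; then `S_Shift`
(`up l 1 ≠ 0`), and for every `j` the space of the block `j` is equal to `LN (Sf 0 (R j - 1) L) (fun _ : Fin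
(c j) => μ) (fun l => up l)` (multiplicity `0` is no condition), which has the dimension
`hN F (Sf 0 (R j - 1) L) (replicate (c j) μ)` by `tNInv`, `geo_algInd`. -/
def S_Strip : Prop := ∀ (F : Type u) [Field F] (n δ m μ β L J : ℕ) (R c : Fin J → ℕ),
  (∀ j, 1 ≤ R j) → (∀ j, c j ≤ β) → ∑ j, c j = 2 * β + n → m + μ + 1 ≤ ∑ j, R j →
  L + (2 * β + n) * m = δ + (m + μ) * β →
  hN F (Sf n (m + μ) δ) (Multiset.replicate (2 * β + n) m) ≤
    ∑ j, hN F (Sf 0 (R j - 1) L) (Multiset.replicate (c j) μ)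

/-- EVENPEEL: an even number of points on a box of thickness `t`, `m ≤ t ≤ 2 m`. PROOF. Induction on
`j` for all `d`, `B`: `S_ElmB` for the first point, `S_ElmA` for the second one (`m ≤ d + (t - m)`,
because `L + (j + 1) m = d + (j + 1) (t - m)` and `t - m ≤ m`), `Multiset.cons_swap`; then the
induction hypothesis for `B` with two more points of multiplicity `t - m`. -/
def S_EvenPeel : Prop := ∀ (F : Type u) [Field F] (t m j d L : ℕ) (B : Multiset ℕ), m ≤ t →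
  t ≤ 2 * m → L + j * m = d + j * (t - m) →
  hN F (Sf 0 t d) (Multiset.replicate (2 * j) m + B) ≤
    hN F (Sf 0 t L) (Multiset.replicate (2 * j) (t - m) + B)

/-- BLOCKWIN: windows of a block: `2 i` generic points of multiplicity `μ` on a box of thickness
`μ + μ'`. PROOF. `S_EvenPeel` (`t = μ + μ'`, `B = 0`), `S_BoxWin` (`k = μ + μ'`, `L'`), and
`(μ + μ' + 1) (L' + 1) - 2 i T μ' = (μ + μ' + 1) (L + 1) - i μ (μ + 1)`. -/
def S_BlockWin : Prop := ∀ (F : Type u) [Field F] [CharZero F] (μ μ' i L L' : ℕ) (W : ℤ),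
  1 ≤ μ' → μ' ≤ μ → L' + i * μ = L + i * μ' → 3 * μ' ≤ L' →
  (μ' : ℤ) * (2 * L' + 7 * μ') ≤ 2 * W →
  (hN F (Sf 0 (μ + μ') L) (Multiset.replicate (2 * i) μ) : ℤ) ≤
    phi W (((μ : ℤ) + μ' + 1) * (L + 1) - i * (μ * (μ + 1)))

end ShghZ
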