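import Pool.Agent.ShghY.PlaceY

/-!
# An upper bound of the sum of the demands
-/

namespace ShghT

theorem sum_tri (n : ℕ) : ∀ h : ℕ, 2 * ∑ x ∈ Finset.range n, (h - x) ≤ h * (h + 1) := by
  induction n with
  | zero => intro h; simp
  | succ n ih =>
    intro h
    rw [Finset.sum_range_succ']
    rcases h with _ | k
    · have h0 : ∑ x ∈ Finset.range n, (0 - (x + 1)) = 0 := Finset.sum_eq_zero fun x _ => by omega
      rw [h0]
      simp
    · have h1 : ∑ x ∈ Finset.range n, (k + 1 - (x + 1)) = ∑ x ∈ Finset.range n, (k - x) :=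
        Finset.sum_congr rfl fun x _ => by omega
      rw [h1, Nat.sub_zero]
      have := ih k
      nlinarith

theorem sum_hm_up (e h : ℕ) : ∑ x ∈ Finset.range e, (2 * h - 2 * hm e x) ≤ 2 * h ^ 2 := by
  have h1 : ∑ x ∈ Finset.range e, (2 * h - 2 * hm e x) ≤
      ∑ x ∈ Finset.range e, (2 * (h - x) + 2 * (h - 1 - (e - 1 - x))) := by
    refine Finset.sum_le_sum fun x hx => ?_
    rw [Finset.mem_range] at hx
    unfold hm
    omega
  have h2 : ∑ x ∈ Finset.range e, (h - 1 - (e - 1 - x)) = ∑ x ∈ Finset.range e, (h - 1 - x) :=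
    Finset.sum_range_reflect (fun x => h - 1 - x) e
  rw [Finset.sum_add_distrib, ← Finset.mul_sum, ← Finset.mul_sum, h2] at h1
  have h3 := sum_tri e h
  have h4 := sum_tri e (h - 1)
  rcases h with _ | k
  · simp only [Nat.zero_sub, mul_zero, zero_mul] at *
    omega
  · rw [Nat.add_sub_cancel] at *
    nlinarith

theorem sum_hm_lo (e : ℕ) : ∀ A : ℕ, A ≤ e →
    A * A ≤ 2 * ∑ x ∈ Finset.range e, (A + 2 * hm e x - e) + A := by
  intro A
  induction A with
  | zero => intro _; simp
  | succ A ih =>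
    intro hA
    have h1 := ih (by omega)
    have h2 : ∑ x ∈ Finset.range e, (A + 2 * hm e x - e) + A ≤
        ∑ x ∈ Finset.range e, (A + 1 + 2 * hm e x - e) := by
      have h3 : ∑ x ∈ Finset.range e, (A + 1 + 2 * hm e x - e) =
          ∑ x ∈ Finset.range e, (A + 2 * hm e x - e) +
          ((Finset.range e).filter fun x => e ≤ A + 2 * hm e x).card := by
        rw [Finset.card_filter, ← Finset.sum_add_distrib]
        refine Finset.sum_congr rfl fun x _ => ?_
        split_ifs <;> omega
      have h4 : Finset.Ico ((e - A + 1) / 2) ((e - A + 1) / 2 + A) ⊆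
          (Finset.range e).filter fun x => e ≤ A + 2 * hm e x := by
        intro x hx
        rw [Finset.mem_Ico] at hx
        rw [Finset.mem_filter, Finset.mem_range]
        unfold hm
        omega
      have h5 := Finset.card_le_card h4
      rw [Nat.card_Ico] at h5
      omega
    nlinarith

variable {δ : ℕ} {M : Fin 9 → ℕ} {e : ℕ}

theorem Dg_hm {x : ℕ} (hx : x ≤ e) : Dg δ M e (hm e x) = Dg δ M e x := by
  unfold hm
  rcases le_total x (e - x) with h | h
  · rw [min_eq_left h]
  · rw [min_eq_right h]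
    exact Dg_symm δ M hx

theorem Dg_between (h : Std δ M e) {a : ℕ} : ∀ b, a ≤ b → 2 * b ≤ e →
    Dg δ M e b ≤ Dg δ M e a ∧ Dg δ M e a ≤ Dg δ M e b + 2 * (b - a) := by
  intro b hab
  induction b, hab using Nat.le_induction with
  | base => intro _; omega
  | succ b hab ih =>
    intro hb
    have h1 := ih (by omega)
    have h2 := Dg_anti h hb
    have h3 := Dg_slope h hb
    omega

theorem Dg_top (h : Std δ M e) {x : ℕ} (hx : x ≤ e) : Dg δ M e x + 2 * hm e x ≤ M 8 + e := by
  have h1 := kp_Dg h hx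
  have h2 : Dg δ M e x - M 8 ≤ kp δ M (Dg δ M e x) := by
    unfold kp
    have : Dg δ M e x - M 8 ≤ ∑ l, (Dg δ M e x - M l) :=
      Finset.single_le_sum (f := fun l => Dg δ M e x - M l) (fun _ _ => Nat.zero_le _)
        (Finset.mem_univ (8 : Fin 9))
    omega
  omega

/-- The sum of the demands is bounded in terms of one of them. -/
theorem sum_Qd_le (h : Std δ M e) {x0 A : ℕ} (hx0 : x0 < e) (hA : Dg δ M e x0 = M 8 + A) :
    2 * ∑ x ∈ Finset.range e, Qd δ M e x + A * A ≤
      2 * e * (M 8 + 1) + 2 * A * e + A + 4 * hm e x0 ^ 2 := by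
  have hA0 := Dg_top h hx0.le
  have hpt : ∀ x ∈ Finset.range e, Qd δ M e x + (A + 2 * hm e x - e) ≤
      M 8 + 1 + A + (2 * hm e x0 - 2 * hm e x) := by
    intro x hx
    rw [Finset.mem_range] at hx
    have h1 : Qd δ M e x ≤ Dg δ M e x + 1 := Nat.sub_le _ _
    have h2 := Dg_top h hx.le
    have hx2 : 2 * hm e x ≤ e := by unfold hm; omega
    have hx02 : 2 * hm e x0 ≤ e := by unfold hm; omega
    have e1 := Dg_hm (δ := δ) (M := M) hx.le
    have e2 := Dg_hm (δ := δ) (M := M) hx0.le
    rcases le_total (hm e x0) (hm e x) with h3 | h3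
    · have h4 := Dg_between h (a := hm e x0) (hm e x) h3 hx2
      omega
    · have h4 := Dg_between h (a := hm e x) (hm e x0) h3 hx02
      omega
  have hs := Finset.sum_le_sum hpt
  rw [Finset.sum_add_distrib, Finset.sum_add_distrib, Finset.sum_const, Finset.card_range,
    smul_eq_mul] at hs
  have h5 := sum_hm_up e (hm e x0)
  have h6 := sum_hm_lo e A (by omega)
  nlinarith

end ShghT
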